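import Mathlib
import Pool.Agent.Lib.MP_409048_lc.Code
import Pool.Agent.Lib.MP_b87f19_lc.Main

set_option autoImplicit false

namespace Pool.Agent.Lib.S13

open Set Filter MeasureTheory Topology Pool.Agent.Lib.MP_409048_lc
open scoped NNReal ENNReal

lemma haus_countable (f : Gauge) {X : Set ℝ} (hX : X.Countable) : haus f X = 0 := by
  have : NullSingletonClass (Measure.mkMetric (fun d : ℝ≥0∞ => (f.1 d.toNNReal : ℝ≥0∞)) : Measure ℝ) := by
    refine ⟨fun x => le_antisymm ((Measure.mkMetric_le_liminf_tsum (ι := fun _ : ℕ => Unit)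
      (l := atTop) _ (fun _ => 0) tendsto_const_nhds (fun _ _ => {x}) (by simp) (by simp) _).trans
      ?_) zero_le⟩
    simp [f.2.2.1]
  exact hX.measure_zero _

lemma haus_mono (f : Gauge) {X Y : Set ℝ} (h : X ⊆ Y) : haus f X ≤ haus f Y := measure_mono h

lemma haus_iUnion_pos (f : Gauge) {ι : Type} [Countable ι] (X : ι → Set ℝ) :
    0 < haus f (⋃ i, X i) ↔ ∃ i, 0 < haus f (X i) := by
  simp only [pos_iff_ne_zero, haus, ne_eq, measure_iUnion_null_iff, not_forall]

/-- The subset theorem for analytic sets, with a compact set of parameters. -/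
theorem frost {φ : (ℕ → ℕ) → ℝ} (hφ : Continuous φ) (f : Gauge) (h : 0 < haus f (range φ)) :
    ∃ L, IsCompact L ∧ 0 < haus f (φ '' L) := by
  obtain ⟨j, hj⟩ : ∃ j : ℤ,
      0 < haus f (φ '' (φ ⁻¹' ((range ((↑) : ℚ → ℝ))ᶜ ∩ Ioo (j : ℝ) (j + 1)))) := by
    rw [← haus_iUnion_pos]
    refine ((haus_union_pos_iff f _ (range ((↑) : ℚ → ℝ))).mp (h.trans_le (haus_mono f ?_))).resolve_right
      (by rw [haus_countable f (countable_range _)]; exact lt_irrefl _)
    rintro _ ⟨z, rfl⟩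
    by_cases i : Irrational (φ z)
    · exact Or.inl (mem_iUnion.2 ⟨⌊φ z⌋, z, ⟨i, (Int.floor_le _).lt_of_ne (i.ne_int _).symm,
        Int.lt_floor_add_one _⟩, rfl⟩)
    · exact Or.inr (not_not.1 i)
  have an : AnalyticSet (φ ⁻¹' ((range ((↑) : ℚ → ℝ))ᶜ ∩ Ioo (j : ℝ) (j + 1))) :=
    (hφ.measurable ((countable_range _).measurableSet.compl.inter measurableSet_Ioo)).analyticSet
  rw [AnalyticSet] at an
  rcases an with e | ⟨χ, hχ, e⟩
  · simp [e, haus] at hj
  have hz : ∀ z, Irrational (φ (χ z)) ∧ φ (χ z) ∈ Ioo (j : ℝ) (j + 1) :=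
    fun z => e.le (mem_range_self z)
  set v : ℕ → ℝ≥0 := fun n => f.1 (2⁻¹ ^ n) with hv
  set ω : Measure (ℕ × ℕ) := Measure.sum fun c => (v c.1 : ℝ≥0∞) • Measure.dirac c
  have hw : B87.Wt ω v := by
    refine ⟨fun n k => Measure.sum_smul_dirac_singleton, fun m n h => f.2.1
      (pow_le_pow_of_le_one (by norm_num) (by norm_num) h), fun n => f.2.2.2 _ (by positivity),
      fun ε hε => ?_⟩
    have t : Tendsto v atTop (𝓝 (f.1 0)) := (f.1.continuous.tendsto 0).comp
      (NNReal.tendsto_pow_atTop_nhds_zero_of_lt_one (by norm_num))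
    rw [f.2.2.1] at t
    exact (t.eventually (ge_mem_nhds hε)).exists
  have hn := B87.net_DD (hφ.comp hχ) hz
  set d : ℕ → (ℕ → ℕ) → ℕ := fun n z => B87.DD j n ((φ ∘ χ) z) with hd
  have p0 : 0 < B87.N ω d univ := by
    by_contra hc
    have := B87.upper hw B87.tend (B87.close_DD hz)
      (g := fun d : ℝ≥0∞ => (f.1 d.toNNReal : ℝ≥0∞)) (by simp [f.2.2.1])
      (fun n _ t h _ => ENNReal.coe_le_coe.mpr (f.2.1 (by
        have := ENNReal.toNNReal_mono ENNReal.ofReal_ne_top h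
        rwa [ENNReal.ofReal, ENNReal.toNNReal_coe, Real.toNNReal_pow (by norm_num),
          Real.toNNReal_inv, Real.toNNReal_ofNat] at this))) (A := univ) (B := 0) fun n => by
      exact (ENNReal.tsum_eq_zero.mpr fun k =>
        le_antisymm ((B87.N_mono (subset_univ _)).trans (not_lt.mp hc)) zero_le).le
    rw [← e, ← range_comp, ← image_univ] at hj
    exact hj.not_ge this
  obtain ⟨c, c0, c1⟩ := exists_between p0
  obtain ⟨L0, l0, l1⟩ := B87.cap hn c1
  obtain ⟨L, -, l2, l3, l4⟩ := B87.minimal hn hw l0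
  have le : ∀ n k, B87.N ω d (L ∩ B87.cell d n k) ≤ v n := fun n k =>
    B87.N_cell.trans (hw.val n k).le
  have fin : ∀ n k, B87.N ω d (L ∩ B87.cell d n k) ≠ ∞ := fun n k =>
    ne_top_of_le_ne_top ENNReal.coe_ne_top (le n k)
  refine ⟨χ '' L, l2.image hχ, haus_pos_of_flow ((l2.image hχ).image hφ).isClosed f j
    (ν := fun n k => (B87.N ω d (L ∩ B87.cell d n k)).toReal)
    ⟨fun _ _ => ENNReal.toReal_nonneg, fun n k => by
      rw [l4 n k, ENNReal.toReal_add (fin _ _) (fin _ _)]⟩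
    (ENNReal.toReal_pos ?_ (fin _ _)) (fun n k => ENNReal.toReal_le_coe_of_le_coe (le n k))
    fun n k _ hp => ?_⟩
  · rw [show L ∩ B87.cell d 0 0 = L from inter_eq_left.mpr fun z _ => hn.zero z]
    exact (c0.trans_le (l1.trans l3)).ne'
  · obtain ⟨z, z1, z2⟩ : (L ∩ B87.cell d n k).Nonempty := by
      by_contra hc
      simp [not_nonempty_iff_eq_empty.mp hc, B87.N_empty] at hp
    refine ⟨φ (χ z), ?_, χ z, mem_image_of_mem _ z1, rfl⟩
    have z2 : ⌊2 ^ n * (φ (χ z) - j)⌋₊ = k := z2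
    have a := Nat.floor_le (mul_nonneg (by positivity : (0 : ℝ) ≤ 2 ^ n)
      (sub_nonneg.2 (hz z).2.1.le))
    have b := Nat.lt_floor_add_one (2 ^ n * (φ (χ z) - j))
    rw [z2] at a b
    have p : (0 : ℝ) < 2 ^ n := by positivity
    constructor
    · rw [← le_sub_iff_add_le', div_le_iff₀ p]; linarith
    · rw [← sub_le_iff_le_add', le_div_iff₀ p]; linarith

end Pool.Agent.Lib.S13
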