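import Mathlib
import Pool.Agent.Lib.MP_409048_lc.Null

set_option autoImplicit false

namespace Pool.Agent.Lib.S13

open Finset Filter Pool.Agent.Lib.MP_409048_lc

/-- A family of large sets of tags which split at the coordinates `2τ` and `2τ+1`. -/
def Fn (sm : Set (ℕ → ℕ) → Prop) (Z : Set (ℕ → ℕ)) (τ : ℕ) {ρ : Type}
    (Y : ρ → Set (ℕ → ℕ)) : Prop :=
  (∀ r, ¬ sm (Y r) ∧ Y r ⊆ Z) ∧ ∀ r r', ∀ a ∈ Y r, ∀ a' ∈ Y r', (∀ κ < 2 * τ, a κ = a' κ) ∧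
    (r = r' → a (2 * τ) = a' (2 * τ)) ∧
    (r ≠ r' → a (2 * τ) ≠ a' (2 * τ) ∧ a (2 * τ + 1) ≠ a' (2 * τ + 1))

/-- A sigma-ideal of sets of tags with the fan property. -/
structure Idl where
  sm : Set (ℕ → ℕ) → Prop
  mono : ∀ {X Y : Set (ℕ → ℕ)}, sm Y → X ⊆ Y → sm X
  un : ∀ {ι : Type} [Countable ι] {X : ι → Set (ℕ → ℕ)}, (∀ i, sm (X i)) → sm (⋃ i, X i)
  many : ∀ {V : Ultrafilter ℕ}, (V : Filter ℕ) ≤ atTop → ∀ {X : Set (ℕ → ℕ)}, ¬ sm X →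
    ∀ {Good : ℕ → Set (ℕ → ℕ)}, (∀ a ∈ X, ∀ᶠ τ in V, a ∈ Good τ) →
    ∀ᶠ τ in V, ∃ Y : Fin (2 ^ hh (2 * τ)) → Set (ℕ → ℕ), Fn sm (X ∩ Good τ) τ Y

namespace Idl

variable {I : Idl}

lemma empty : I.sm ∅ := by
  simpa using I.un (ι := Empty) (X := fun _ => ∅) fun i => i.elim

lemma ne {X : Set (ℕ → ℕ)} (h : ¬ I.sm X) : X.Nonempty :=
  Set.nonempty_iff_ne_empty.mpr fun e => h (e ▸ empty)

lemma pig {C : Type} [Countable C] {X : Set (ℕ → ℕ)} (hX : ¬ I.sm X)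
    {p : (ℕ → ℕ) → C → Prop} (h : ∀ a ∈ X, ∃ c, p a c) : ∃ c, ¬ I.sm {a | a ∈ X ∧ p a c} := by
  by_contra hc
  push Not at hc
  exact hX (I.mono (I.un hc) fun a ha => Set.mem_iUnion.mpr ((h a ha).imp fun _ e => ⟨ha, e⟩))

lemma diff {X Y : Set (ℕ → ℕ)} (hX : ¬ I.sm X) (hY : I.sm Y) : ¬ I.sm (X \ Y) := by
  intro h
  refine hX (I.mono (I.un (ι := Bool) (X := fun b => if b then X \ Y else Y) fun b => ?_)
    fun a ha => ?_)
  · cases b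
    exacts [hY, h]
  · by_cases e : a ∈ Y
    exacts [Set.mem_iUnion.mpr ⟨false, e⟩, Set.mem_iUnion.mpr ⟨true, ha, e⟩]

end Idl

/-- The slalom ideal. -/
def nullI : Idl where
  sm := Null
  mono := Null.mono
  un := null_iUnion
  many := fun hV _ hX _ h => many hV hX h

/-- The binary sequence carried by a tag. -/
def bb (a : ℕ → ℕ) (k : ℕ) : Bool := decide (a (4 * k + 1) % 2 = 1)

/-- A column of a binary sequence. -/
def col (b : ℕ → Bool) (l m : ℕ) : Bool := b (Nat.pair l m)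

/-- Small sets for the product ideal. -/
def PS (X : Set (ℕ → ℕ)) : Prop :=
  ∃ β : ℕ → ℕ → Bool, ∀ b, (∀ n, ∃ l, col b l = β n) → Null {a | a ∈ X ∧ bb a = b}

lemma PS.mono {X Y : Set (ℕ → ℕ)} (h : PS Y) (h' : X ⊆ Y) : PS X :=
  h.imp fun _ e b hb => (e b hb).mono fun _ ha => ⟨h' ha.1, ha.2⟩

lemma ps_un {ι : Type} [Countable ι] {X : ι → Set (ℕ → ℕ)} (h : ∀ i, PS (X i)) :
    PS (⋃ i, X i) := by
  rcases isEmpty_or_nonempty ι with h0 | h0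
  · exact ⟨fun _ _ => false, fun b _ => null_empty.mono fun a ha => by simpa using ha.1⟩
  · obtain ⟨e, he⟩ := exists_surjective_nat ι
    choose β hβ using h
    refine ⟨fun n => β (e (Nat.unpair n).1) (Nat.unpair n).2, fun b hb =>
      (null_iUnion fun i => hβ i b fun n => ?_).mono fun a ha => ?_⟩
    · obtain ⟨k, rfl⟩ := he i
      simpa using hb (Nat.pair k n)
    · obtain ⟨i, hi⟩ := Set.mem_iUnion.mp ha.1
      exact Set.mem_iUnion.mpr ⟨i, hi, ha.2⟩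

theorem ps_many {V : Ultrafilter ℕ} (hV : (V : Filter ℕ) ≤ atTop) {X : Set (ℕ → ℕ)}
    (hX : ¬ PS X) {Good : ℕ → Set (ℕ → ℕ)} (h : ∀ a ∈ X, ∀ᶠ τ in V, a ∈ Good τ) :
    ∀ᶠ τ in V, ∃ Y : Fin (2 ^ hh (2 * τ)) → Set (ℕ → ℕ), Fn PS (X ∩ Good τ) τ Y := by
  classical
  let ι : Type := Σ τ : ℕ, (Fin (2 * τ) → ℕ) × (Fin (2 ^ hh (2 * τ)) → ℕ × ℕ) ×
    Fin (2 ^ hh (2 * τ))
  let Y : ι → Set (ℕ → ℕ) := fun i => {a | a ∈ X ∩ Good i.1 ∧ (∀ κ, a κ.1 = i.2.1 κ) ∧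
    a (2 * i.1) = (i.2.2.1 i.2.2.2).1 ∧ a (2 * i.1 + 1) = (i.2.2.1 i.2.2.2).2}
  obtain ⟨β, hβ⟩ := ps_un (X := fun i : {i : ι // PS (Y i)} => Y i.1) fun i => i.2
  obtain ⟨b, hb1, hb2⟩ : ∃ b, (∀ n, ∃ l, col b l = β n) ∧ ¬ Null {a | a ∈ X ∧ bb a = b} := by
    by_contra hc
    push Not at hc
    exact hX ⟨β, hc⟩
  filter_upwards [many hV hb2 (Good := Good) fun a ha => h a ha.1] with τ ⟨U, u1, u2⟩
  choose x hx using fun r => pigeon (C := ℕ) (u1 r).1 (p := fun a x => a (2 * τ + 1) = x)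
    fun a _ => ⟨_, rfl⟩
  choose t ht1 ht2 using fun r => nonempty_of_not_null (hx r)
  have r0 : Fin (2 ^ hh (2 * τ)) := ⟨0, by positivity⟩
  refine ⟨fun r => Y ⟨τ, fun κ => t r0 κ.1, fun r => (t r (2 * τ), x r), r⟩,
    fun r => ⟨fun e => hx r ((hβ b hb1).mono fun a ha => ?_), fun a ha => ha.1⟩,
    fun r r' a ha a' ha' => ⟨fun κ hκ => (ha.2.1 ⟨κ, hκ⟩).trans (ha'.2.1 ⟨κ, hκ⟩).symm, ?_,
      fun e => ?_⟩⟩
  · have e1 := (u1 r).2 ha.1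
    exact ⟨Set.mem_iUnion.mpr ⟨⟨_, e⟩, ⟨e1.1.1, e1.2⟩,
      fun κ => (u2 r r0 a ha.1 _ (ht1 r0)).1 κ.1 κ.2, (u2 r r a ha.1 _ (ht1 r)).2.1 rfl, ha.2⟩,
      e1.1.2⟩
  · rintro rfl
    exact ha.2.2.1.trans ha'.2.2.1.symm
  · have := (u2 r r' _ (ht1 r) _ (ht1 r')).2.2 e
    rw [ht2, ht2] at this
    exact ⟨fun f => this.1 (ha.2.2.1.symm.trans (f.trans ha'.2.2.1)),
      fun f => this.2 (ha.2.2.2.symm.trans (f.trans ha'.2.2.2))⟩

/-- The product ideal. -/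
def prodI : Idl where
  sm := PS
  mono := PS.mono
  un := ps_un
  many := fun hV _ hX _ h => ps_many hV hX h

theorem not_null_fib (b : ℕ → Bool) : ¬ Null {a | a ∈ Tags ∧ bb a = b} := by
  rintro ⟨Φ, h1, h2, h3⟩
  have step : ∀ κ (a : ℕ → ℕ), ∃ v < 2 ^ gam κ, (v % 2 = 1 ↔ b (κ / 4) = true) ∧
      ∀ n < κ, v ∉ Φ n κ a := by
    intro κ a
    obtain ⟨ε, e1, e2⟩ : ∃ ε < 2, (ε = 1 ↔ b (κ / 4) = true) := by
      cases b (κ / 4)
      exacts [⟨0, by simp⟩, ⟨1, by simp⟩]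
    have : ((range κ).biUnion fun n => Φ n κ a).card <
        ((range (2 ^ (hh κ + κ))).image fun u => 2 * u + ε).card := by
      refine (card_biUnion_le_card_mul _ _ _ fun n _ => h1 n κ a).trans_lt ?_
      rw [card_image_of_injective _ fun u u' e => by simpa using e, card_range, card_range,
        pow_add, mul_comm]
      exact Nat.mul_lt_mul_of_pos_left Nat.lt_two_pow_self (by positivity)
    obtain ⟨v, hv, hv'⟩ := exists_mem_notMem_of_card_lt_card this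
    obtain ⟨u, hu, rfl⟩ := mem_image.mp hv
    have hu := mem_range.mp hu
    refine ⟨_, ?_, by rw [← e2]; omega, fun n hn e =>
      hv' (mem_biUnion.mpr ⟨n, mem_range.mpr hn, e⟩)⟩
    rw [gam, pow_succ]
    omega
  choose F hF1 hF3 hF2 using step
  obtain ⟨s, s1⟩ : ∃ s : ℕ → ℕ → ℕ, ∀ n, s (n + 1) = Function.update (s n) n (F n (s n)) :=
    ⟨fun n => Nat.rec (fun _ => 0) (fun n x => Function.update x n (F n x)) n, fun _ => rfl⟩
  have i2 : ∀ n κ, κ < n → s n κ = F κ (s κ) := by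
    intro n κ h
    induction n, h using Nat.le_induction with
    | base => rw [s1, Function.update_self]
    | succ n h ih => rw [s1, Function.update_of_ne (by omega), ih]
  obtain ⟨n, hn⟩ := h3 (fun κ => F κ (s κ)) ⟨fun κ => hF1 _ _, funext fun k => by
    have := hF3 (4 * k + 1) (s (4 * k + 1))
    rw [show (4 * k + 1) / 4 = k by omega] at this
    simp only [bb, this, Bool.decide_eq_true]⟩
  obtain ⟨κ, e1, e2⟩ := hn (n + 1)
  rw [h2 n κ _ (s κ) fun κ' e => (i2 κ κ' e).symm] at e2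
  exact hF2 κ _ n e1 e2

theorem not_ps_Tags : ¬ PS Tags := by
  rintro ⟨β, h⟩
  exact not_null_fib _ (h (fun m => β (Nat.unpair m).1 (Nat.unpair m).2) fun n =>
    ⟨n, funext fun m => by simp [col]⟩)

lemma fib_of_not_ps {X : Set (ℕ → ℕ)} (h : ¬ PS X) (β : ℕ → Bool) :
    ∃ b, (∃ l, col b l = β) ∧ ¬ Null {a | a ∈ X ∧ bb a = b} := by
  by_contra hc
  push Not at hc
  exact h ⟨fun _ => β, fun b hb => (hb 0).elim fun l e => hc b ⟨l, e⟩⟩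

end Pool.Agent.Lib.S13
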