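import Mathlib
import Pool.Agent.Lib.MP_409048_lc.Layout

set_option autoImplicit false

namespace Pool.Agent.Lib.S13

open Finset Pool.Agent.Lib.MP_409048_lc

/-- Homogeneous subtree along a path of states. -/
theorem pos_path {len : ℕ → ℕ} {Q : Type} {S : Scheme len Q} (hl : ∀ j, 0 < len j) {g : ℕ → ℝ}
    {M : ℝ} (hM : 0 < M) (q : ℕ → Q) (h0 : q 0 = S.q0) (hq : ∀ j, q (j + 1) ∈ S.opts j (q j))
    (hd : Dom len (fun j => ∑ i ∈ range j, S.hb i (q i)) g M) :
    Pos (fun m n => ∀ j, Lv len j = m → S.st j n = some (q j)) g := by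
  classical
  have hidx : ∀ j, ∃ i, i < 2 ^ (len j - S.hb j (q j)) ∧
      (S.opts j (q j)).toList[i]? = some (q (j + 1)) := by
    intro j
    obtain ⟨i, hi, hi'⟩ := List.getElem_of_mem (mem_toList.mpr (hq j))
    refine ⟨i, ?_, by rw [List.getElem?_eq_getElem hi, hi']⟩
    rw [length_toList] at hi
    exact (hi.trans_le (S.hcard _ _)).trans_le
      (Nat.pow_le_pow_right (by norm_num) (by have := S.hlen j (q j); omega))
  choose idx hidx hidx' using hidx
  obtain ⟨ok, ok0, ok_succ⟩ : ∃ ok : ℕ → ℕ → Prop, (∀ n, ok 0 n ↔ n = 0) ∧ ∀ j n, ok (j + 1) n ↔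
      ok j (n / 2 ^ len j) ∧ n % 2 ^ (len j - S.hb j (q j)) = idx j :=
    ⟨fun j => Nat.rec (fun n => n = 0)
      (fun j o n => o (n / 2 ^ len j) ∧ n % 2 ^ (len j - S.hb j (q j)) = idx j) j,
      fun _ => Iff.rfl, fun _ _ => Iff.rfl⟩
  have hok : ∀ j n, ok j n → S.st j n = some (q j) := by
    intro j
    induction j with
    | zero =>
      intro n hn
      have hn' : n = 0 := (ok0 n).mp hn
      simp only [Scheme.st]; rw [if_pos hn', h0]
    | succ j ih =>
      intro n hn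
      rw [ok_succ] at hn
      rw [Scheme.st, ih _ hn.1, Option.bind_some, hn.2, hidx']
  set ψ : ℕ → ℕ := fun j => ∑ i ∈ range j, S.hb i (q i) with hψ
  have ψs : ∀ j, ψ (j + 1) = ψ j + S.hb j (q j) := fun j => sum_range_succ _ _
  let a : ℕ → ℕ → ℝ := fun j n => if ok j n then 2⁻¹ ^ ψ j else 0
  have a0 : ∀ j n, 0 ≤ a j n := fun j n => by
    simp only [a]; split_ifs; exacts [(hp_pos _).le, le_rfl]
  obtain ⟨ν, h1, h2⟩ := exists_flow_of_levels (Lv len) (Lv_strictMono hl) a a0 (by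
    intro j n
    rw [Lv_succ, Nat.add_sub_cancel_left]
    by_cases h : ok j n
    · rw [ms_congr (μ' := fun n' => 2⁻¹ ^ ψ (j + 1) *
        if n' % 2 ^ (len j - S.hb j (q j)) = idx j then (1 : ℝ) else 0), ms_mul]
      · have e : len j = (len j - S.hb j (q j)) + S.hb j (q j) := by
          have := S.hlen j (q j); omega
        have e2 := ms_mod_add (hidx j) (S.hb j (q j)) n
        rw [← e] at e2
        rw [e2, ψs, pow_add, mul_assoc, hp_mul, mul_one]
        simp only [a, if_pos h]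
      · intro n' hn'
        simp only [a, ok_succ, hn', h, true_and]
        split_ifs <;> simp
    · rw [ms_congr (μ' := fun _ => 0)]
      · simp [a, h, ms]
      · intro n' hn'
        simp only [a, ok_succ, hn', h, false_and, if_false])
  refine Pos.of_smul hM h1 ?_ (fun m n => ?_) (fun m n hp j hj => ?_)
  · rw [h2 0 0 0 le_rfl]
    have : ok 0 0 := (ok0 0).mpr rfl
    simp [a, this]
  · obtain ⟨j, hj1, hj2⟩ := exists_block hl m
    rw [h2 (j + 1) m n hj2.le]
    have e1 : ms (a (j + 1)) (Lv len (j + 1) - m) n ≤ 2⁻¹ ^ ψ (j + 1) *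
        ms (fun n' => if n' % 2 ^ (len j - S.hb j (q j)) = idx j then (1 : ℝ) else 0)
          (Lv len (j + 1) - m) n := by
      rw [← ms_mul]
      apply ms_mono
      intro n'
      simp only [a, ok_succ]
      by_cases h : n' % 2 ^ (len j - S.hb j (q j)) = idx j
      · simp only [h, and_true, if_true, mul_one]
        split_ifs; exacts [le_rfl, (hp_pos _).le]
      · simp [h]
    refine e1.trans ?_
    have hl2 := S.hlen j (q j)
    have hL := Lv_succ len j
    rcases le_total (Lv len (j + 1) - m) (len j - S.hb j (q j)) with h | h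
    · have e2 := hd (j + 1) m
      rw [Nat.sub_eq_zero_of_le hj2.le, add_zero] at e2
      refine le_trans ?_ e2
      exact mul_le_of_le_one_right (hp_pos _).le (ms_mod_le (hidx j) h n)
    · obtain ⟨t, ht⟩ := Nat.exists_eq_add_of_le h
      rw [ht, ms_mod_add (hidx j)]
      refine le_trans (le_of_eq ?_) (hd j m)
      have : ψ (j + 1) = ψ j + (m - Lv len j) + t := by rw [ψs]; omega
      rw [this, pow_add, mul_assoc, hp_mul, mul_one]
  · rw [h2 j m n hj.ge, hj, Nat.sub_self, ms_zero] at hp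
    have : ok j n := by
      by_contra hc
      simp [a, hc] at hp
    exact hok j n this

/-- Length of a block. -/
noncomputable def ln (b : ℕ) : ℕ :=
  bet (stg (b / 2)) + if b % 2 = 0 then 0 else 5 * gam (stg (b / 2))

lemma ln_pos (b : ℕ) : 0 < ln b := by unfold ln bet; omega

/-- Level of the middle of a test. -/
noncomputable def md (k : ℕ) : ℕ := Lv ln (2 * k + 1)

lemma md_mono : Monotone md := fun _ _ h => (Lv_strictMono ln_pos).monotone (by omega)

/-- The last block of a stage. -/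
def lst (b : ℕ) : Prop := b % 2 = 1 ∧ stg (b / 2 + 1) = stg (b / 2) + 1

lemma stg_lst {b : ℕ} (h : lst b) : stg ((b + 1) / 2) = stg (b / 2) + 1 := by
  rw [← h.2]
  have := h.1
  congr 1
  omega

lemma stg_nlst {b : ℕ} (h : ¬ lst b) : stg ((b + 1) / 2) = stg (b / 2) := by
  obtain ⟨k, rfl | rfl⟩ := Nat.even_or_odd' b
  · rw [show (2 * k + 1) / 2 = k by omega, show 2 * k / 2 = k by omega]
  · unfold lst at h
    rw [show (2 * k + 1) / 2 = k by omega] at h ⊢
    rw [show (2 * k + 1 + 1) / 2 = k + 1 by omega]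
    exact (stg_succ k).resolve_right fun e => h ⟨by omega, e⟩

lemma exists_lst (j : ℕ) : ∃ b, lst b ∧ stg (b / 2) = j := by
  have hex : ∃ k, j + 1 ≤ stg k := ⟨pos (j + 1) ∅ false, (stg_pos _ (empty_subset _)).ge⟩
  have e1 := Nat.find_spec hex
  have e0 : Nat.find hex ≠ 0 := fun e => by rw [e, stg_zero] at e1; omega
  obtain ⟨k, hk⟩ := Nat.exists_eq_succ_of_ne_zero e0
  have e2 := Nat.find_min hex (show k < Nat.find hex by omega)
  rw [hk] at e1
  refine ⟨2 * k + 1, ?_⟩
  unfold lst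
  rw [show (2 * k + 1) / 2 = k by omega]
  rcases stg_succ k with h | h <;> simp only [Nat.succ_eq_add_one] at e1 <;> omega

/-- A tree whose states are sequences chosen stage by stage. -/
structure Sys (V : Type) where
  v0 : V
  opt : ℕ → (ℕ → V) → Finset V
  ds : ℕ → (ℕ → V) → ℕ
  ex : ℕ → (ℕ → V) → ℕ
  hopt : ∀ j q, (opt j q).card ≤ 2 ^ (3 * gam j)
  hds : ∀ j q, ds j q ≤ 2 * gam j
  hex : ∀ k q, ex k q ≤ bet (stg k)

/-- Truncation. -/
def cut {V : Type} (v0 : V) (j : ℕ) (θ : ℕ → V) : ℕ → V := fun κ => if κ < j then θ κ else v0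

section
variable {V : Type} {v0 : V}

lemma cut_lt {j κ : ℕ} (h : κ < j) (θ : ℕ → V) : cut v0 j θ κ = θ κ := if_pos h

lemma cut_self (j : ℕ) (θ : ℕ → V) : cut v0 j θ j = v0 := if_neg (lt_irrefl j)

lemma cut_zero (θ : ℕ → V) : cut v0 0 θ = fun _ => v0 := funext fun _ => if_neg (Nat.not_lt_zero _)

lemma cut_congr {j : ℕ} {θ θ' : ℕ → V} (h : ∀ κ < j, θ κ = θ' κ) : cut v0 j θ = cut v0 j θ' := by
  funext κ
  unfold cut
  split_ifs with e
  exacts [h κ e, rfl]

lemma cut_cut {i j : ℕ} (h : i ≤ j) (θ : ℕ → V) : cut v0 i (cut v0 j θ) = cut v0 i θ :=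
  cut_congr fun _ e => cut_lt (e.trans_le h) θ

lemma cut_le {i j : ℕ} (h : i ≤ j) {θ θ' : ℕ → V} (e : cut v0 j θ = cut v0 j θ') :
    cut v0 i θ = cut v0 i θ' := by rw [← cut_cut h θ, e, cut_cut h]

lemma eq_of_cut {j κ : ℕ} (h : κ < j) {θ θ' : ℕ → V} (e : cut v0 j θ = cut v0 j θ') :
    θ κ = θ' κ := by rw [← cut_lt (v0 := v0) h θ, e, cut_lt h]

lemma cut_update {i j : ℕ} (h : i ≤ j) (θ : ℕ → V) (v : V) :
    cut v0 i (Function.update θ j v) = cut v0 i θ :=
  cut_congr fun κ e => Function.update_of_ne (by omega) _ _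

lemma cut_succ (j : ℕ) (θ : ℕ → V) :
    cut v0 (j + 1) θ = Function.update (cut v0 j θ) j (θ j) := by
  funext κ
  by_cases e : κ = j
  · subst e; rw [Function.update_self, cut_lt (Nat.lt_succ_self _)]
  · rw [Function.update_of_ne e]
    exact if_congr (by omega) rfl rfl

end

namespace Sys

variable {V : Type} (S : Sys V)

def sg (θ : ℕ → V) (j : ℕ) : ℕ := ∑ κ ∈ range j, S.ds κ (cut S.v0 κ θ)

/-- Number of free levels before block `b` along `θ`. -/
noncomputable def ps (θ : ℕ → V) (b : ℕ) : ℕ :=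
  BB (b / 2) + S.sg θ (stg (b / 2)) +
    if b % 2 = 1 then S.ex (b / 2) (cut S.v0 (stg (b / 2)) θ) else 0

open Classical in
noncomputable def hb (b : ℕ) (θ : ℕ → V) : ℕ :=
  (if b % 2 = 1 then bet (stg (b / 2)) - S.ex (b / 2) (cut S.v0 (stg (b / 2)) θ)
    else S.ex (b / 2) (cut S.v0 (stg (b / 2)) θ)) +
    if lst b then S.ds (stg (b / 2)) (cut S.v0 (stg (b / 2)) θ) else 0

variable {S}

lemma sg_congr {j : ℕ} {θ θ' : ℕ → V} (e : cut S.v0 j θ = cut S.v0 j θ') : S.sg θ j = S.sg θ' j :=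
  sum_congr rfl fun κ h => by rw [cut_le (mem_range.mp h).le e]

lemma ps_congr {b : ℕ} {θ θ' : ℕ → V}
    (e : cut S.v0 (stg (b / 2)) θ = cut S.v0 (stg (b / 2)) θ') : S.ps θ b = S.ps θ' b := by
  unfold ps; rw [e, sg_congr e]

lemma hb_congr {b : ℕ} {θ θ' : ℕ → V}
    (e : cut S.v0 (stg (b / 2)) θ = cut S.v0 (stg (b / 2)) θ') : S.hb b θ = S.hb b θ' := by
  unfold hb; rw [e]

lemma ps_succ {b : ℕ} {θ θ' : ℕ → V}
    (e : cut S.v0 (stg (b / 2)) θ' = cut S.v0 (stg (b / 2)) θ) :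
    S.ps θ' (b + 1) = S.ps θ b + S.hb b θ := by
  classical
  have e1 : S.sg θ' (stg ((b + 1) / 2)) = S.sg θ (stg (b / 2)) +
      if lst b then S.ds (stg (b / 2)) (cut S.v0 (stg (b / 2)) θ) else 0 := by
    split_ifs with h
    · rw [stg_lst h, ← sg_congr e, ← e]; exact sum_range_succ _ _
    · rw [stg_nlst h, sg_congr e, add_zero]
  unfold ps hb
  rw [e1]
  obtain ⟨k, rfl | rfl⟩ := Nat.even_or_odd' b
  · rw [show 2 * k / 2 = k by omega] at e
    rw [show (2 * k + 1) / 2 = k by omega, show 2 * k / 2 = k by omega, e,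
      if_pos (show (2 * k + 1) % 2 = 1 by omega), if_neg (show ¬ 2 * k % 2 = 1 by omega),
      if_neg (show ¬ 2 * k % 2 = 1 by omega)]
    ring
  · have := S.hex k (cut S.v0 (stg k) θ)
    rw [show (2 * k + 1 + 1) / 2 = k + 1 by omega, show (2 * k + 1) / 2 = k by omega, BB_succ,
      if_neg (show ¬ (2 * k + 1 + 1) % 2 = 1 by omega),
      if_pos (show (2 * k + 1) % 2 = 1 by omega), if_pos (show (2 * k + 1) % 2 = 1 by omega)]
    omega

lemma ps_eq_sum (θ : ℕ → V) (b : ℕ) :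
    ∑ i ∈ range b, S.hb i (cut S.v0 (stg (i / 2)) θ) = S.ps θ b := by
  induction b with
  | zero => simp [ps, BB, sg, stg_zero]
  | succ b ih => rw [sum_range_succ, ih, hb_congr (cut_cut le_rfl θ), ps_succ rfl]

variable (S) in
open Classical in
noncomputable def sch : Scheme ln (ℕ → V) where
  hb := S.hb
  cb := fun b => if lst b then 3 * gam (stg (b / 2)) else 0
  opts := fun b q => if lst b then
      (if q (stg (b / 2)) = S.v0 then (S.opt (stg (b / 2)) (cut S.v0 (stg (b / 2)) q)).image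
        (Function.update q (stg (b / 2))) else ∅)
    else {q}
  q0 := fun _ => S.v0
  hlen := fun b q => by
    have := S.hex (b / 2) (cut S.v0 (stg (b / 2)) q)
    have := S.hds (stg (b / 2)) (cut S.v0 (stg (b / 2)) q)
    unfold hb ln lst
    split_ifs <;> omega
  hcard := fun b q => by
    split_ifs
    · exact card_image_le.trans (S.hopt _ _)
    · simp
    · simp

variable (S) in
def Legal (θ : ℕ → V) : Prop := ∀ j, θ j ∈ S.opt j (cut S.v0 j θ)

variable (S) in
/-- The cells along `θ`. -/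
def ptree (θ : ℕ → V) (m n : ℕ) : Prop :=
  ∀ b, Lv ln b = m → S.sch.st b n = some (cut S.v0 (stg (b / 2)) θ)

lemma ptree_le {θ : ℕ → V} {m n : ℕ} (h : S.ptree θ m n) : S.sch.tree m n :=
  fun b hb => by rw [h b hb]; rfl

theorem pos_of_dom {θ : ℕ → V} (hθ : S.Legal θ) {g : ℕ → ℝ} {M : ℝ} (hM : 0 < M)
    (h : Dom ln (S.ps θ) g M) : Pos (S.ptree θ) g := by
  classical
  refine pos_path (S := S.sch) ln_pos hM (fun b => cut S.v0 (stg (b / 2)) θ) ?_ (fun b => ?_) ?_
  · simp only [Nat.zero_div, stg_zero, cut_zero]; rfl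
  · simp only [sch]
    split_ifs with h1 h2
    · rw [stg_lst h1, cut_succ, cut_cut le_rfl]
      exact mem_image_of_mem _ (hθ _)
    · exact absurd (cut_self _ _) h2
    · rw [stg_nlst h1]; exact mem_singleton_self _
  · have : (fun j => ∑ i ∈ range j, S.sch.hb i (cut S.v0 (stg (i / 2)) θ)) = S.ps θ :=
      funext (ps_eq_sum θ)
    rw [this]
    exact h

lemma legal_of_st {b n : ℕ} {q : ℕ → V} (h : S.sch.st b n = some q) :
    ∀ κ < stg (b / 2), q κ ∈ S.opt κ (cut S.v0 κ q) := by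
  classical
  induction b generalizing n q with
  | zero => intro κ hκ; simp [stg_zero] at hκ
  | succ b ih =>
    obtain ⟨q1, e1, e2, -⟩ := Scheme.st_succ h
    simp only [sch] at e2
    split_ifs at e2 with h1 h2
    · obtain ⟨v, hv, rfl⟩ := mem_image.mp e2
      intro κ hκ
      rw [stg_lst h1] at hκ
      rw [cut_update (by omega)]
      rcases Nat.lt_succ_iff_lt_or_eq.mp hκ with e | rfl
      · rw [Function.update_of_ne e.ne]; exact ih e1 κ e
      · rwa [Function.update_self]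
    · simp at e2
    · rw [mem_singleton.mp e2, stg_nlst h1]; exact ih e1

/-- Weights of the states. -/
structure Wt (S : Sys V) (ν : ℕ → ℕ → ℝ) (g : ℕ → ℝ) (W : ℕ → (ℕ → V) → ℝ) : Prop where
  nn : ∀ j θ, 0 ≤ W j θ
  root : ∀ θ, 0 < W 0 θ
  congr : ∀ j θ θ', cut S.v0 j θ = cut S.v0 j θ' → W j θ = W j θ'
  sum : ∀ j θ, W j θ = ∑ v ∈ S.opt j (cut S.v0 j θ), W (j + 1) (Function.update θ j v)
  le : ∀ θ b m, W (stg (b / 2)) θ * 2⁻¹ ^ (S.ps θ b + (m - Lv ln b)) ≤ g m
  supp : ∀ θ b, 0 < W (stg (b / 2)) θ →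
    ∃ n < 2 ^ Lv ln b, 0 < ν (Lv ln b) n ∧ S.sch.st b n = some (cut S.v0 (stg (b / 2)) θ)

theorem exists_wt {ν : ℕ → ℕ → ℝ} {g : ℕ → ℝ} (h1 : IsFlow ν) (h2 : 0 < ν 0 0)
    (h3 : ∀ m n, ν m n ≤ g m) (h4 : ∀ m n, 0 < ν m n → S.sch.tree m n) : ∃ W, S.Wt ν g W := by
  classical
  let par : ℕ → (ℕ → V) → ℕ → V := fun b q =>
    if lst b then Function.update q (stg (b / 2)) S.v0 else q
  have hpar : ∀ b q q', q' ∈ S.sch.opts b q → par b q' = q := by
    intro b q q' hq
    simp only [sch] at hq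
    simp only [par]
    split_ifs at hq ⊢ with e1 e2
    · obtain ⟨v, -, rfl⟩ := mem_image.mp hq
      rw [Function.update_idem, ← e2, Function.update_eq_self]
    · simp at hq
    · exact mem_singleton.mp hq
  set w : ℕ → (ℕ → V) → ℝ := fun b a => S.sch.wt ν b (cut S.v0 (stg (b / 2)) a) with hw
  have w1 : ∀ b a, ¬ lst b → w b a = w (b + 1) a := by
    intro b a hb
    simp only [hw]
    rw [Scheme.wt_succ h1 h4 par hpar, stg_nlst hb]
    simp only [sch, if_neg hb, sum_singleton]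
  have w2 : ∀ b a, lst b → w b a = ∑ v ∈ S.opt (stg (b / 2)) (cut S.v0 (stg (b / 2)) a),
      w (b + 1) (Function.update a (stg (b / 2)) v) := by
    intro b a hb
    simp only [hw]
    rw [Scheme.wt_succ h1 h4 par hpar]
    have : S.sch.opts b (cut S.v0 (stg (b / 2)) a) =
        (S.opt (stg (b / 2)) (cut S.v0 (stg (b / 2)) a)).image
        (Function.update (cut S.v0 (stg (b / 2)) a) (stg (b / 2))) := by
      simp only [sch, if_pos hb, cut_self, if_true, cut_cut le_rfl]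
    rw [this, sum_image fun v _ v' _ e => Function.update_injective _ _ e]
    apply sum_congr rfl
    intro v _
    rw [stg_lst hb, cut_succ, Function.update_self, cut_update le_rfl]
  have w3 : ∀ b b' a, b ≤ b' → stg (b / 2) = stg (b' / 2) → w b a = w b' a := by
    intro b b' a hb
    induction b', hb using Nat.le_induction with
    | base => exact fun _ => rfl
    | succ b' hb ih =>
      intro e
      have e1 : stg (b / 2) ≤ stg (b' / 2) := stg_mono (by omega)
      have e2 : stg (b' / 2) ≤ stg ((b' + 1) / 2) := stg_mono (by omega)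
      rw [ih (by omega), w1 b' a fun h => by have := stg_lst h; omega]
  have w4 : ∀ b b' a, stg (b / 2) = stg (b' / 2) → w b a = w b' a := fun b b' a e =>
    (le_total b b').elim (fun h => w3 b b' a h e) fun h => (w3 b' b a h e.symm).symm
  have p1 : ∀ j, stg (2 * pos j ∅ false / 2) = j := fun j => by
    rw [Nat.mul_div_cancel_left _ (by norm_num), stg_pos _ (empty_subset _)]
  refine ⟨fun j a => w (2 * pos j ∅ false) a, fun j a => Scheme.wt_nonneg h1 _ _, fun a => ?_,
    fun j a a' e => ?_, fun j a => ?_, fun a b m => ?_, fun a b hp => ?_⟩ <;> beta_reduce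
  · rw [w4 _ 0 a (by rw [p1]; exact stg_zero.symm)]
    simp only [hw, Nat.zero_div, stg_zero, cut_zero]
    exact h2.trans_eq (Scheme.wt_zero (S := S.sch) ν).symm
  · simp only [hw, p1, e]
  · obtain ⟨b, e1, e2⟩ := exists_lst j
    rw [w4 _ b a (by rw [p1, e2]), w2 b a e1, e2]
    exact sum_congr rfl fun v _ => w4 _ _ _ (by rw [p1, stg_lst e1, e2])
  · rw [w4 _ b a (p1 _), ← ps_congr (cut_cut le_rfl a)]
    refine Scheme.wt_le h1 h3 par hpar (fun b q => S.ps q b) (fun b q q' hq => ?_) b _ m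
    refine (ps_succ ?_).ge
    rw [← hpar b q q' hq]
    simp only [par]
    split_ifs
    · rw [cut_update le_rfl]
    · rfl
  · rw [w4 _ b a (p1 _)] at hp
    obtain ⟨n, e1, e2⟩ := exists_of_ms_pos hp
    split_ifs at e2 with e3
    · exact ⟨n, (Nat.div_eq_zero_iff_lt (by positivity)).mp e1, e2, e3⟩
    · exact absurd e2 (lt_irrefl _)

variable {ν : ℕ → ℕ → ℝ} {g : ℕ → ℝ} {W : ℕ → (ℕ → V) → ℝ}

lemma Wt.legal (h : S.Wt ν g W) {j : ℕ} {θ : ℕ → V} (hp : 0 < W j θ) :
    ∀ κ < j, θ κ ∈ S.opt κ (cut S.v0 κ θ) := by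
  obtain ⟨b, -, rfl⟩ := exists_lst j
  obtain ⟨n, -, -, e⟩ := h.supp θ b hp
  intro κ hκ
  have := legal_of_st e κ hκ
  rwa [cut_lt hκ, cut_cut hκ.le] at this

lemma Wt.anti (h : S.Wt ν g W) {θ : ℕ → V} (hθ : S.Legal θ) : Antitone fun j => W j θ := by
  apply antitone_nat_of_succ_le
  intro j
  rw [h.sum j θ]
  have := single_le_sum (f := fun v => W (j + 1) (Function.update θ j v)) (fun _ _ => h.nn _ _)
    (hθ j)
  simpa using this

/-- A heavy thread through a state of positive weight. -/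
theorem Wt.greedy (h : S.Wt ν g W) (c : ℕ → (ℕ → V) → ℕ)
    (hc : ∀ j θ, 0 < W j θ → ∃ T : Finset V, T.card ≤ 2 ^ c j (cut S.v0 j θ) ∧
      ∀ v ∈ S.opt j (cut S.v0 j θ), 0 < W (j + 1) (Function.update θ j v) → v ∈ T)
    {j0 : ℕ} {θ0 : ℕ → V} (h0 : 0 < W j0 θ0) :
    ∃ θ, S.Legal θ ∧ cut S.v0 j0 θ = cut S.v0 j0 θ0 ∧
      ∀ j, W j0 θ0 * 2⁻¹ ^ (∑ κ ∈ range j, c κ (cut S.v0 κ θ)) ≤ W j θ := by
  classical
  have step : ∀ j (a : ℕ → V), ∃ v, 0 < W j a →
      W j a * 2⁻¹ ^ c j (cut S.v0 j a) ≤ W (j + 1) (Function.update a j v) := by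
    intro j a
    by_cases hp : 0 < W j a
    · obtain ⟨T, t1, t2⟩ := hc j a hp
      have e1 : W j a ≤ ∑ v ∈ T, W (j + 1) (Function.update a j v) := by
        rw [h.sum j a, ← sum_filter_ne_zero]
        exact sum_le_sum_of_subset_of_nonneg (fun v hv => t2 v (mem_filter.mp hv).1
          (lt_of_le_of_ne (h.nn _ _) (mem_filter.mp hv).2.symm)) fun _ _ _ => h.nn _ _
      obtain ⟨v, -, hv⟩ := exists_ge_avg T _ (K := 2 ^ c j (cut S.v0 j a))
        (by exact_mod_cast t1) hp e1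
      refine ⟨v, fun _ => ?_⟩
      calc _ ≤ 2 ^ c j (cut S.v0 j a) * W (j + 1) (Function.update a j v) *
            2⁻¹ ^ c j (cut S.v0 j a) := by gcongr
        _ = _ := by rw [mul_right_comm, mul_comm ((2 : ℝ) ^ _), hp_mul, one_mul]
    · exact ⟨S.v0, fun e => absurd e hp⟩
  choose F hF using step
  obtain ⟨s, s0, s1⟩ : ∃ s : ℕ → ℕ → V, s 0 = θ0 ∧
      ∀ n, s (n + 1) = Function.update (s n) (j0 + n) (F (j0 + n) (s n)) :=
    ⟨fun n => Nat.rec θ0 (fun n x => Function.update x (j0 + n) (F (j0 + n) x)) n, rfl,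
      fun _ => rfl⟩
  have i2 : ∀ n n' κ, n ≤ n' → κ < j0 + n → s n' κ = s n κ := by
    intro n n' κ h hκ
    induction n', h using Nat.le_induction with
    | base => rfl
    | succ n' h ih => rw [s1, Function.update_of_ne (by omega), ih]
  have i3 : ∀ n, cut S.v0 (j0 + n) (fun κ => s (κ + 1) κ) = cut S.v0 (j0 + n) (s n) :=
    fun n => cut_congr fun κ h =>
      (le_total n (κ + 1)).elim (fun e => i2 _ _ κ e h) fun e => (i2 _ _ κ e (by omega)).symm
  set θ : ℕ → V := fun κ => s (κ + 1) κ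
  have i4 : ∀ n, W j0 θ0 * 2⁻¹ ^ (∑ κ ∈ range (j0 + n), c κ (cut S.v0 κ θ)) ≤ W (j0 + n) θ := by
    intro n
    induction n with
    | zero =>
      rw [h.congr _ _ _ (i3 0), s0]
      exact mul_le_of_le_one_right h0.le (pow_le_one₀ (by norm_num) (by norm_num))
    | succ n ih =>
      rw [h.congr _ _ _ (i3 n)] at ih
      rw [h.congr _ _ _ (i3 (n + 1)), s1, ← add_assoc, sum_range_succ, pow_add, ← mul_assoc, i3]
      refine le_trans ?_ (hF _ _ (lt_of_lt_of_le (by positivity) ih))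
      gcongr
  have hθ : S.Legal θ := fun j => h.legal (j := j0 + (j + 1))
    (lt_of_lt_of_le (by positivity) (i4 _)) j (by omega)
  refine ⟨θ, hθ, s0 ▸ i3 0, fun j => ?_⟩
  rcases le_total j0 j with e | e
  · obtain ⟨n, rfl⟩ := Nat.exists_eq_add_of_le e
    exact i4 n
  · refine le_trans ?_ (h.anti hθ e)
    beta_reduce
    rw [h.congr j0 θ θ0 (s0 ▸ i3 0)]
    exact mul_le_of_le_one_right h0.le (pow_le_one₀ (by norm_num) (by norm_num))

end Sys

end Pool.Agent.Lib.S13
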