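import Mathlib
import Pool.Agent.Lib.MP_409048_lc.State
import Pool.Agent.Lib.S13.Sys
import Pool.Agent.Lib.S13.Idl

set_option autoImplicit false

namespace Pool.Agent.Lib.S13

open Finset Filter MeasureTheory Topology Pool.Agent.Lib.MP_409048_lc

/-- The measures attached to the tags. -/
structure Cx where
  I : Idl
  μ : (ℕ → ℕ) → Measure Br
  fin : ∀ a, IsFiniteMeasure (μ a)
  tot : ∀ a, (μ a).real Set.univ ≤ 1
  lo : ∀ a k n, (μ a).real (cs (md k) n) ≤ 2⁻¹ ^ BB k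
  hi : ∀ a k n, ¬ Sat (tst k) a → (μ a).real (cs (md k) n) ≤ 2⁻¹ ^ (BB k + bet (stg k))

instance (c : Cx) (a : ℕ → ℕ) : IsFiniteMeasure (c.μ a) := c.fin a

structure Ok (c : Cx) (N : ℕ) (d : Node) : Prop where
  nn : ¬ c.I.sm d.X
  sub : d.X ⊆ Tags
  L0 : 0 ≤ d.L
  ω0 : ∀ n, 0 ≤ d.ω n
  le : ∀ a ∈ d.X, ∀ n, d.ω n ≤ d.L * (c.μ a).real (d.Ξ a ∩ cs N n)

lemma le_refl' (d : Node) : d.Le d := ⟨le_rfl, fun _ => le_rfl⟩

variable {c : Cx} {N : ℕ} {d : Node}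

lemma Ok.zero (h : Ok c N d) {n : ℕ} (hn : 2 ^ N ≤ n) : d.ω n = 0 := by
  obtain ⟨a, ha⟩ := Idl.ne h.nn
  have := h.le a ha n
  rw [cs_eq_empty hn] at this
  exact le_antisymm (by simpa using this) (h.ω0 n)

lemma Ok.shrink (h : Ok c N d) {X : Set (ℕ → ℕ)} (hX : X ⊆ d.X) (nn : ¬ c.I.sm X)
    (S : (ℕ → ℕ) → Set Br) (hS : ∀ a ∈ X, ∀ n, 0 < (c.μ a).real (d.Ξ a ∩ cs N n) →
      0 < (c.μ a).real (d.Ξ a ∩ S a ∩ cs N n)) :
    ∃ d' : Node, Ok c N d' ∧ d'.Le d ∧ d'.ω = d.ω ∧ d'.X ⊆ X ∧ ∀ a, d'.Ξ a ⊆ S a := by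
  obtain ⟨q, hq⟩ := Idl.pig (C := ℕ) nn (p := fun a q => ∀ n : Fin (2 ^ N),
      (c.μ a).real (d.Ξ a ∩ cs N n) ≤ q * (c.μ a).real (d.Ξ a ∩ S a ∩ cs N n))
    fun a ha => ratio_fin _ _ (fun _ => measureReal_nonneg) fun n => hS a ha n
  refine ⟨⟨_, fun a => d.Ξ a ∩ S a, d.ω, d.L * q⟩, ⟨hq, fun a ha => h.sub (hX ha.1),
    mul_nonneg h.L0 (by positivity), h.ω0, fun a ha n => ?_⟩,
    ⟨fun a ha => hX ha.1, fun a => Set.inter_subset_left⟩, rfl, fun a ha => ha.1,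
    fun a => Set.inter_subset_right⟩
  rcases Nat.lt_or_ge n (2 ^ N) with hn | hn
  · refine (h.le a (hX ha.1) n).trans ?_
    rw [mul_assoc]
    exact mul_le_mul_of_nonneg_left (ha.2 ⟨n, hn⟩) h.L0
  · change d.ω n ≤ _
    rw [h.zero hn]
    exact mul_nonneg (mul_nonneg h.L0 (by positivity)) measureReal_nonneg

lemma Ok.cover (h : Ok c N d) {X : Set (ℕ → ℕ)} (hX : X ⊆ d.X) (nn : ¬ c.I.sm X)
    (S : ℕ → (ℕ → ℕ) → Set Br) (hm : Monotone S)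
    (hS : ∀ a ∈ X, c.μ a (d.Ξ a \ ⋃ k, S k a) = 0) :
    ∃ k, ∃ d' : Node, Ok c N d' ∧ d'.Le d ∧ d'.ω = d.ω ∧ ∀ a, d'.Ξ a ⊆ S k a := by
  obtain ⟨k, hk⟩ := Idl.pig (C := ℕ) nn (p := fun a k => ∀ n, 0 < (c.μ a).real (d.Ξ a ∩ cs N n) →
      0 < (c.μ a).real (d.Ξ a ∩ S k a ∩ cs N n)) (by
    intro a ha
    have : ∀ n, ∃ k, 0 < (c.μ a).real (d.Ξ a ∩ cs N n) →
        0 < (c.μ a).real (d.Ξ a ∩ S k a ∩ cs N n) := by
      intro n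
      by_contra hc
      push Not at hc
      have h1 : c.μ a (⋃ k, d.Ξ a ∩ S k a ∩ cs N n) = 0 := measure_iUnion_null fun k =>
        (measureReal_eq_zero_iff (measure_ne_top _ _)).mp (le_antisymm (hc k).2 measureReal_nonneg)
      have h2 : c.μ a (d.Ξ a ∩ cs N n) = 0 := by
        refine measure_mono_null (fun ξ hξ => ?_) (measure_union_null h1 (hS a ha))
        by_cases e : ξ ∈ ⋃ k, S k a
        · obtain ⟨k, e⟩ := Set.mem_iUnion.mp e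
          exact Or.inl (Set.mem_iUnion.mpr ⟨k, ⟨hξ.1, e⟩, hξ.2⟩)
        · exact Or.inr ⟨hξ.1, e⟩
      have := (hc 0).1
      simp [Measure.real, h2] at this
    choose k hk using this
    refine ⟨∑ n ∈ range (2 ^ N), k n, fun n hn => (hk n hn).trans_le (measureReal_mono
      (Set.inter_subset_inter_left _ (Set.inter_subset_inter_right _ (hm ?_ a))))⟩
    refine single_le_sum (f := k) (fun _ _ => Nat.zero_le _) (mem_range.mpr ?_)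
    by_contra e
    simp [cs_eq_empty (not_lt.mp e)] at hn)
  obtain ⟨d', e1, e2, e3, -, e4⟩ := h.shrink (fun a ha => hX ha.1) hk (S k) fun a ha => ha.2
  exact ⟨k, d', e1, e2, e3, e4⟩

lemma Ok.refine (h : Ok c N d) (r : ℕ) :
    ∃ d' : Node, Ok c (N + r) d' ∧ d'.Le d ∧ d'.L = 2 * d.L ∧ ∀ n, ms d'.ω r n = d.ω n := by
  obtain ⟨q0, hq⟩ := Idl.pig (C := Fin (2 ^ (N + r)) → ℚ) h.nn
    (p := fun a x => ∀ n : Fin (2 ^ (N + r)), (c.μ a).real (d.Ξ a ∩ cs (N + r) n) ≤ 2 * x n ∧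
      x n ≤ (c.μ a).real (d.Ξ a ∩ cs (N + r) n)) (by
    intro a _
    have : ∀ t : ℝ, 0 ≤ t → ∃ x : ℚ, t ≤ 2 * x ∧ x ≤ t := by
      intro t ht
      rcases ht.eq_or_lt with e | e
      · exact ⟨0, by simp [← e]⟩
      · obtain ⟨x, e1, e2⟩ := exists_rat_btwn (show t / 2 < t by linarith)
        exact ⟨x, by linarith, e2.le⟩
    choose x hx using this
    exact ⟨fun n => x _ measureReal_nonneg, fun n => hx _ _⟩)
  set q : ℕ → ℝ := fun n => if e : n < 2 ^ (N + r) then q0 ⟨n, e⟩ else 0 with hqd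
  have h1 : ∀ a ∈ d.X, (∀ n : Fin (2 ^ (N + r)), (c.μ a).real (d.Ξ a ∩ cs (N + r) n) ≤ 2 * q0 n ∧
      q0 n ≤ (c.μ a).real (d.Ξ a ∩ cs (N + r) n)) → ∀ n,
      (c.μ a).real (d.Ξ a ∩ cs (N + r) n) ≤ 2 * q n ∧
        q n ≤ (c.μ a).real (d.Ξ a ∩ cs (N + r) n) := by
    intro a _ e n
    simp only [hqd]
    split_ifs with hn
    · exact e ⟨n, hn⟩
    · simp [cs_eq_empty (not_lt.mp hn)]
  obtain ⟨a0, ha0, ha1⟩ := Idl.ne hq
  have q0' : ∀ n, 0 ≤ q n := fun n => by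
    linarith [(h1 a0 ha0 ha1 n).1, measureReal_nonneg (μ := c.μ a0) (s := d.Ξ a0 ∩ cs (N + r) n)]
  have h2 : ∀ n, d.ω n ≤ 2 * d.L * ms q r n := by
    intro n
    refine (h.le a0 ha0 n).trans ?_
    rw [(isFlow_meas (c.μ a0) (d.Ξ a0)).eq_ms r, mul_comm 2, mul_assoc, ← ms_mul 2]
    exact mul_le_mul_of_nonneg_left (ms_mono (fun n' => (h1 a0 ha0 ha1 n').1) _ _) h.L0
  have L2 : 0 ≤ 2 * d.L := by linarith [h.L0]
  refine ⟨⟨_, d.Ξ, fun n => d.ω (n / 2 ^ r) / ms q r (n / 2 ^ r) * q n, 2 * d.L⟩,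
    ⟨hq, fun a ha => h.sub ha.1, L2, fun n => mul_nonneg (div_nonneg (h.ω0 _)
      (ms_nonneg q0' _ _)) (q0' n), fun a ha n => ?_⟩,
    ⟨fun a ha => ha.1, fun a => le_rfl⟩, rfl, fun n => ?_⟩
  · exact mul_le_mul (div_le_of_le_mul₀ (ms_nonneg q0' _ _) L2 (h2 _)) (h1 a ha.1 ha.2 n).2
      (q0' n) L2
  · rw [ms_congr (μ' := fun n' => d.ω n / ms q r n * q n') fun n' e => by simp only [e], ms_mul]
    rcases (ms_nonneg q0' r n).eq_or_lt with e | e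
    · have := h2 n
      rw [← e] at this ⊢
      linarith [h.ω0 n]
    · field_simp

/-- Two nodes differ at an always tested coordinate. -/
def Sep (d d' : Node) : Prop := ∃ κ, κ % 4 = 1 ∧ ∀ a ∈ d.X, ∀ a' ∈ d'.X, a κ ≠ a' κ

lemma Sep.mono {d d' e e' : Node} (h : Sep d d') (h1 : e.Le d) (h2 : e'.Le d') : Sep e e' :=
  h.imp fun _ t => ⟨t.1, fun a ha a' ha' => t.2 a (h1.1 ha) a' (h2.1 ha')⟩

/-- A finite stage of the construction of a measure. -/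
structure St (c : Cx) where
  ι : Type
  [fin : Fintype ι]
  nd : ι → Node
  N : ℕ
  ok : ∀ i, Ok c N (nd i)
  sep : ∀ i i', i ≠ i' → Sep (nd i) (nd i')

attribute [instance] St.fin

structure Spl (c : Cx) (N : ℕ) (d : Node) where
  ρ : Type
  [fin : Fintype ρ]
  ch : ρ → Node
  ok : ∀ r, Ok c N (ch r)
  le : ∀ r, (ch r).Le d
  sum : ∀ n, ∑ r, (ch r).ω n = d.ω n
  sep : ∀ r r', r ≠ r' → Sep (ch r) (ch r')

attribute [instance] Spl.fin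

namespace St

noncomputable def Ω (σ : St c) (n : ℕ) : ℝ := ∑ i, (σ.nd i).ω n

lemma Ω_nonneg (σ : St c) (n : ℕ) : 0 ≤ σ.Ω n := sum_nonneg fun i _ => (σ.ok i).ω0 n

def Le (σ' σ : St c) : Prop :=
  σ.N ≤ σ'.N ∧ (∀ n, ms σ'.Ω (σ'.N - σ.N) n = σ.Ω n) ∧ ∀ i', ∃ i, (σ'.nd i').Le (σ.nd i)

lemma Le.refl (σ : St c) : σ.Le σ :=
  ⟨le_rfl, fun n => by rw [Nat.sub_self, ms_zero], fun i => ⟨i, le_refl' _⟩⟩

lemma Le.trans {σ σ' σ'' : St c} (h : σ''.Le σ') (h' : σ'.Le σ) : σ''.Le σ := by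
  refine ⟨h'.1.trans h.1, fun n => ?_, fun i => ?_⟩
  · have := h.1
    have := h'.1
    rw [show σ''.N - σ.N = (σ''.N - σ'.N) + (σ'.N - σ.N) by omega, ms_add,
      show ms σ''.Ω (σ''.N - σ'.N) = σ'.Ω from funext h.2.1, h'.2.1]
  · obtain ⟨i', e⟩ := h.2.2 i
    obtain ⟨i'', e'⟩ := h'.2.2 i'
    exact ⟨i'', e.trans e'⟩

def modify (σ : St c) (N' : ℕ) (nd' : σ.ι → Node) (h1 : ∀ i, Ok c N' (nd' i))
    (h2 : ∀ i, (nd' i).Le (σ.nd i)) : St c where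
  ι := σ.ι
  nd := nd'
  N := N'
  ok := h1
  sep := fun i i' h => (σ.sep i i' h).mono (h2 i) (h2 i')

lemma modify_le (σ : St c) (r : ℕ) (nd' : σ.ι → Node) (h1 : ∀ i, Ok c (σ.N + r) (nd' i))
    (h2 : ∀ i, (nd' i).Le (σ.nd i)) (h3 : ∀ i n, ms (nd' i).ω r n = (σ.nd i).ω n) :
    (σ.modify (σ.N + r) nd' h1 h2).Le σ := by
  refine ⟨Nat.le_add_right _ _, fun n => ?_, fun i => ⟨i, h2 i⟩⟩
  change ms (fun n => ∑ i : σ.ι, (nd' i).ω n) (σ.N + r - σ.N) n = _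
  rw [Nat.add_sub_cancel_left, ms_sum]
  exact sum_congr rfl fun i _ => h3 i n

/-- Every node is replaced by a smaller node with the same weights. -/
lemma exists_sub (σ : St c) {p : σ.ι → Node → Prop}
    (h : ∀ i, ∃ d', Ok c σ.N d' ∧ d'.Le (σ.nd i) ∧ d'.ω = (σ.nd i).ω ∧ p i d') :
    ∃ σ' : St c, σ'.Le σ ∧ ∀ i', ∃ i, (σ'.nd i').Le (σ.nd i) ∧ p i (σ'.nd i') := by
  choose nd' h1 h2 h3 h4 using h
  exact ⟨_, σ.modify_le 0 nd' h1 h2 fun i n => by rw [h3, ms_zero], fun i => ⟨i, h2 i, h4 i⟩⟩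

lemma exists_bdd (σ : St c) (Z : Br → ℕ) :
    ∃ σ' : St c, σ'.Le σ ∧ ∃ T, ∀ i a, ∀ ξ ∈ (σ'.nd i).Ξ a, Z ξ ≤ T := by
  choose T hT using fun i => (σ.ok i).cover le_rfl (σ.ok i).nn (fun k _ => {ξ | Z ξ ≤ k})
    (fun k k' e _ ξ hξ => le_trans hξ e) fun a _ => by
      rw [Set.sdiff_eq_empty.mpr fun ξ _ => Set.mem_iUnion.mpr ⟨Z ξ, le_refl (Z ξ)⟩, measure_empty]
  obtain ⟨σ', l, e⟩ := σ.exists_sub hT
  refine ⟨σ', l, ∑ i, T i, fun i' a ξ hξ => ?_⟩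
  obtain ⟨i, -, e⟩ := e i'
  exact le_trans (e a hξ) (single_le_sum (f := T) (fun _ _ => Nat.zero_le _) (mem_univ i))

lemma exists_const (σ : St c) {C : Type} [Countable C] (p : (ℕ → ℕ) → C) :
    ∃ σ' : St c, σ'.Le σ ∧ ∀ i, ∀ a ∈ (σ'.nd i).X, ∀ a' ∈ (σ'.nd i).X, p a = p a' := by
  choose x hx using fun i => Idl.pig (σ.ok i).nn (p := fun a x => p a = x) fun a _ => ⟨_, rfl⟩
  refine ⟨_, σ.modify_le 0 (fun i => ⟨_, (σ.nd i).Ξ, (σ.nd i).ω, (σ.nd i).L⟩)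
    (fun i => ⟨hx i, fun a ha => (σ.ok i).sub ha.1, (σ.ok i).L0, (σ.ok i).ω0,
      fun a ha => (σ.ok i).le a ha.1⟩) (fun i => ⟨fun a ha => ha.1, fun _ => le_rfl⟩)
    (fun i n => ms_zero _ _), fun i a ha a' ha' => ha.2.trans ha'.2.symm⟩

def Pre (σ : St c) (k : ℕ) (b : ℝ) : Prop := ∀ s : σ.ι → ℕ → ℕ, (∀ i, s i ∈ (σ.nd i).X) →
  ∀ n, ∑ i, (σ.nd i).L * (c.μ (s i)).real ((σ.nd i).Ξ (s i) ∩ cs (md k) n) ≤ b

def Sm (σ : St c) (k : ℕ) (b : ℝ) : Prop :=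
  md k ≤ σ.N ∧ ∀ n, ms σ.Ω (σ.N - md k) n ≤ b

lemma Sm.mono {σ : St c} {k : ℕ} {b b' : ℝ} (h : σ.Sm k b) (h' : b ≤ b') : σ.Sm k b' :=
  ⟨h.1, fun n => (h.2 n).trans h'⟩

lemma Sm.of_le {σ σ' : St c} {k : ℕ} {b : ℝ} (h : σ.Sm k b) (l : σ'.Le σ) : σ'.Sm k b := by
  refine ⟨h.1.trans l.1, fun n => ?_⟩
  have := h.1
  have := l.1
  rw [show σ'.N - md k = (σ'.N - σ.N) + (σ.N - md k) by omega, ms_add,
    show ms σ'.Ω (σ'.N - σ.N) = σ.Ω from funext l.2.1]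
  exact h.2 n

lemma exists_refine (σ : St c) (N' : ℕ) : ∃ σ' : St c, σ'.Le σ ∧ N' ≤ σ'.N ∧
    ∀ k b, md k ≤ N' → σ.Pre k b → σ'.Sm k (2 * b) := by
  choose nd' h1 h2 h3 h4 using fun i => (σ.ok i).refine N'
  refine ⟨_, σ.modify_le N' nd' h1 h2 h4, Nat.le_add_left _ _, fun k b hk hp =>
    ⟨hk.trans (Nat.le_add_left _ _), fun n => ?_⟩⟩
  choose s hs using fun i => Idl.ne (h1 i).nn
  change ms (fun n => ∑ i : σ.ι, (nd' i).ω n) (σ.N + N' - md k) n ≤ _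
  rw [ms_sum]
  refine le_trans ?_ (mul_le_mul_of_nonneg_left (hp s (fun i => (h2 i).1 (hs i)) n) zero_le_two)
  rw [mul_sum]
  refine sum_le_sum fun i _ => ?_
  rw [(isFlow_meas (c.μ (s i)) ((σ.nd i).Ξ (s i))).eq_ms (σ.N + N' - md k), ← mul_assoc, ← h3,
    ← ms_mul, show md k + (σ.N + N' - md k) = σ.N + N' by omega]
  refine ms_mono (fun n' => ((h1 i).le _ (hs i) n').trans ?_) _ _
  exact mul_le_mul_of_nonneg_left
    (measureReal_mono (Set.inter_subset_inter_left _ ((h2 i).2 _))) (h1 i).L0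

noncomputable def compose (σ : St c) (sp : ∀ i, Spl c σ.N (σ.nd i)) : St c where
  ι := Σ i, (sp i).ρ
  nd := fun x => (sp x.1).ch x.2
  N := σ.N
  ok := fun x => (sp x.1).ok x.2
  sep := by
    rintro ⟨i, r⟩ ⟨i', r'⟩ h
    by_cases e : i = i'
    · subst e
      exact (sp i).sep r r' fun e => h (by rw [e])
    · exact (σ.sep i i' e).mono ((sp i).le r) ((sp i').le r')

lemma compose_le (σ : St c) (sp : ∀ i, Spl c σ.N (σ.nd i)) : (σ.compose sp).Le σ := by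
  refine ⟨le_rfl, fun n => ?_, fun x => ⟨x.1, (sp x.1).le x.2⟩⟩
  change ms (fun n => ∑ x : Σ i, (sp i).ρ, ((sp x.1).ch x.2).ω n) (σ.N - σ.N) n = _
  rw [Nat.sub_self, ms_zero, Fintype.sum_sigma]
  exact sum_congr rfl fun i _ => (sp i).sum n

end St

end Pool.Agent.Lib.S13
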