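import Mathlib
import Pool.Agent.Lib.MP_409048_lc.Kill
import Pool.Agent.Lib.S13.St

set_option autoImplicit false

namespace Pool.Agent.Lib.S13

open Finset Filter MeasureTheory Topology Pool.Agent.Lib.MP_409048_lc

/-- A node can be split so that its mass becomes small at a test of every tag. -/
def Kl (c : Cx) (N : ℕ) (d : Node) (A : Set ℕ) (cc : ℕ → ℕ) (w : Wd) : Prop :=
  ∃ Λ : ℝ, ∀ T0, ∃ sp : Spl c N d, ∑ r, (sp.ch r).L ≤ Λ ∧ ∃ j, T0 ≤ j ∧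
    ∀ a' ∈ Tags, Sat w a' → ∃ k, stg k = j ∧ tst k = own A j a' ∧ ∀ s : sp.ρ → ℕ → ℕ,
      (∀ r, s r ∈ (sp.ch r).X) → ∀ n,
      ∑ r, (sp.ch r).L * (c.μ (s r)).real ((sp.ch r).Ξ (s r) ∩ cs (md k) n) ≤
        Λ * 2⁻¹ ^ (T0 + (BB k + cc j))

lemma Cx.hi' (c : Cx) {a : ℕ → ℕ} {k e : ℕ} (h : ¬ Sat (tst k) a)
    (he : e ≤ BB k + bet (stg k)) (Ξ : Set Br) (n : ℕ) :
    (c.μ a).real (Ξ ∩ cs (md k) n) ≤ 2⁻¹ ^ e :=
  (measureReal_mono Set.inter_subset_right).trans ((c.hi a k n h).trans (hp_anti he))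

lemma exists_even : ∃ V : Ultrafilter ℕ, (V : Filter ℕ) ≤ atTop ∧ ∀ᶠ τ in V, τ % 2 = 0 := by
  have : (atTop ⊓ 𝓟 {τ : ℕ | τ % 2 = 0}).NeBot := frequently_iff_neBot.mp
    (frequently_atTop.mpr fun n => ⟨2 * n, by omega, by simp⟩)
  obtain ⟨V, hV⟩ := Ultrafilter.exists_le (atTop ⊓ 𝓟 {τ : ℕ | τ % 2 = 0})
  exact ⟨V, hV.trans inf_le_left, le_principal_iff.mp (hV.trans inf_le_right)⟩

namespace St

variable {c : Cx}

def Met (σ : St c) (A : Set ℕ) (cc : ℕ → ℕ) (w : Wd) (ε : ℝ) : Prop :=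
  ∀ a' ∈ Tags, Sat w a' → ∃ k, tst k = own A (stg k) a' ∧
    σ.Sm k (ε * 2⁻¹ ^ (BB k + cc (stg k)))

lemma Met.of_le {σ σ' : St c} {A : Set ℕ} {cc : ℕ → ℕ} {w : Wd} {ε : ℝ} (h : σ.Met A cc w ε)
    (l : σ'.Le σ) : σ'.Met A cc w ε :=
  fun a' e1 e2 => (h a' e1 e2).imp fun _ e => ⟨e.1, e.2.of_le l⟩

theorem exists_met (σ : St c) {A : Set ℕ} {cc : ℕ → ℕ} {w : Wd}
    (hA : ∀ κ, κ % 4 = 1 → κ ∈ A) (hcc : ∀ j, cc j + j ≤ bet j)
    (h : ∀ i, Kl c σ.N (σ.nd i) A cc w) {ε : ℝ} (hε : 0 < ε) :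
    ∃ σ' : St c, σ'.Le σ ∧ σ'.Met A cc w ε := by
  classical
  obtain ⟨T, hb⟩ : ∃ T, ∀ i i', i ≠ i' → ∃ κ < T, κ % 4 = 1 ∧
      ∀ a ∈ (σ.nd i).X, ∀ a' ∈ (σ.nd i').X, a κ ≠ a' κ := by
    choose! κ hκ using σ.sep
    exact ⟨∑ p : σ.ι × σ.ι, κ p.1 p.2 + 1, fun i i' e => ⟨κ i i', Nat.lt_succ_of_le
      (single_le_sum (f := fun p : σ.ι × σ.ι => κ p.1 p.2) (fun _ _ => Nat.zero_le _)
        (mem_univ (i, i'))), hκ i i' e⟩⟩
  choose Λ hΛ using h
  obtain ⟨T0, e1, e2⟩ := exists_small (2 * ∑ i, Λ i) hε T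
  choose sp t2 j t3 t4 using fun i => hΛ i T0
  obtain ⟨σ2, l2, -, h2⟩ := (σ.compose sp).exists_refine
    (md (pos (T0 + ∑ i, j i + 1) ∅ false))
  refine ⟨σ2, l2.trans (σ.compose_le sp), fun a' ha' hw => ?_⟩
  have hhi : ∀ i k, T0 ≤ stg k → tst k = own A (stg k) a' →
      (¬ ∃ a ∈ (σ.nd i).X, ∀ κ < T, κ % 4 = 1 → a κ = a' κ) → ∀ s : (sp i).ρ → ℕ → ℕ,
      (∀ r, s r ∈ ((sp i).ch r).X) → ∀ n,
      ∑ r, ((sp i).ch r).L * (c.μ (s r)).real (((sp i).ch r).Ξ (s r) ∩ cs (md k) n) ≤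
        Λ i * 2⁻¹ ^ (T0 + (BB k + cc (stg k))) := by
    intro i k k1 k2 k3 s hs n
    refine le_trans ?_ (mul_le_mul_of_nonneg_right (t2 i) (hp_pos _).le)
    rw [sum_mul]
    refine sum_le_sum fun r _ => mul_le_mul_of_nonneg_left (c.hi' (fun e => k3 ⟨s r,
      ((sp i).le r).1 (hs r), fun κ e3 e4 => ?_⟩) (by linarith [hcc (stg k)]) _ _) ((sp i).ok r).L0
    rw [k2] at e
    exact sat_own.mp e κ (by omega) (hA κ e4)
  have key : ∃ k, stg k ≤ T0 + ∑ i, j i ∧ tst k = own A (stg k) a' ∧ ∀ i,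
      ∀ s : (sp i).ρ → ℕ → ℕ, (∀ r, s r ∈ ((sp i).ch r).X) → ∀ n,
      ∑ r, ((sp i).ch r).L * (c.μ (s r)).real (((sp i).ch r).Ξ (s r) ∩ cs (md k) n) ≤
        Λ i * 2⁻¹ ^ (T0 + (BB k + cc (stg k))) := by
    by_cases hm : ∃ i, ∃ a ∈ (σ.nd i).X, ∀ κ < T, κ % 4 = 1 → a κ = a' κ
    · obtain ⟨i0, a0, m1, m2⟩ := hm
      obtain ⟨k, k1, k2, k3⟩ := t4 i0 a' ha' hw
      have := single_le_sum (f := j) (fun _ _ => Nat.zero_le _) (mem_univ i0)
      refine ⟨k, by omega, k1 ▸ k2, fun i => ?_⟩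
      by_cases e : i = i0
      · subst e; rw [k1]; exact k3
      · refine hhi i k (k1 ▸ t3 i0) (k1 ▸ k2) ?_
        rintro ⟨a, m3, m4⟩
        obtain ⟨t, s0, s1, s2⟩ := hb i i0 e
        exact s2 a m3 a0 m1 (by rw [m4 _ s0 s1, m2 _ s0 s1])
    · have p1 := stg_pos false (own_sub (A := A) (j := T0) ha')
      have p2 := tst_pos false (own_sub (A := A) (j := T0) ha')
      exact ⟨_, by omega, by rw [p1, p2], fun i => hhi i _ p1.ge (by rw [p1, p2])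
        fun e => hm ⟨i, e⟩⟩
  obtain ⟨k, k1, k2, k3⟩ := key
  refine ⟨k, k2, (h2 k ((∑ i, Λ i) * 2⁻¹ ^ (T0 + (BB k + cc (stg k))))
    (md_mono (lt_pos_succ k1).le) fun s hs n => ?_).mono ?_⟩
  · change ∑ x : Σ i, (sp i).ρ, _ ≤ _
    rw [Fintype.sum_sigma, sum_mul]
    exact sum_le_sum fun i _ => k3 i (fun r => s ⟨i, r⟩) (fun r => hs ⟨i, r⟩) n
  · rw [pow_add, ← mul_assoc, ← mul_assoc]
    exact mul_le_mul_of_nonneg_right e2 (hp_pos _).le

theorem exists_typed (σ : St c) {C : Type} [Countable C] [Nonempty C]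
    (S : C → (ℕ → ℕ) → Set Br) (h : ∀ i, ∀ a ∈ (σ.nd i).X, ∀ ξ ∈ (σ.nd i).Ξ a, ∃ θ, ξ ∈ S θ a) :
    ∃ σ' : St c, σ'.Le σ ∧ ∀ i, ∃ θ, ∀ a, (σ'.nd i).Ξ a ⊆ S θ a := by
  obtain ⟨V, hV, hV2⟩ := exists_even
  have key : ∀ i, ∃ sp : Spl c σ.N (σ.nd i), ∀ r, ∃ θ, ∀ a, (sp.ch r).Ξ a ⊆ S θ a := by
    intro i
    have ok := σ.ok i
    have h := h i
    set d := σ.nd i
    set N := σ.N
    obtain ⟨⟨θ, q⟩, hq⟩ := Idl.pig (C := (Fin (2 ^ N) → C) × ℕ) ok.nn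
      (p := fun a x => ∀ n : Fin (2 ^ N), (c.μ a).real (d.Ξ a ∩ cs N n) ≤
        x.2 * (c.μ a).real (d.Ξ a ∩ S (x.1 n) a ∩ cs N n)) (by
      intro a ha
      obtain ⟨θ, q, e⟩ := exists_ratio (c.μ a) (Ξ := d.Ξ a) (S := fun θ => S θ a) (h a ha) N
      exact ⟨(θ, q), e⟩)
    obtain ⟨τ, ⟨Y, y1, y2⟩, t0, t1⟩ := ((c.I.many hV hq (Good := fun _ => Set.univ)
      fun _ _ => Eventually.of_forall fun _ => trivial).and
      (hV2.and (hV (eventually_ge_atTop N)))).exists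
    have t1 : N ≤ τ := t1
    have t2 : 2 ^ N ≤ 2 ^ hh (2 * τ) := Nat.pow_le_pow_right (by norm_num) (by unfold hh; omega)
    refine ⟨⟨Fin (2 ^ N), fun r => ⟨Y (r.castLE t2), fun a => d.Ξ a ∩ S (θ r) a,
      fun n => if n = r then d.ω n else 0, d.L * q⟩, fun r => ⟨(y1 _).1,
        fun a ha => ok.sub ((y1 _).2 ha).1.1, mul_nonneg ok.L0 (by positivity), fun n => ?_,
        fun a ha n => ?_⟩, fun r => ⟨fun a ha => ((y1 _).2 ha).1.1, fun a => Set.inter_subset_left⟩,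
        fun n => ?_, fun r r' e => ⟨2 * τ + 1, by omega, fun a ha a' ha' => ?_⟩⟩,
      fun r => ⟨θ r, fun a => Set.inter_subset_right⟩⟩
    · dsimp only
      split_ifs
      exacts [ok.ω0 n, le_rfl]
    · dsimp only
      split_ifs with e
      · subst e
        rw [mul_assoc]
        exact (ok.le a ((y1 _).2 ha).1.1 r).trans
          (mul_le_mul_of_nonneg_left (((y1 _).2 ha).1.2 r) ok.L0)
      · exact mul_nonneg (mul_nonneg ok.L0 (by positivity)) measureReal_nonneg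
    · dsimp only
      rcases Nat.lt_or_ge n (2 ^ N) with hn | hn
      · rw [sum_eq_single ⟨n, hn⟩ (fun r _ e => if_neg fun e' => e (Fin.ext e'.symm))
          (fun e => absurd (mem_univ _) e), if_pos rfl]
      · simp [ok.zero hn]
    · exact ((y2 _ _ a ha a' ha').2.2 fun e' => e (Fin.castLE_injective _ e')).2
  choose sp t2 using key
  exact ⟨_, σ.compose_le sp, fun x => t2 x.1 x.2⟩

end St

variable {c : Cx} {N : ℕ} {d : Node}

theorem kill_unsat (ok : Ok c N d) {A : Set ℕ} {cc : ℕ → ℕ} {w : Wd}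
    (hcc : ∀ j, cc j + j ≤ bet j) (hw : ∀ p ∈ w, p.1 ∈ A) (h : ∀ a ∈ d.X, ¬ Sat w a) :
    Kl c N d A cc w := by
  refine ⟨d.L, fun T0 => ⟨⟨Unit, fun _ => d, fun _ => ok, fun _ => le_refl' d, fun n => by simp,
    fun r r' e => absurd rfl e⟩, by simp, T0 + (∑ p ∈ w, p.1 + 1), by omega, fun a' ha' hs => ?_⟩⟩
  set j := T0 + (∑ p ∈ w, p.1 + 1)
  have p1 := stg_pos false (own_sub (A := A) (j := j) ha')
  have p2 := tst_pos false (own_sub (A := A) (j := j) ha')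
  refine ⟨_, p1, p2, fun s hs' n => ?_⟩
  simp only [univ_unique, sum_singleton]
  refine mul_le_mul_of_nonneg_left (c.hi' (fun e => h _ (hs' default) fun p hp => ?_) ?_ _ _) ok.L0
  · rw [p2, sat_own] at e
    have := single_le_sum (f := fun p : ℕ × ℕ => p.1) (fun _ _ => Nat.zero_le _) hp
    rw [e p.1 (by omega) (hw p hp), hs p hp]
  · have := hcc j
    rw [p1]; omega

theorem kill_triv (ok : Ok c N d) {A : Set ℕ} {cc : ℕ → ℕ} {w : Wd}
    (hA : ∀ κ, κ % 4 = 1 → κ ∈ A) (hcc : ∀ j, cc j + j ≤ bet j)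
    (hc2 : ∀ T0, ∀ᶠ τ in atTop, T0 + cc (2 * τ + 2) ≤ hh (2 * τ)) : Kl c N d A cc w := by
  obtain ⟨V, hV, hV2⟩ := exists_even
  refine ⟨2 * d.L, fun T0 => ?_⟩
  obtain ⟨τ, ⟨Y, y1, y2⟩, t0, t2, t1⟩ := ((c.I.many hV ok.nn (Good := fun _ => Set.univ)
    fun _ _ => Eventually.of_forall fun _ => trivial).and
    (hV2.and (((hc2 T0).filter_mono hV).and (hV (eventually_ge_atTop T0))))).exists
  have t1 : T0 ≤ τ := t1
  have t2 : T0 + cc (2 * τ + 2) ≤ hh (2 * τ) := t2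
  have L0 := ok.L0
  have l0 := hp_pos (hh (2 * τ))
  refine ⟨⟨Fin (2 ^ hh (2 * τ)), fun r => ⟨Y r, d.Ξ, fun n => 2⁻¹ ^ hh (2 * τ) * d.ω n,
    2⁻¹ ^ hh (2 * τ) * d.L⟩, fun r => ⟨(y1 _).1, fun a ha => ok.sub ((y1 _).2 ha).1,
      by positivity, fun n => mul_nonneg l0.le (ok.ω0 n), fun a ha n => ?_⟩,
    fun r => ⟨fun a ha => ((y1 _).2 ha).1, fun a => le_rfl⟩, fun n => sum_fin_div _ _,
    fun r r' e => ⟨2 * τ + 1, by omega, fun a ha a' ha' => ((y2 _ _ a ha a' ha').2.2 e).2⟩⟩,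
    (sum_fin_div _ _).le.trans (by linarith), 2 * τ + 2, by omega, fun a' ha' _ => ?_⟩
  · rw [mul_assoc]
    exact mul_le_mul_of_nonneg_left (ok.le a ((y1 _).2 ha).1 n) l0.le
  · have p1 := stg_pos false (own_sub (A := A) (j := 2 * τ + 2) ha')
    have p2 := tst_pos false (own_sub (A := A) (j := 2 * τ + 2) ha')
    set k := pos (2 * τ + 2) (own A (2 * τ + 2) a') false
    refine ⟨k, p1, p2, fun s hs n => ?_⟩
    have q0 := hp_pos (T0 + (BB k + cc (2 * τ + 2)))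
    refine (sum_le_of_unique (p := fun r => Sat (tst k) (s r))
      (u := 2⁻¹ ^ hh (2 * τ) * (d.L * 2⁻¹ ^ (T0 + (BB k + cc (2 * τ + 2)))))
      (v := d.L * 2⁻¹ ^ (T0 + (BB k + cc (2 * τ + 2)))) (by positivity) (fun r r' e e' => ?_)
      (fun r _ => ?_) fun r e => ?_).trans (le_of_eq ?_)
    · by_contra hc
      rw [p2, sat_own] at e e'
      exact ((y2 _ _ _ (hs r) _ (hs r')).2.2 hc).2 (by
        rw [e _ (by omega) (hA _ (by omega)), e' _ (by omega) (hA _ (by omega))])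
    · refine le_add_of_nonneg_of_le (by positivity) ?_
      dsimp only
      rw [mul_comm _ d.L, mul_assoc]
      refine mul_le_mul_of_nonneg_left ?_ L0
      refine (mul_le_mul_of_nonneg_left ((measureReal_mono Set.inter_subset_right).trans
        (c.lo _ k n)) l0.le).trans ?_
      rw [← pow_add]
      exact hp_anti (by omega)
    · dsimp only
      rw [mul_assoc]
      refine mul_le_mul_of_nonneg_left (mul_le_mul_of_nonneg_left (c.hi' e ?_ _ _) L0) l0.le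
      have := hcc (2 * τ + 2)
      rw [p1]; omega
    · have := sum_fin_div (hh (2 * τ)) (d.L * 2⁻¹ ^ (T0 + (BB k + cc (2 * τ + 2))))
      rw [sum_const, card_univ, nsmul_eq_mul] at this
      change (Fintype.card (Fin (2 ^ hh (2 * τ))) : ℝ) * _ + _ = _
      rw [this]; ring

/-- The threshold between light and heavy cells. -/
def th (j : ℕ) : ℕ := 3 * Gam j + j

/-- Points whose cell in the middle of the test `k` has small mass. -/
def Lt (c : Cx) (a : ℕ → ℕ) (k : ℕ) : Set Br :=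
  {ξ | (c.μ a).real (cs (md k) (cell (md k) ξ)) ≤ 2⁻¹ ^ (BB k + th (stg k))}

lemma measurableSet_Lt (c : Cx) (a : ℕ → ℕ) (k : ℕ) : MeasurableSet (Lt c a k) :=
  measurableSet_cell (md k) fun n => (c.μ a).real (cs (md k) n) ≤ 2⁻¹ ^ (BB k + th (stg k))

theorem kill_light (ok : Ok c N d) {V : Ultrafilter ℕ} (hV : (V : Filter ℕ) ≤ atTop) {A : Set ℕ}
    {cc : ℕ → ℕ} {w : Wd} (hcc : ∀ j, cc j + j ≤ bet j)
    (hc2 : ∀ T0, ∀ᶠ τ in V, T0 + cc (2 * τ + 1) ≤ th (2 * τ + 1))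
    (h : ∀ a ∈ d.X, ∀ Ξ ⊆ d.Ξ a, Tendsto (fun τ => (c.μ a).real (Ξ ∩ Lt c a (kk A τ a))) V (𝓝 0) →
      (c.μ a).real Ξ = 0) : Kl c N d A cc w := by
  obtain ⟨q, hq⟩ := Idl.pig (C := ℕ) ok.nn (p := fun a q => ∀ᶠ τ in V, ∀ n : Fin (2 ^ N),
      (c.μ a).real (d.Ξ a ∩ cs N n) ≤
        q * (c.μ a).real (d.Ξ a ∩ cs N n ∩ Lt c a (kk A τ a))) (by
    intro a ha
    have : ∀ n : Fin (2 ^ N), ∃ ρ : ℝ, 0 ≤ ρ ∧ (0 < (c.μ a).real (d.Ξ a ∩ cs N n) → 0 < ρ) ∧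
        ∀ᶠ τ in V, ρ ≤ (c.μ a).real (d.Ξ a ∩ cs N n ∩ Lt c a (kk A τ a)) := by
      intro n
      by_cases e : 0 < (c.μ a).real (d.Ξ a ∩ cs N n)
      · by_contra hc
        push Not at hc
        refine e.ne' (h a ha _ Set.inter_subset_left (tendsto_order.mpr
          ⟨fun x hx => Eventually.of_forall fun _ => hx.trans_le measureReal_nonneg,
            fun x hx => ?_⟩))
        exact hc x hx.le fun _ => hx
      · exact ⟨0, le_rfl, fun e' => absurd e' e, Eventually.of_forall fun _ => measureReal_nonneg⟩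
    choose ρ r1 r2 r3 using this
    obtain ⟨q, hq⟩ := ratio_fin _ ρ r1 r2
    exact ⟨q, (eventually_all.mpr r3).mono fun τ e n =>
      (hq n).trans (mul_le_mul_of_nonneg_left (e n) (by positivity))⟩)
  refine ⟨d.L * q, fun T0 => ?_⟩
  obtain ⟨τ, ⟨Y, y1, -⟩, t2, t1⟩ := ((c.I.many hV hq (Good := fun τ => {a | ∀ n : Fin (2 ^ N),
      (c.μ a).real (d.Ξ a ∩ cs N n) ≤ q * (c.μ a).real (d.Ξ a ∩ cs N n ∩ Lt c a (kk A τ a))})
    fun _ ha => ha.2).and ((hc2 T0).and (hV (eventually_ge_atTop T0)))).exists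
  have t1 : T0 ≤ τ := t1
  have L0 : 0 ≤ d.L * q := mul_nonneg ok.L0 (by positivity)
  have y2 := y1 ⟨0, by positivity⟩
  refine ⟨⟨Unit, fun _ => ⟨Y ⟨0, by positivity⟩, fun a => d.Ξ a ∩ Lt c a (kk A τ a),
    d.ω, d.L * q⟩, fun r => ⟨y2.1, fun a ha => ok.sub (y2.2 ha).1.1, L0, ok.ω0, fun a ha n => ?_⟩,
    fun r => ⟨fun a ha => (y2.2 ha).1.1, fun a => Set.inter_subset_left⟩, fun n => by simp,
    fun r r' e => absurd rfl e⟩, by simp, 2 * τ + 1, by omega, fun a' ha' _ => ?_⟩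
  · dsimp only
    rcases Nat.lt_or_ge n (2 ^ N) with hn | hn
    · rw [mul_assoc, Set.inter_right_comm]
      exact (ok.le a (y2.2 ha).1.1 n).trans (mul_le_mul_of_nonneg_left ((y2.2 ha).2 ⟨n, hn⟩) ok.L0)
    · rw [ok.zero hn]
      exact mul_nonneg L0 measureReal_nonneg
  · have p1 : stg (kk A τ a') = _ := stg_pos false (own_sub ha')
    have p2 : tst (kk A τ a') = _ := tst_pos false (own_sub ha')
    refine ⟨kk A τ a', p1, p2, fun s hs n => ?_⟩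
    have := hcc (2 * τ + 1)
    simp only [univ_unique, sum_singleton]
    refine mul_le_mul_of_nonneg_left ?_ L0
    by_cases e : Sat (tst (kk A τ a')) (s default)
    · have e1 : kk A τ (s default) = kk A τ a' := by
        rw [p2, sat_own] at e
        rw [kk, own_eq e, kk]
      rw [e1]
      rcases Set.eq_empty_or_nonempty (d.Ξ (s default) ∩ Lt c (s default) (kk A τ a') ∩
        cs (md (kk A τ a')) n) with e2 | ⟨ξ, ⟨-, e2⟩, e3⟩
      · rw [e2, measureReal_empty]; positivity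
      · have e3 : cell (md (kk A τ a')) ξ = n := e3
        simp only [Lt, Set.mem_ofPred_eq] at e2
        rw [e3] at e2
        refine (measureReal_mono Set.inter_subset_right).trans (e2.trans (hp_anti ?_))
        rw [p1]; omega
    · refine c.hi' e ?_ _ _
      rw [p1]; omega

theorem kill_heavy (ok : Ok c N d) {V : Ultrafilter ℕ} (hV : (V : Filter ℕ) ≤ atTop)
    {A A' : Set ℕ} {cc : ℕ → ℕ} {w : Wd} (h0 : ∀ᶠ τ in V, τ % 2 = 0 ∧ 2 * τ ∈ A')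
    (h1 : ∀ T0, ∀ᶠ τ in V, T0 + cc (2 * τ + 1) ≤ hh (2 * τ))
    (h : ∀ a ∈ d.X, Tendsto (fun τ => (c.μ a).real (d.Ξ a ∩ Lt c a (kk A' τ a))) V (𝓝 0)) :
    Kl c N d A cc w := by
  classical
  have L0 := ok.L0
  obtain ⟨δ, δ0, hδ⟩ : ∃ δ : ℝ, 0 < δ ∧ ∀ n, 0 < d.ω n → 4 * d.L * δ ≤ d.ω n := by
    obtain ⟨q, hq⟩ := ratio_fin (ι := Fin (2 ^ N)) (fun n => if 0 < d.ω n then 4 * d.L else 0)
      (fun n => d.ω n) (fun n => ok.ω0 n) fun n e => by
        by_contra hc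
        rw [if_neg hc] at e
        exact lt_irrefl _ e
    refine ⟨(q + 1 : ℝ)⁻¹, by positivity, fun n hn => ?_⟩
    have := hq ⟨n, by by_contra hc; exact hn.ne' (ok.zero (not_lt.mp hc))⟩
    simp only [if_pos hn] at this
    rw [← div_eq_mul_inv, div_le_iff₀ (by positivity)]
    linarith
  refine ⟨2 * d.L, fun T0 => ?_⟩
  obtain ⟨T1, u1, u2⟩ := exists_small 1 δ0 T0
  obtain ⟨τ, ⟨Y, y1, y2⟩, ⟨t0, t2⟩, t3, t1⟩ := ((c.I.many hV ok.nn
    (Good := fun τ => {a | (c.μ a).real (d.Ξ a ∩ Lt c a (kk A' τ a)) ≤ δ})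
    fun a ha => (h a ha).eventually (ge_mem_nhds δ0)).and
      (h0.and ((h1 T0).and (hV (eventually_ge_atTop T1))))).exists
  have t1 : T1 ≤ τ := t1
  have l0 := hp_pos (hh (2 * τ))
  choose b hb using fun r => Idl.ne (y1 r).1
  have hT : ∀ r, ∀ a ∈ Y r, a ∈ Tags := fun r a ha => ok.sub ((y1 r).2 ha).1
  set k : Fin (2 ^ hh (2 * τ)) → ℕ := fun r => kk A' τ (b r) with hk
  have k1 : ∀ r, stg (k r) = 2 * τ + 1 := fun r => stg_pos false (own_sub (hT r _ (hb r)))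
  have k2 : ∀ r, tst (k r) = own A' (2 * τ + 1) (b r) :=
    fun r => tst_pos false (own_sub (hT r _ (hb r)))
  have k3 : ∀ r, ∀ a ∈ Y r, kk A' τ a = k r := by
    intro r a ha
    have := y2 r r a ha _ (hb r)
    simp only [hk, kk]
    rw [own_eq fun κ e _ => ?_]
    rcases Nat.lt_succ_iff_lt_or_eq.mp e with e | e
    exacts [this.1 κ e, e ▸ this.2.1 rfl]
  choose H hH using fun r => Idl.pig (C := Finset ℕ) (y1 r).1 (p := fun a H => ∀ n, n ∈ H ↔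
      2⁻¹ ^ (BB (k r) + th (stg (k r))) < (c.μ a).real (cs (md (k r)) n)) fun a _ =>
    ⟨(range (2 ^ md (k r))).filter fun n =>
      2⁻¹ ^ (BB (k r) + th (stg (k r))) < (c.μ a).real (cs (md (k r)) n), fun n => by
      rw [mem_filter, mem_range]
      refine and_iff_right_of_imp fun e => ?_
      by_contra hc
      rw [cs_eq_empty (not_lt.mp hc), measureReal_empty] at e
      exact e.not_gt (hp_pos _)⟩
  have hc : ∀ r, ((H r).card : ℝ) * 2⁻¹ ^ (BB (k r) + th (2 * τ + 1)) ≤ 1 := by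
    intro r
    obtain ⟨a, -, ha⟩ := Idl.ne (hH r)
    have e1 := sum_measureReal_le_measureReal_univ (μ := c.μ a) (s := H r)
      (t := cs (md (k r))) (fun n _ => measurableSet_cs _ _) fun n _ n' _ e =>
        Set.disjoint_left.mpr fun ξ e1 e2 => e (Eq.trans (Eq.symm e1) e2)
    have e2 := card_nsmul_le_sum (H r) _ _ fun n hn => ((ha n).mp hn).le
    rw [nsmul_eq_mul, k1] at e2
    linarith [c.tot a]
  have hn : ∀ r r', r' ≠ r → ∀ a ∈ Y r, (c.μ a).real {ξ | cell (md (k r')) ξ ∈ H r'} ≤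
      2⁻¹ ^ hh (2 * τ) * δ := by
    intro r r' e a ha
    have e1 : ¬ Sat (tst (k r')) a := fun e1 => by
      rw [k2, sat_own] at e1
      exact ((y2 _ _ _ (hb r') _ ha).2.2 e).1 (e1 _ (by omega) t2).symm
    have e2 : {ξ | cell (md (k r')) ξ ∈ H r'} = ⋃ n ∈ H r', cs (md (k r')) n := by
      ext ξ; simp [cs]
    rw [e2]
    refine (measureReal_biUnion_finset_le _ _).trans
      ((sum_le_card_nsmul _ _ _ fun n _ => c.hi a (k r') n e1).trans ?_)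
    have e3 : Gam (2 * τ + 1) = 3 * Gam (2 * τ) + 2 * (2 * τ) + 1 := rfl
    rw [nsmul_eq_mul, k1]
    calc _ ≤ ((H r').card : ℝ) * 2⁻¹ ^ (BB (k r') + th (2 * τ + 1) + (hh (2 * τ) + T1)) :=
          mul_le_mul_of_nonneg_left (hp_anti (by unfold bet th hh; omega)) (by positivity)
      _ ≤ 1 * 2⁻¹ ^ (hh (2 * τ) + T1) := by
          rw [pow_add, ← mul_assoc]
          exact mul_le_mul_of_nonneg_right (hc r') (hp_pos _).le
      _ ≤ _ := by
          rw [one_mul, pow_add]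
          exact mul_le_mul_of_nonneg_left (by linarith) l0.le
  refine ⟨⟨Fin (2 ^ hh (2 * τ)), fun r => ⟨_, fun a => d.Ξ a ∩
      {ξ | cell (md (k r)) ξ ∈ H r ∧ ∀ r' ≠ r, cell (md (k r')) ξ ∉ H r'},
      fun n => 2⁻¹ ^ hh (2 * τ) * d.ω n, 2⁻¹ ^ hh (2 * τ) * (2 * d.L)⟩,
    fun r => ⟨hH r, fun a ha => hT r a ha.1, by positivity, fun n => mul_nonneg l0.le (ok.ω0 n),
      fun a ha n => ?_⟩,
    fun r => ⟨fun a ha => ((y1 _).2 ha.1).1, fun a => Set.inter_subset_left⟩,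
    fun n => sum_fin_div _ _, fun r r' e => ⟨2 * τ + 1, by omega, fun a ha a' ha' =>
      ((y2 _ _ a ha.1 a' ha'.1).2.2 e).2⟩⟩,
    (sum_fin_div _ _).le, 2 * τ + 1, by omega, fun a' ha' _ => ?_⟩
  · dsimp only
    rw [mul_assoc]
    refine mul_le_mul_of_nonneg_left ?_ l0.le
    rcases (ok.ω0 n).eq_or_lt with e | e
    · rw [← e]; exact mul_nonneg (by positivity) measureReal_nonneg
    set Ξ' := d.Ξ a ∩ {ξ | cell (md (k r)) ξ ∈ H r ∧ ∀ r' ≠ r, cell (md (k r')) ξ ∉ H r'} ∩ cs N n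
    have e1 : d.Ξ a ∩ cs N n ⊆ Ξ' ∪ (d.Ξ a ∩ Lt c a (kk A' τ a)) ∪
        ⋃ r' ∈ univ.erase r, {ξ | cell (md (k r')) ξ ∈ H r'} := by
      intro ξ hξ
      by_cases f1 : cell (md (k r)) ξ ∈ H r
      · by_cases f2 : ∀ r' ≠ r, cell (md (k r')) ξ ∉ H r'
        · exact Or.inl (Or.inl ⟨⟨hξ.1, f1, f2⟩, hξ.2⟩)
        · push Not at f2
          obtain ⟨r', f2, f3⟩ := f2
          exact Or.inr (Set.mem_biUnion (mem_coe.mpr (mem_erase.mpr ⟨f2, mem_univ _⟩)) f3)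
      · refine Or.inl (Or.inr ⟨hξ.1, ?_⟩)
        rw [k3 r a ha.1]
        exact not_lt.mp fun f2 => f1 ((ha.2 _).mpr f2)
    have e2 : (c.μ a).real (⋃ r' ∈ univ.erase r, {ξ | cell (md (k r')) ξ ∈ H r'}) ≤ δ := by
      refine (measureReal_biUnion_finset_le _ _).trans ((sum_le_sum fun r' e' =>
        hn r r' (mem_erase.mp e').1 a ha.1).trans ?_)
      refine (sum_le_sum_of_subset_of_nonneg (erase_subset _ _) fun _ _ _ => by positivity).trans ?_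
      exact (sum_fin_div _ _).le
    have e3 : (c.μ a).real (d.Ξ a ∩ Lt c a (kk A' τ a)) ≤ δ := ((y1 r).2 ha.1).2
    have e4 := (measureReal_mono (μ := c.μ a) e1).trans ((measureReal_union_le _ _).trans
      (add_le_add (measureReal_union_le _ _) e2))
    have e5 := ok.le a ((y1 r).2 ha.1).1 n
    have e6 := hδ n e
    have e7 := mul_le_mul_of_nonneg_left (e4.trans (add_le_add (add_le_add le_rfl e3) le_rfl)) L0
    linarith
  · have p1 := stg_pos true (own_sub (A := A) (j := 2 * τ + 1) ha')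
    have p2 := tst_pos true (own_sub (A := A) (j := 2 * τ + 1) ha')
    have p3 : ∀ r, md (k r) ≤ md (pos (2 * τ + 1) (own A (2 * τ + 1) a') true) :=
      fun r => md_mono (pos_le _ (own_sub (hT r _ (hb r))))
    set k' := pos (2 * τ + 1) (own A (2 * τ + 1) a') true
    refine ⟨k', p1, p2, fun s hs n => ?_⟩
    have q0 := hp_pos (T0 + (BB k' + cc (2 * τ + 1)))
    refine (sum_le_of_unique (p := fun r => (d.Ξ (s r) ∩
      {ξ | cell (md (k r)) ξ ∈ H r ∧ ∀ r' ≠ r, cell (md (k r')) ξ ∉ H r'} ∩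
        cs (md k') n).Nonempty) (u := 0)
      (v := 2 * d.L * 2⁻¹ ^ (T0 + (BB k' + cc (2 * τ + 1)))) (by positivity)
      (fun r r' e e' => ?_) (fun r _ => ?_) fun r e => ?_).trans (by simp)
    · by_contra hc
      obtain ⟨ξ, f1, f2⟩ := e
      obtain ⟨ξ', f3, f4⟩ := e'
      exact f3.2.2 r hc (cell_eq_of_le (p3 r) (Eq.trans f2 (Eq.symm f4)) ▸ f1.2.1)
    · dsimp only
      rw [zero_add, mul_comm _ (2 * d.L), mul_assoc]
      refine mul_le_mul_of_nonneg_left ?_ (by positivity)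
      refine (mul_le_mul_of_nonneg_left ((measureReal_mono Set.inter_subset_right).trans
        (c.lo _ k' n)) l0.le).trans ?_
      rw [← pow_add]
      exact hp_anti (by omega)
    · dsimp only
      rw [Set.not_nonempty_iff_eq_empty.mp e, measureReal_empty, mul_zero]

end Pool.Agent.Lib.S13
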