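import Mathlib
import Pool.Agent.Lib.MP_409048_lc.Positive
import Pool.Agent.Lib.S13.Sys
import Pool.Agent.Lib.S13.Idl

set_option autoImplicit false

namespace Pool.Agent.Lib.S13

open Finset Pool.Agent.Lib.MP_409048_lc

/-- An enumeration of the families with infinite repetition and short strings. -/
noncomputable def fm (ρ : ℕ) : Fam := if (fam ρ).2.length ≤ ρ then fam ρ else (0, [])

lemma fm_len (ρ : ℕ) : (fm ρ).2.length ≤ ρ := by
  unfold fm
  split_ifs with h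
  exacts [h, Nat.zero_le _]

lemma fm_freq (e : Fam) (n : ℕ) : ∃ ρ, n ≤ ρ ∧ fm ρ = e := by
  obtain ⟨ρ, h1, h2⟩ := fam_freq e (n + e.2.length)
  exact ⟨ρ, by omega, by rw [fm, h2, if_pos (by omega)]⟩

def Cc (D : Set Fam) : Set ℕ := {κ | κ % 4 = 1 ∨ (κ % 4 = 0 ∧ fm (κ / 4) ∈ D)}

lemma Cc_mono {D D' : Set Fam} (h : D ⊆ D') : Cc D ⊆ Cc D' :=
  fun _ h1 => h1.imp_right fun e => ⟨e.1, h e.2⟩

def Ge (l : ℕ) : Set Fam := {e | l ≤ e.1}

def Al (l : ℕ) (y : ℕ → Bool) : Set Fam := {e | e.1 = l ∧ e.2 = pf y e.2.length}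

def Pr (l : ℕ) (s : List Bool) : Set Fam := {e | e.1 = l ∧ e.2 <+: s}

def Cp (l : ℕ) (s : List Bool) : Set Fam := {e | e.1 = l ∧ (e.2 <+: s ∨ s <+: e.2)}

def dm (w : Wd) : Set ℕ := {κ | ∃ p ∈ w, p.1 = κ}

/-- The test `w` is low. -/
def lo (A : Set ℕ) (w : Wd) (a : ℕ → ℕ) : Prop := (∀ p ∈ w, p.1 ∈ A) ∧ Sat w a

lemma lo.mono {A A' : Set ℕ} {w : Wd} {a : ℕ → ℕ} (h : lo A w a) (h' : A ⊆ A') : lo A' w a :=
  ⟨fun p hp => h' (h.1 p hp), h.2⟩

lemma lo_own {A A' : Set ℕ} (h : A ⊆ A') (j : ℕ) (a : ℕ → ℕ) : lo A' (own A j a) a :=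
  ⟨fun _ hp => h (mem_own.mp hp).2.1, sat_own.mpr fun _ _ _ => rfl⟩

lemma Pr_sub_Al {l : ℕ} {y : ℕ → Bool} {k : ℕ} : Pr l (pf y k) ⊆ Al l y := fun u hu =>
  ⟨hu.1, (List.prefix_of_prefix_length_le hu.2
    (pf_prefix y (show u.2.length ≤ k by simpa using hu.2.length_le)) (by simp)).eq_of_length
      (by simp) |> fun e => e⟩

lemma Al_sub_Cp {l : ℕ} {y : ℕ → Bool} {k : ℕ} : Al l y ⊆ Cp l (pf y k) := fun u hu =>
  ⟨hu.1, by
    rw [hu.2]
    exact (le_total u.2.length k).imp (pf_prefix y) (pf_prefix y)⟩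

def de (l j : ℕ) : ℕ := if l ≤ j then l else 0

/-- The small slack. -/
def et (l j : ℕ) : ℕ := ∑ κ ∈ range j, de l κ

lemma de_le (l j : ℕ) : de l j ≤ j := by unfold de; split_ifs <;> omega

lemma le_gam (j : ℕ) : j + 1 ≤ gam j := by unfold gam; omega

lemma et_succ (l j : ℕ) : et l (j + 1) = et l j + de l j := sum_range_succ _ _

lemma et_le (l j : ℕ) : et l j ≤ l * j := by
  induction j with
  | zero => simp [et]
  | succ j ih => rw [et_succ, mul_add, de]; split_ifs <;> omega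

lemma et_le_Gam (l j : ℕ) : et l j ≤ Gam j := by
  induction j with
  | zero => simp [et]
  | succ j ih => rw [et_succ, Gam_succ]; linarith [de_le l j, le_gam j]

lemma et_add (l j : ℕ) : et l j + j ≤ et (l + 1) j + (2 * l + 1) := by
  have h : ∀ j, et l j + j ≤ et (l + 1) j + (min j l + if l < j then l + 1 else 0) := by
    intro j
    induction j with
    | zero => simp [et]
    | succ j ih =>
      rw [et_succ, et_succ, de, de]
      split_ifs at ih ⊢ <;> omega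
  have := h j
  split_ifs at this <;> omega

@[simp] lemma et_zero (j : ℕ) : et 0 j = 0 := by simp [et, de]

open Classical in
/-- The pattern with tested set `A` and slack `E`, `l`. -/
noncomputable def pq (A E : Set ℕ) (l : ℕ) (a : ℕ → ℕ) (b : ℕ) : ℕ :=
  BB (b / 2) + (et l (stg (b / 2)) + XX E (stg (b / 2))) +
    if b % 2 = 1 ∧ ¬ lo A (tst (b / 2)) a then bet (stg (b / 2)) else 0

lemma pq_odd {A E : Set ℕ} {l : ℕ} {a : ℕ → ℕ} {k : ℕ} (h : lo A (tst k) a) :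
    pq A E l a (2 * k + 1) = BB k + (et l (stg k) + XX E (stg k)) := by
  unfold pq
  rw [show (2 * k + 1) / 2 = k by omega, if_neg (fun e => e.2 h), add_zero]

lemma pq_le {A A' E E' : Set ℕ} {l l' x : ℕ} {a : ℕ → ℕ} {b : ℕ} (h : A' ⊆ A)
    (h' : et l (stg (b / 2)) + XX E (stg (b / 2)) + x ≤ et l' (stg (b / 2)) + XX E' (stg (b / 2))) :
    pq A E l a b + x ≤ pq A' E' l' a b := by
  have : lo A' (tst (b / 2)) a → lo A (tst (b / 2)) a := fun e => e.mono h
  unfold pq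
  split_ifs <;> first | omega | (exfalso; tauto)

/-- Membership of a coordinate depends on earlier bits only. -/
def Loc (A : (ℕ → Bool) → Set ℕ) : Prop :=
  ∀ y y' j κ, κ ≤ j → (∀ i < j, y i = y' i) → κ ∈ A y → κ ∈ A y'

lemma pf_congr {y y' : ℕ → Bool} {k : ℕ} (h : ∀ i < k, y i = y' i) : pf y k = pf y' k :=
  List.map_congr_left fun i hi => h i (List.mem_range.mp hi)

lemma loc_Cc (D : Set Fam) (l : ℕ) (F : Set ℕ) : Loc fun y => Cc (D ∪ Al l y) ∪ F := by
  intro y y' j κ h1 h2 h3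
  refine h3.imp_left fun e => e.imp_right fun e => ⟨e.1, e.2.imp_right fun e => ⟨e.1, ?_⟩⟩
  have := fm_len (κ / 4)
  exact e.2.trans (pf_congr fun i hi => h2 i (by omega))

lemma Loc.iff {A : (ℕ → Bool) → Set ℕ} (h : Loc A) {y y' : ℕ → Bool} {j κ : ℕ} (h1 : κ ≤ j)
    (h2 : ∀ i < j, y i = y' i) : κ ∈ A y ↔ κ ∈ A y' :=
  ⟨h y y' j κ h1 h2, h y' y j κ h1 fun i hi => (h2 i hi).symm⟩

lemma Loc.XX {A : (ℕ → Bool) → Set ℕ} (h : Loc A) {y y' : ℕ → Bool} {j : ℕ}
    (h2 : ∀ i < j, y i = y' i) : XX (A y) j = XX (A y') j := by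
  classical
  exact sum_congr rfl fun κ hκ => if_congr (h.iff (mem_range.mp hκ).le h2) rfl rfl

lemma Loc.lo {A : (ℕ → Bool) → Set ℕ} (h : Loc A) {y y' : ℕ → Bool} {a a' : ℕ → ℕ} {k : ℕ}
    (h2 : ∀ i < stg k, y i = y' i) (h3 : ∀ i < stg k, i ∈ A y → a i = a' i) :
    lo (A y) (tst k) a ↔ lo (A y') (tst k) a' := by
  have e : (∀ p ∈ tst k, p.1 ∈ A y) ↔ ∀ p ∈ tst k, p.1 ∈ A y' :=
    forall₂_congr fun p hp => h.iff (tst_lt hp).le h2
  unfold S13.lo Sat
  rw [← e]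
  exact and_congr_right fun h1 => forall₂_congr fun p hp => by rw [h3 _ (tst_lt hp) (h1 p hp)]

/-- Revealed coordinates of a tree of level `l`. -/
def AE (l : ℕ) (y0 y : ℕ → Bool) : Set ℕ :=
  Cc (Ge (2 * l + 2) ∪ Al (2 * l) y0 ∪ Al (2 * l + 1) y) ∪ ∅

lemma loc_AE (l : ℕ) (y0 : ℕ → Bool) : Loc (AE l y0) := loc_Cc _ _ _

open Classical in
/-- The tree of level `l` with global mode `y0`. -/
noncomputable def ES (l : ℕ) (y0 : ℕ → Bool) : Sys (Bool × ℕ) where
  v0 := (false, 0)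
  opt := fun j q => univ ×ˢ (if j ∈ AE l y0 (fun i => (q i).1) then range (2 ^ gam j) else {0})
  ds := fun j _ => de l j
  ex := fun k q => if lo (AE l y0 fun i => (q i).1) (tst k) (fun i => (q i).2) then 0
    else bet (stg k)
  hopt := fun j q => by
    have := le_gam j
    rw [card_product, card_univ, Fintype.card_bool]
    split_ifs
    · rw [card_range, ← pow_succ']
      exact Nat.pow_le_pow_right (by norm_num) (by omega)
    · exact Nat.pow_le_pow_right (n := 2) (i := 1) (by norm_num) (by omega)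
  hds := fun j _ => by linarith [de_le l j, le_gam j]
  hex := fun k q => by split_ifs <;> omega

lemma ES_ps (l : ℕ) (y0 : ℕ → Bool) (θ : ℕ → Bool × ℕ) (b : ℕ) :
    (ES l y0).ps θ b = pq (AE l y0 fun i => (θ i).1) ∅ l (fun i => (θ i).2) b := by
  have e := (loc_AE l y0).lo (k := b / 2) (y := fun i => (cut (false, 0) (stg (b / 2)) θ i).1)
    (y' := fun i => (θ i).1) (a := fun i => (cut (false, 0) (stg (b / 2)) θ i).2)
    (a' := fun i => (θ i).2) (fun i hi => by rw [cut_lt hi]) fun i hi _ => by rw [cut_lt hi]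
  simp only [Sys.ps, pq, ES, Sys.sg, e, XX_empty, add_zero, et]
  split_ifs <;> first | rfl | (exfalso; tauto)

lemma mem_ES {l : ℕ} {y0 : ℕ → Bool} {θ : ℕ → Bool × ℕ} {j : ℕ} {v : Bool × ℕ} :
    v ∈ (ES l y0).opt j (cut (ES l y0).v0 j θ) ↔
      ((j ∈ AE l y0 fun i => (θ i).1) → v.2 < 2 ^ gam j) ∧
        ((j ∉ AE l y0 fun i => (θ i).1) → v.2 = 0) := by
  have e := (loc_AE l y0).iff (le_refl j) (y := fun i => (cut (false, 0) j θ i).1)
    (y' := fun i => (θ i).1) fun i hi => by rw [cut_lt hi]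
  simp only [ES, mem_product, mem_univ, true_and, ← e]
  split_ifs with h <;> simp [h]

/-- Finite data of an absorbing tree. -/
structure GD where
  l : ℕ
  t : ℕ
  s0 : List Bool
  sb : List Bool
  s1 : List Bool
  w1 : Wd
  w2 : Wd

instance : Countable GD :=
  Function.Injective.countable (f := fun G : GD => (G.l, G.t, G.s0, G.sb, G.s1, G.w1, G.w2)) (by
    rintro ⟨⟩ ⟨⟩ e
    simpa using e)

namespace GD

variable (G : GD)

def A1 (y : ℕ → Bool) : Set ℕ :=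
  Cc (Ge (2 * G.l + 2) ∪ Pr (2 * G.l + 1) G.s1 ∪ Al (2 * G.l) y) ∪ dm G.w1

def A2 (y : ℕ → Bool) : Set ℕ := Cc (Ge (2 * G.l + 2) ∪ Al (2 * G.l) y) ∪ dm G.w2

def E1 (y : ℕ → Bool) : Set ℕ :=
  Cc (Ge (2 * G.l + 2) ∪ Cp (2 * G.l + 1) G.s1 ∪ Al (2 * G.l) y) ∪ ∅

def E2 (y : ℕ → Bool) : Set ℕ := Cc (Ge (2 * G.l + 1) ∪ Al (2 * G.l) y) ∪ ∅

lemma loc_A1 : Loc G.A1 := loc_Cc _ _ _
lemma loc_A2 : Loc G.A2 := loc_Cc _ _ _
lemma loc_E1 : Loc G.E1 := loc_Cc _ _ _
lemma loc_E2 : Loc G.E2 := loc_Cc _ _ _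

lemma E1_sub (y : ℕ → Bool) : G.E1 y ⊆ G.E2 y :=
  Set.union_subset_union_left _ (Cc_mono (Set.union_subset_union_left _ fun e he =>
    he.elim (fun h => le_trans (by omega) (show 2 * G.l + 2 ≤ e.1 from h)) fun h => h.1.ge))

def Valid : Prop :=
  dm G.w1 ⊆ Cc Set.univ ∧ dm G.w2 ⊆ Cc Set.univ ∧
    (∃ p ∈ G.w1, ∃ p' ∈ G.w2, p.1 = p'.1 ∧ p.1 ≤ G.t ∧ p.2 ≠ p'.2) ∧
    G.s1.length = G.s0.length ∧ ∀ a, Sat G.w1 a → pf (bb a) G.s0.length = G.sb

end GD

open Classical in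
noncomputable def ob (w : Wd) (j : ℕ) (A : Set ℕ) : Finset ℕ :=
  if j ∈ A then (range (2 ^ gam j)).filter fun v => ∀ p ∈ w, p.1 = j → v = p.2 else {0}

open Classical in
lemma card_ob (w : Wd) (j : ℕ) (A : Set ℕ) : (ob w j A).card ≤ 2 ^ if j ∈ A then gam j else 0 := by
  unfold ob
  split_ifs
  · exact (card_filter_le _ _).trans (by simp)
  · simp

lemma ob_congr {w : Wd} {j : ℕ} {A A' : Set ℕ} (h : j ∈ A ↔ j ∈ A') : ob w j A = ob w j A' := by
  classical
  exact if_congr h rfl rfl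

open Classical in
noncomputable def GD.op (G : GD) (j : ℕ) (y : ℕ → Bool) : Finset (Bool × ℕ × ℕ) :=
  (univ.filter fun β => ∀ h : j < G.s0.length, β = G.s0[j]) ×ˢ
    ob G.w1 j (G.A1 y) ×ˢ ob G.w2 j (G.A2 y)

open Classical in
lemma GD.card_op (G : GD) (j : ℕ) (y : ℕ → Bool) : (G.op j y).card ≤
    2 ^ (1 + (if j ∈ G.A1 y then gam j else 0) + if j ∈ G.A2 y then gam j else 0) := by
  rw [GD.op, card_product, card_product, pow_add, pow_add, mul_assoc]
  exact Nat.mul_le_mul ((card_filter_le _ _).trans (by simp))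
    (Nat.mul_le_mul (card_ob _ _ _) (card_ob _ _ _))

open Classical in
/-- The absorbing tree with two threads. -/
noncomputable def AS (G : GD) : Sys (Bool × ℕ × ℕ) where
  v0 := (false, 0, 0)
  opt := fun j q => G.op j fun i => (q i).1
  ds := fun j q => de (G.l + 1) j + if j ∈ G.E1 (fun i => (q i).1) then gam j else 0
  ex := fun k q => if lo (G.A1 fun i => (q i).1) (tst k) (fun i => (q i).2.1) then 0
    else if lo (G.A2 fun i => (q i).1) (tst k) (fun i => (q i).2.2) then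
      XX (G.E2 fun i => (q i).1) (stg k) - XX (G.E1 fun i => (q i).1) (stg k)
    else bet (stg k)
  hopt := fun j q => (G.card_op _ _).trans (Nat.pow_le_pow_right (by norm_num) (by
    have := le_gam j
    split_ifs <;> omega))
  hds := fun j _ => by
    have := de_le (G.l + 1) j
    have := le_gam j
    split_ifs <;> omega
  hex := fun k q => by
    have := XX_le (G.E2 fun i => (q i).1) (stg k)
    unfold bet hh
    split_ifs <;> omega

lemma AS_opt (G : GD) (θ : ℕ → Bool × ℕ × ℕ) (j : ℕ) :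
    (AS G).opt j (cut (AS G).v0 j θ) = G.op j fun i => (θ i).1 := by
  simp only [AS, GD.op]
  rw [ob_congr (G.loc_A1.iff le_rfl (y' := fun i => (θ i).1) fun i hi => by rw [cut_lt hi]),
    ob_congr (G.loc_A2.iff le_rfl (y' := fun i => (θ i).1) fun i hi => by rw [cut_lt hi])]

open Classical in
lemma AS_ps (G : GD) (θ : ℕ → Bool × ℕ × ℕ) (b : ℕ) :
    (AS G).ps θ b = if b % 2 = 1 ∧ ¬ lo (G.A1 fun i => (θ i).1) (tst (b / 2)) (fun i => (θ i).2.1) ∧
        lo (G.A2 fun i => (θ i).1) (tst (b / 2)) (fun i => (θ i).2.2) then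
      pq (G.A2 fun i => (θ i).1) (G.E2 fun i => (θ i).1) (G.l + 1) (fun i => (θ i).2.2) b
    else pq (G.A1 fun i => (θ i).1) (G.E1 fun i => (θ i).1) (G.l + 1) (fun i => (θ i).2.1) b := by
  have c : ∀ i < stg (b / 2), (cut (false, 0, 0) (stg (b / 2)) θ i) = θ i := fun i hi => cut_lt hi _
  have e1 := G.loc_A1.lo (k := b / 2) (y := fun i => (cut (false, 0, 0) (stg (b / 2)) θ i).1)
    (y' := fun i => (θ i).1) (a := fun i => (cut (false, 0, 0) (stg (b / 2)) θ i).2.1)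
    (a' := fun i => (θ i).2.1) (fun i hi => by rw [c i hi]) fun i hi _ => by rw [c i hi]
  have e2 := G.loc_A2.lo (k := b / 2) (y := fun i => (cut (false, 0, 0) (stg (b / 2)) θ i).1)
    (y' := fun i => (θ i).1) (a := fun i => (cut (false, 0, 0) (stg (b / 2)) θ i).2.2)
    (a' := fun i => (θ i).2.2) (fun i hi => by rw [c i hi]) fun i hi _ => by rw [c i hi]
  have e3 := G.loc_E1.XX (j := stg (b / 2)) (y := fun i => (cut (false, 0, 0) (stg (b / 2)) θ i).1)
    (y' := fun i => (θ i).1) fun i hi => by rw [c i hi]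
  have e4 := G.loc_E2.XX (j := stg (b / 2)) (y := fun i => (cut (false, 0, 0) (stg (b / 2)) θ i).1)
    (y' := fun i => (θ i).1) fun i hi => by rw [c i hi]
  have e5 : (AS G).sg θ (stg (b / 2)) =
      et (G.l + 1) (stg (b / 2)) + XX (G.E1 fun i => (θ i).1) (stg (b / 2)) := by
    simp only [Sys.sg, AS, et, XX, ← sum_add_distrib]
    exact sum_congr rfl fun κ _ => by
      rw [if_congr (G.loc_E1.iff le_rfl (y' := fun i => (θ i).1) fun i hi => by rw [cut_lt hi])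
        rfl rfl]
  have e6 := XX_mono (G.E1_sub fun i => (θ i).1) (stg (b / 2))
  rw [Sys.ps, e5]
  simp only [AS, pq, e1, e2, e3, e4]
  split_ifs <;> first | omega | (exfalso; tauto)

/-- The total loss along a thread of an absorbing tree. -/
noncomputable def cc (l : ℕ) (Ω : Set ℕ) (j : ℕ) : ℕ := 3 * XX Ω j + j + et (l + 1) j

theorem AS_thread {G : GD} {g : ℕ → ℝ} (h : Pos (AS G).sch.tree g) :
    ∃ d : ℝ, 0 < d ∧ ∃ y a1 a2, a1 ∈ Tags ∧ a2 ∈ Tags ∧ Sat G.w1 a1 ∧ Sat G.w2 a2 ∧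
      pf y G.s0.length = G.s0 ∧ ∀ Ω k, G.A1 y ⊆ Ω → G.A2 y ⊆ Ω →
        (G.E1 y ⊆ Ω ∧ lo (G.A1 y) (tst k) a1) ∨ (G.E2 y ⊆ Ω ∧ lo (G.A2 y) (tst k) a2) →
        d * 2⁻¹ ^ (BB k + cc G.l Ω (stg k)) ≤ g (md k) := by
  classical
  obtain ⟨ν, h1, h2, h3, h4⟩ := h
  obtain ⟨W, hW⟩ := Sys.exists_wt h1 h2 h3 h4
  obtain ⟨θ, t1, -, t2⟩ := hW.greedy (fun j q => 1 + (if j ∈ G.A1 (fun i => (q i).1) then gam j
    else 0) + if j ∈ G.A2 (fun i => (q i).1) then gam j else 0)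
    (fun j θ _ => ⟨_, G.card_op _ _, fun v hv _ => hv⟩) (hW.root fun _ => (false, 0, 0))
  have m : ∀ j, θ j ∈ G.op j fun i => (θ i).1 := fun j => AS_opt G θ j ▸ t1 j
  simp only [GD.op, mem_product, mem_filter, mem_univ, true_and] at m
  have o1 : ∀ (w : Wd) (A : Set ℕ) (a : ℕ → ℕ), dm w ⊆ A → (∀ j, a j ∈ ob w j A) →
      a ∈ Tags ∧ Sat w a := by
    intro w A a e1 e2
    refine ⟨fun j => ?_, fun p hp => ?_⟩
    · have := e2 j
      unfold ob at this
      split_ifs at this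
      · exact mem_range.mp (mem_filter.mp this).1
      · rw [mem_singleton.mp this]; positivity
    · have := e2 p.1
      rw [ob, if_pos (e1 ⟨p, hp, rfl⟩)] at this
      exact (mem_filter.mp this).2 p hp rfl
  have o2 := o1 G.w1 _ (fun i => (θ i).2.1) Set.subset_union_right fun j => (m j).2.1
  have o3 := o1 G.w2 _ (fun i => (θ i).2.2) Set.subset_union_right fun j => (m j).2.2
  refine ⟨_, hW.root fun _ => (false, 0, 0), fun i => (θ i).1, _, _, o2.1, o3.1, o2.2, o3.2,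
    List.ext_getElem (by simp) fun n e1 e2 => by simpa [pf] using (m n).1 e2,
    fun Ω k e1 e2 e3 => ?_⟩
  have f1 := hW.le θ (2 * k + 1) (md k)
  rw [show (2 * k + 1) / 2 = k by omega, md, Nat.sub_self, add_zero] at f1
  refine le_trans ?_ ((mul_le_mul_of_nonneg_right (t2 _) (hp_pos _).le).trans f1)
  rw [mul_assoc, ← pow_add]
  refine mul_le_mul_of_nonneg_left (hp_anti ?_) (hW.nn _ _)
  have f2 : ∑ κ ∈ range (stg k), (1 + (if κ ∈ G.A1 (fun i => (cut (AS G).v0 κ θ i).1) then gam κ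
      else 0) + if κ ∈ G.A2 (fun i => (cut (AS G).v0 κ θ i).1) then gam κ else 0) =
      stg k + XX (G.A1 fun i => (θ i).1) (stg k) + XX (G.A2 fun i => (θ i).1) (stg k) := by
    rw [sum_add_distrib, sum_add_distrib, sum_const, card_range, smul_eq_mul, mul_one]
    congr 1
    · congr 1
      exact sum_congr rfl fun κ _ => if_congr
        (G.loc_A1.iff le_rfl fun i hi => by rw [cut_lt hi]) rfl rfl
    · exact sum_congr rfl fun κ _ => if_congr
        (G.loc_A2.iff le_rfl fun i hi => by rw [cut_lt hi]) rfl rfl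
  have f3 := XX_mono e1 (stg k)
  have f4 := XX_mono e2 (stg k)
  rw [f2, AS_ps, show (2 * k + 1) / 2 = k by omega, cc]
  split_ifs with f5
  · have := XX_mono (e3.resolve_left fun e => f5.2.1 e.2).1 (stg k)
    rw [pq_odd f5.2.2]; omega
  · have f6 : lo (G.A1 fun i => (θ i).1) (tst k) fun i => (θ i).2.1 := by
      by_contra hc
      exact f5 ⟨by omega, hc, (e3.resolve_left fun e => hc e.2).2⟩
    have := XX_mono (e3.elim (fun e => e.1) fun e => (G.E1_sub _).trans e.1) (stg k)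
    rw [pq_odd f6]; omega

theorem AS_pos {G : GD} {g : ℕ → ℝ} {M : ℝ} (hM : 0 < M) {y : ℕ → Bool} {a1 a2 : ℕ → ℕ}
    (t1 : a1 ∈ Tags) (t2 : a2 ∈ Tags) (s1 : Sat G.w1 a1) (s2 : Sat G.w2 a2)
    (hy : pf y G.s0.length = G.s0) (d1 : Dom ln (pq (G.A1 y) (G.E1 y) (G.l + 1) a1) g M)
    (d2 : Dom ln (pq (G.A2 y) (G.E2 y) (G.l + 1) a2) g M) : Pos (AS G).sch.tree g := by
  classical
  have o : ∀ (w : Wd) (A : Set ℕ) (a : ℕ → ℕ), a ∈ Tags → Sat w a → ∀ j,
      (if j ∈ A then a j else 0) ∈ ob w j A := by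
    intro w A a e1 e2 j
    unfold ob
    split_ifs
    · exact mem_filter.mpr ⟨mem_range.mpr (e1 j), fun p hp e => e ▸ e2 p hp⟩
    · exact mem_singleton_self _
  have q : ∀ (A E : Set ℕ) (a : ℕ → ℕ) b, pq A E (G.l + 1) (fun j => if j ∈ A then a j else 0) b =
      pq A E (G.l + 1) a b := by
    intro A E a b
    have : lo A (tst (b / 2)) (fun j => if j ∈ A then a j else 0) ↔ lo A (tst (b / 2)) a :=
      and_congr_right fun e => forall₂_congr fun p hp => by simp only [if_pos (e p hp)]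
    simp only [pq, this]
  obtain ⟨ν, n1, n2, n3, n4⟩ := Sys.pos_of_dom (S := AS G) (θ := fun j => (y j,
    if j ∈ G.A1 y then a1 j else 0, if j ∈ G.A2 y then a2 j else 0)) (g := g) (fun j => by
      rw [AS_opt]
      simp only [GD.op, mem_product, mem_filter, mem_univ, true_and]
      refine ⟨fun h => ?_, o _ _ _ t1 s1 j, o _ _ _ t2 s2 j⟩
      have := List.getElem_of_eq hy.symm h
      simpa [pf] using this.symm) hM (fun b m => by
      rw [AS_ps]
      split_ifs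
      · rw [q]; exact d2 b m
      · rw [q]; exact d1 b m)
  exact ⟨ν, n1, n2, n3, fun m n e => Sys.ptree_le (n4 m n e)⟩

/-- Domination by a single homogeneous set. -/
def Sg (l : ℕ) (g : ℕ → ℝ) : Prop :=
  ∃ M : ℕ, ∃ a ∈ Tags, Dom ln (pq (Cc (Ge (2 * l))) ∅ l a) g (M + 1)

/-- The set of gauge sequences attached to a finite stage relation. -/
def BY (F : ℕ → List Bool → List Bool → List Bool → Prop) (g : ℕ → ℝ) : Prop :=
  (∃ l, Sg l g) ∨ ∃ G : GD, G.Valid ∧ F G.t G.s0 G.sb G.s1 ∧ Pos (AS G).sch.tree g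

end Pool.Agent.Lib.S13
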