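import Mathlib
import Pool.Agent.Lib.S13.Kl
import Pool.Agent.Lib.S13.Tr
import Pool.Agent.Lib.S13.Fr

set_option autoImplicit false

namespace Pool.Agent.Lib.S13

open Finset Filter MeasureTheory Topology Pool.Agent.Lib.MP_409048_lc

lemma exists_gauge_pq (a : ℕ → ℕ) : ∃ f : Gauge, Dom ln (pq Set.univ ∅ 0 a) (gs f) 1 ∧
    ∀ b, gs f (Lv ln b) ≤ 2⁻¹ ^ pq Set.univ ∅ 0 a b := by
  set ψ := pq Set.univ ∅ 0 a with hψ
  have p0 : ∀ b, ψ b ≤ ψ (b + 1) ∧ ψ (b + 1) ≤ ψ b + ln b := by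
    intro b
    simp only [hψ, pq, et_zero, XX_empty, ln]
    obtain ⟨k, rfl | rfl⟩ := Nat.even_or_odd' b
    · rw [show (2 * k + 1) / 2 = k by omega, show 2 * k / 2 = k by omega]
      split_ifs <;> omega
    · rw [show (2 * k + 1 + 1) / 2 = k + 1 by omega, show (2 * k + 1) / 2 = k by omega, BB_succ]
      split_ifs <;> omega
  have p1 : Monotone ψ := monotone_nat_of_le_succ fun b => (p0 b).1
  have p2 : ∀ b b', ψ b' ≤ ψ b + (Lv ln b' - Lv ln b) := by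
    intro b b'
    rcases le_total b' b with h | h
    · exact (p1 h).trans (Nat.le_add_right _ _)
    · induction b', h using Nat.le_induction with
      | base => omega
      | succ b' h ih =>
        have e1 := (p0 b').2
        have e2 := (Lv_strictMono ln_pos).monotone h
        rw [Lv_succ]
        omega
  set e : ℕ → ℕ := fun m => sInf (Set.range fun b => ψ b + (m - Lv ln b)) with he
  have e1 : ∀ m b, e m ≤ ψ b + (m - Lv ln b) := fun m b => Nat.sInf_le ⟨b, rfl⟩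
  have e2 : ∀ m, ∃ b, ψ b + (m - Lv ln b) = e m := fun m =>
    Nat.sInf_mem (Set.range_nonempty fun b => ψ b + (m - Lv ln b))
  have e3 : Monotone e := fun m m' h => by
    obtain ⟨b, hb⟩ := e2 m'
    have := e1 m b
    omega
  have e4 : ∀ b, ψ b ≤ e (Lv ln b) := fun b => by
    obtain ⟨b', hb⟩ := e2 (Lv ln b)
    exact hb ▸ p2 b' b
  have e5 : Tendsto e atTop atTop := tendsto_atTop_atTop_of_monotone e3 fun k =>
    ⟨Lv ln (2 * k), le_trans (by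
      have := le_BB k
      simp only [hψ, pq]
      rw [show 2 * k / 2 = k by omega]
      omega) (e4 _)⟩
  obtain ⟨f, hf⟩ := exists_gauge (g := fun m => 2⁻¹ ^ e m) (fun m => hp_pos _)
    (fun m m' h => hp_anti (e3 h))
    ((tendsto_pow_atTop_nhds_zero_of_lt_one (by norm_num) (by norm_num)).comp e5)
  exact ⟨f, fun b m => by rw [hf, one_mul]; exact hp_anti (e1 m b),
    fun b => by rw [hf]; exact hp_anti (e4 b)⟩

lemma sq_le_Gam (j : ℕ) : j * j ≤ Gam j := by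
  induction j with
  | zero => simp
  | succ j ih => simp only [Gam]; nlinarith

lemma cc_bet (l : ℕ) (Ω : Set ℕ) (j : ℕ) : cc l Ω j + j ≤ bet j := by
  have := XX_le Ω j
  have := et_le_Gam (l + 1) j
  unfold cc bet hh; omega

lemma XX_skip {Ω : Set ℕ} (h : Ω ⊆ Cc Set.univ) (ρ : ℕ) : XX Ω (4 * ρ + 4) ≤ Gam (4 * ρ + 2) := by
  have e : ∀ κ, κ % 4 = 2 ∨ κ % 4 = 3 → κ ∉ Ω := fun κ e e' =>
    (h e').elim (by omega) fun t => by have := t.1; omega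
  rw [XX_succ, XX_succ, if_neg (e _ (by omega)), if_neg (e _ (by omega))]
  exact XX_le _ _

lemma cc_light {Ω : Set ℕ} (h : Ω ⊆ Cc Set.univ) (l T0 : ℕ) :
    ∀ᶠ τ in atTop, τ % 2 = 0 → T0 + cc l Ω (2 * τ + 1) ≤ th (2 * τ + 1) := by
  filter_upwards [eventually_ge_atTop (2 * (l + T0 + 2))] with τ h1 h2
  obtain ⟨ρ, rfl⟩ : ∃ ρ, τ = 2 * ρ + 2 := ⟨τ / 2 - 1, by omega⟩
  have e1 := XX_skip h ρ
  have e2 := XX_succ Ω (4 * ρ + 4)
  have e3 := et_le (l + 1) (4 * ρ + 4 + 1)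
  have e4 := Gam_succ (4 * ρ + 4)
  have e5 : Gam (4 * ρ + 4) = 3 * Gam (4 * ρ + 3) + 2 * (4 * ρ + 3) + 1 := rfl
  have e6 : Gam (4 * ρ + 3) = 3 * Gam (4 * ρ + 2) + 2 * (4 * ρ + 2) + 1 := rfl
  have e7 := sq_le_Gam (4 * ρ + 2)
  have e8 : (l + 1) * (4 * ρ + 4 + 1) + T0 ≤ 2 * ((4 * ρ + 2) * (4 * ρ + 2)) := by nlinarith
  rw [show 2 * (2 * ρ + 2) + 1 = 4 * ρ + 4 + 1 by ring]
  unfold cc th
  split_ifs at e2 <;> omega

lemma cc_heavy {Ω : Set ℕ} (h : Ω ⊆ Cc Set.univ) (l T0 : ℕ) :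
    ∀ᶠ τ in atTop, τ % 2 = 0 → 2 * τ ∉ Ω → T0 + cc l Ω (2 * τ + 1) ≤ hh (2 * τ) := by
  filter_upwards [eventually_ge_atTop (2 * (l + T0 + 2))] with τ h1 h2 h3
  obtain ⟨ρ, rfl⟩ : ∃ ρ, τ = 2 * ρ + 2 := ⟨τ / 2 - 1, by omega⟩
  rw [show 2 * (2 * ρ + 2) = 4 * ρ + 4 by ring] at h3 ⊢
  have e1 := XX_skip h ρ
  have e2 := XX_succ Ω (4 * ρ + 4)
  rw [if_neg h3] at e2
  have e3 := et_le (l + 1) (4 * ρ + 4 + 1)
  have e5 : Gam (4 * ρ + 4) = 3 * Gam (4 * ρ + 3) + 2 * (4 * ρ + 3) + 1 := rfl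
  have e6 : Gam (4 * ρ + 3) = 3 * Gam (4 * ρ + 2) + 2 * (4 * ρ + 2) + 1 := rfl
  have e7 := sq_le_Gam (4 * ρ + 2)
  have e8 : (l + 1) * (4 * ρ + 4 + 1) + T0 ≤ 2 * ((4 * ρ + 2) * (4 * ρ + 2)) := by nlinarith
  unfold cc hh
  omega

lemma et_triv (l T0 : ℕ) : ∀ᶠ τ in atTop, T0 + et l (2 * τ + 2) ≤ hh (2 * τ) := by
  filter_upwards [eventually_ge_atTop (l + T0 + 1)] with τ h1
  have e3 := et_le l (2 * τ + 2)
  have e7 := sq_le_Gam (2 * τ)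
  have e8 : l * (2 * τ + 2) + T0 ≤ 2 * ((2 * τ) * (2 * τ)) := by nlinarith
  unfold hh
  omega

lemma exists_uf (e : Fam) : ∃ V : Ultrafilter ℕ, (V : Filter ℕ) ≤ atTop ∧
    ∀ᶠ τ in V, τ % 2 = 0 ∧ fm (τ / 2) = e := by
  have : (atTop ⊓ 𝓟 {τ : ℕ | τ % 2 = 0 ∧ fm (τ / 2) = e}).NeBot := frequently_iff_neBot.mp
    (frequently_atTop.mpr fun n => (fm_freq e n).elim fun ρ h =>
      ⟨2 * ρ, by omega, by omega, by rw [show 2 * ρ / 2 = ρ by omega, h.2]⟩)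
  obtain ⟨V, hV⟩ := Ultrafilter.exists_le (atTop ⊓ 𝓟 {τ : ℕ | τ % 2 = 0 ∧ fm (τ / 2) = e})
  exact ⟨V, hV.trans inf_le_left, le_principal_iff.mp (hV.trans inf_le_right)⟩

/-- Descriptions of test sets. -/
abbrev Ds : Type := ℕ × List Bool × Option (List Bool) × Wd

def DF (δ : Ds) : Set Fam :=
  Ge (2 * δ.1 + 2) ∪ {e | ∃ s ∈ δ.2.2.1, e ∈ Pr (2 * δ.1 + 1) s} ∪ Pr (2 * δ.1) δ.2.1

def TA (δ : Ds) : Set ℕ := Cc (DF δ) ∪ dm δ.2.2.2

/-- The families revealed at a point. -/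
def Rev (P : (ℕ → ℕ) → Ds → Fam → Set Br) (a : ℕ → ℕ) (ξ : Br) : Set Fam :=
  {e | ∃ δ, e ∈ DF δ ∧ ξ ∈ P a δ e}

theorem round {c : Cx} {V : Fam → Ultrafilter ℕ}
    (hV : ∀ e, (V e : Filter ℕ) ≤ atTop ∧ ∀ᶠ τ in V e, τ % 2 = 0 ∧ fm (τ / 2) = e)
    {P : (ℕ → ℕ) → Ds → Fam → Set Br}
    (hP : ∀ a δ e, Tendsto (fun τ => (c.μ a).real (P a δ e ∩ Lt c a (kk (TA δ) τ a))) (V e)
      (𝓝 0) ∧ ∀ Ξ, Tendsto (fun τ => (c.μ a).real (Ξ ∩ Lt c a (kk (TA δ) τ a))) (V e)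
      (𝓝 0) → (c.μ a).real (Ξ \ P a δ e) = 0)
    (σ : St c) (δ : Ds) (Ω : Set Fam) {w1 w2 w : Wd} (h1 : dm w1 ⊆ Cc Set.univ)
    (h2 : dm w2 ⊆ Cc Set.univ) (hw : dm w ⊆ TA δ) (l : ℕ)
    (h : ∀ i, (∀ a ∈ (σ.nd i).X, ¬ Sat w a) ∨ ∀ a ∈ (σ.nd i).X, ∀ ξ ∈ (σ.nd i).Ξ a,
      ¬ (DF δ ⊆ Rev P a ξ ∧ Rev P a ξ ⊆ Ω)) {ε : ℝ} (hε : 0 < ε) :
    ∃ σ' : St c, σ'.Le σ ∧ σ'.Met (TA δ) (cc l (Cc Ω ∪ dm w1 ∪ dm w2)) w ε := by
  have hΩ : Cc Ω ∪ dm w1 ∪ dm w2 ⊆ Cc Set.univ :=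
    Set.union_subset (Set.union_subset (Cc_mono (Set.subset_univ _)) h1) h2
  obtain ⟨σ1, l1, hc⟩ := σ.exists_const (p := fun a => Sat w a)
  obtain ⟨σ2, l2, ht⟩ := σ1.exists_typed (C := Fam ⊕ {p : Ds × Fam // p.2 ∈ DF p.1 ∧ p.2 ∉ Ω})
    (fun θ a => θ.elim (fun e => (P a δ e)ᶜ) (fun p => P a p.1.1 p.1.2) ∪ {_ξ | ¬ Sat w a}) (by
      intro i a ha ξ hξ
      obtain ⟨i0, e⟩ := l1.2.2 i
      rcases h i0 with h | h
      · exact ⟨Sum.inl (0, []), Or.inr (h a (e.1 ha))⟩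
      · rcases not_and_or.mp (h a (e.1 ha) ξ (e.2 a hξ)) with h | h
        · obtain ⟨u, u1, u2⟩ := Set.not_subset.mp h
          exact ⟨Sum.inl u, Or.inl fun f => u2 ⟨δ, u1, f⟩⟩
        · obtain ⟨u, ⟨δ', u1, u3⟩, u2⟩ := Set.not_subset.mp h
          exact ⟨Sum.inr ⟨(δ', u), u1, u2⟩, Or.inl u3⟩)
  obtain ⟨σ3, l3, e3⟩ := σ2.exists_met (A := TA δ) (cc := cc l (Cc Ω ∪ dm w1 ∪ dm w2)) (w := w)
    (fun κ e => Or.inl (Or.inl e)) (cc_bet _ _) (fun i => by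
      have ok := σ2.ok i
      by_cases hs : ∀ a ∈ (σ2.nd i).X, ¬ Sat w a
      · exact kill_unsat ok (cc_bet _ _) (fun p hp => hw ⟨p, hp, rfl⟩) hs
      push Not at hs
      obtain ⟨a0, ha0, hs⟩ := hs
      obtain ⟨i1, e⟩ := l2.2.2 i
      have hs' : ∀ a ∈ (σ2.nd i).X, Sat w a := fun a ha => hc i1 a0 (e.1 ha0) a (e.1 ha) ▸ hs
      obtain ⟨u | p, hθ⟩ := ht i
      · refine kill_light ok (hV u).1 (cc_bet _ _) (fun T0 => ?_) fun a ha Ξ e1 e2 => ?_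
        · filter_upwards [(cc_light hΩ l T0).filter_mono (hV u).1, (hV u).2] with τ f1 f2
          exact f1 f2.1
        · have := (hP a δ u).2 Ξ e2
          rwa [sdiff_eq_left.mpr (Set.subset_compl_iff_disjoint_right.mp fun ξ hξ =>
            (hθ a (e1 hξ)).resolve_right fun f => f (hs' a ha))] at this
      · refine kill_heavy ok (hV p.1.2).1 (A' := TA p.1.1) ((hV p.1.2).2.mono fun τ f =>
          ⟨f.1, Or.inl (Or.inr ⟨by omega, ?_⟩)⟩) (fun T0 => ?_) fun a ha =>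
          squeeze_zero (fun _ => measureReal_nonneg) (fun τ => measureReal_mono
            (Set.inter_subset_inter_left _ fun ξ hξ =>
              (hθ a hξ).resolve_right fun f => f (hs' a ha))) (hP a _ _).1
        · rw [show 2 * τ / 4 = τ / 2 by omega, f.2]; exact p.2.1
        · filter_upwards [(cc_heavy hΩ l T0).filter_mono (hV p.1.2).1, (hV p.1.2).2,
            (eventually_gt_atTop (∑ q ∈ w1, q.1 + ∑ q ∈ w2, q.1)).filter_mono (hV p.1.2).1]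
            with τ f1 f2 f3
          refine f1 f2.1 ?_
          rintro (((f | f) | ⟨q, f, f'⟩) | ⟨q, f, f'⟩)
          · omega
          · exact p.2.2 (by rw [← f2.2, ← show 2 * τ / 4 = τ / 2 by omega]; exact f.2)
          · have := single_le_sum (f := fun q : ℕ × ℕ => q.1) (fun _ _ => Nat.zero_le _) f
            omega
          · have := single_le_sum (f := fun q : ℕ × ℕ => q.1) (fun _ _ => Nat.zero_le _) f
            omega) hε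
  exact ⟨σ3, l3.trans (l2.trans l1), e3⟩

theorem exists_init {c : Cx} {X : Set (ℕ → ℕ)} (h1 : ¬ c.I.sm X) (h2 : X ⊆ Tags)
    (Ξ : (ℕ → ℕ) → Set Br) (h3 : ∀ a ∈ X, 0 < (c.μ a).real (Ξ a)) :
    ∃ σ : St c, σ.N = 0 ∧ (∀ n, σ.Ω n = if n = 0 then 1 else 0) ∧
      ∀ i, (σ.nd i).X ⊆ X ∧ (σ.nd i).Ξ = Ξ := by
  obtain ⟨q, hq⟩ := Idl.pig (C := ℕ) h1 (p := fun a q => 1 ≤ q * (c.μ a).real (Ξ a))
    fun a ha => (exists_nat_ge (1 / (c.μ a).real (Ξ a))).imp fun q e =>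
      (div_le_iff₀ (h3 a ha)).mp e
  have c0 : cs 0 0 = Set.univ := Set.eq_univ_of_forall fun _ => rfl
  exact ⟨{
      ι := Unit
      nd := fun _ => ⟨_, Ξ, fun n => if n = 0 then 1 else 0, q⟩
      N := 0
      ok := fun _ => ⟨hq, fun a ha => h2 ha.1, by positivity,
        fun n => by dsimp only; split_ifs <;> norm_num, fun a ha n => by
          dsimp only
          split_ifs with e
          · rw [e, c0, Set.inter_univ]; exact ha.2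
          · exact mul_nonneg (by positivity) measureReal_nonneg⟩
      sep := fun i i' e => absurd rfl e }, rfl, fun n => by simp [St.Ω],
    fun _ => ⟨fun a ha => ha.1, rfl⟩⟩

theorem attack {c : Cx} {φ : (ℕ → ℕ) → ℝ} (hφ : Continuous φ) {s : ℝ} {Z : Br → ℕ → ℕ}
    (σ0 : St c) (s0 : σ0.N = 0) (s1 : ∀ n, σ0.Ω n = if n = 0 then 1 else 0)
    (s2 : ∀ i a, ∀ ξ ∈ (σ0.nd i).Ξ a, ∀ m, φ (Z ξ) ∈ dy s m (cell m ξ))
    {ι : Type} [Countable ι] {Θ : ι → Type} (R : ∀ i, Θ i → ℕ → ℕ → Prop) (i0 : ι) (θ0 : Θ i0)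
    (h3 : ∀ i (σ : St c), σ.Le σ0 → ∀ ε : ℝ, 0 < ε → ∃ σ' : St c, σ'.Le σ ∧
      ∀ θ, ∃ k e, R i θ k e ∧ σ'.Sm k (ε * 2⁻¹ ^ (BB k + e))) :
    ∃ f : Gauge, 0 < haus f (Set.range φ) ∧ ∀ i (ε : ℝ), 0 < ε → ∀ θ, ∃ k e,
      R i θ k e ∧ gs f (md k) ≤ ε * 2⁻¹ ^ (BB k + e) := by
  have : Nonempty (ι × ℕ) := ⟨(i0, 0)⟩
  obtain ⟨en, hen⟩ := exists_surjective_nat (ι × ℕ)
  have step : ∀ (j : ℕ) (σ : {σ : St c // σ.Le σ0}), ∃ σ' : {σ : St c // σ.Le σ0},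
      σ'.1.Le σ.1 ∧ σ.1.N < σ'.1.N ∧ (∃ T, ∀ i a, ∀ ξ ∈ (σ'.1.nd i).Ξ a, Z ξ j ≤ T) ∧
      ∀ θ, ∃ k e, R (en j).1 θ k e ∧ σ'.1.Sm k (1 / ((en j).2 + 1) * 2⁻¹ ^ (BB k + e)) := by
    intro j σ
    obtain ⟨σ1, l1, e1, -⟩ := σ.1.exists_refine (σ.1.N + 1)
    obtain ⟨σ2, l2, e2⟩ := h3 (en j).1 σ1 (l1.trans σ.2) (1 / ((en j).2 + 1)) (by positivity)
    obtain ⟨σ3, l3, e3⟩ := σ2.exists_bdd fun ξ => Z ξ j
    exact ⟨⟨σ3, l3.trans (l2.trans (l1.trans σ.2))⟩, l3.trans (l2.trans l1),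
      lt_of_lt_of_le e1 (l2.1.trans l3.1), e3,
      fun θ => (e2 θ).imp fun k e => e.imp fun _ e => ⟨e.1, e.2.of_le l3⟩⟩
  choose F hF1 hF2 hF4 hF3 using step
  obtain ⟨σ, t0, t1⟩ : ∃ σ : ℕ → {σ : St c // σ.Le σ0}, (σ 0).1 = σ0 ∧
      ∀ j, σ (j + 1) = F j (σ j) :=
    ⟨fun j => Nat.rec ⟨σ0, St.Le.refl _⟩ F j, rfl, fun _ => rfl⟩
  choose T hT using fun j => hF4 j (σ j)
  have hN : StrictMono fun j => (σ j).1.N :=
    strictMono_nat_of_lt_succ fun j => by rw [t1]; exact hF2 _ _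
  have hL : ∀ j j', j ≤ j' → (σ j').1.Le (σ j).1 := by
    intro j j' h
    induction j', h using Nat.le_induction with
    | base => exact St.Le.refl _
    | succ j' h ih => rw [t1]; exact (hF1 _ _).trans ih
  obtain ⟨ν, n1, n2⟩ := exists_flow_of_levels _ hN (fun j => (σ j).1.Ω)
    (fun j => (σ j).1.Ω_nonneg) fun j n => ((hL j (j + 1) j.le_succ).2.1 n).symm
  have n3 : ∀ n, ν 0 n = if n = 0 then 1 else 0 := fun n => by
    rw [n2 0 0 n (Nat.zero_le _), t0, s0, ms_zero, s1]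
  have n4 : ∀ m, BddAbove (Set.range (ν m)) := fun m => ⟨1, by
    rintro _ ⟨n, rfl⟩
    have := n1.le_anc m 0 n
    rw [zero_add, n3] at this
    refine this.trans ?_
    split_ifs <;> norm_num⟩
  set g : ℕ → ℝ := fun m => ⨆ n, ν m n with hg
  have g1 : ∀ m n, ν m n ≤ g m := fun m n => le_ciSup (n4 m) n
  have g2 : Antitone g := antitone_nat_of_succ_le fun m =>
    ciSup_le fun n => (n1.le_anc 1 m n).trans (g1 _ _)
  have g3 : ∀ m, 0 < g m := fun m => by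
    have := n1.eq_ms m 0 0
    rw [n3, if_pos rfl, zero_add] at this
    obtain ⟨n, -, e⟩ := exists_of_ms_pos (one_pos.trans_eq this)
    exact e.trans_le (g1 _ _)
  have g4 : ∀ i (ε : ℝ), 0 < ε → ∀ θ, ∃ k e, R i θ k e ∧ g (md k) ≤ ε * 2⁻¹ ^ (BB k + e) := by
    intro i ε hε θ
    obtain ⟨n, hn⟩ := exists_nat_one_div_lt hε
    obtain ⟨j, hj⟩ := hen (i, n)
    have := hF3 j (σ j)
    rw [← t1, hj] at this
    obtain ⟨k, e, k1, k2, k3⟩ := this θ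
    refine ⟨k, e, k1, ciSup_le fun n' => ?_⟩
    rw [n2 (j + 1) _ _ k2]
    exact (k3 n').trans (mul_le_mul_of_nonneg_right hn.le (hp_pos _).le)
  have g5 : Tendsto g atTop (𝓝 0) := by
    refine tendsto_order.mpr ⟨fun x hx => Eventually.of_forall fun m => hx.trans (g3 m),
      fun x hx => ?_⟩
    obtain ⟨k, e, -, hk⟩ := g4 i0 (x / 2) (by linarith) θ0
    have : (2⁻¹ : ℝ) ^ (BB k + e) ≤ 1 := pow_le_one₀ (by norm_num) (by norm_num)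
    filter_upwards [eventually_ge_atTop (md k)] with m hm
    nlinarith [g2 hm]
  obtain ⟨f, hf⟩ := exists_gauge g3 g2 g5
  rw [← funext hf] at g4 g1
  have hK : IsCompact (Set.univ.pi fun j => Set.Iic (T j)) :=
    isCompact_univ_pi fun j => (Set.finite_Iic _).isCompact
  refine ⟨f, (haus_pos_of_flow (hK.image hφ).isClosed f s n1 (by simp [n3]) g1
    fun m n _ hp => ?_).trans_le (haus_mono f (Set.image_subset_range _ _)), g4⟩
  have key : ∀ J, ∃ z : ℕ → ℕ, (∀ j < J, z j ≤ T j) ∧ φ z ∈ dy s m n := by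
    intro J
    have e0 : m ≤ (σ (m + J)).1.N := le_trans (Nat.le_add_right _ _) (hN.id_le _)
    rw [n2 (m + J) m n e0] at hp
    obtain ⟨n', e1, e2⟩ := exists_of_ms_pos hp
    obtain ⟨i, -, e3⟩ := exists_lt_of_sum_lt (s := univ) (f := fun _ => (0 : ℝ))
      (g := fun i => ((σ (m + J)).1.nd i).ω n') (by simpa [St.Ω] using e2)
    obtain ⟨a, ha⟩ := Idl.ne ((σ (m + J)).1.ok i).nn
    have e4 := pos_of_mul_pos_right (e3.trans_le (((σ (m + J)).1.ok i).le a ha n'))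
      ((σ (m + J)).1.ok i).L0
    obtain ⟨ξ, x1, x2⟩ : (((σ (m + J)).1.nd i).Ξ a ∩ cs (σ (m + J)).1.N n').Nonempty := by
      by_contra hc
      simp [Set.not_nonempty_iff_eq_empty.mp hc] at e4
    refine ⟨Z ξ, fun j hj => ?_, ?_⟩
    · obtain ⟨i', e⟩ := (hL (j + 1) (m + J) (by omega)).2.2 i
      have := hT j
      rw [← t1] at this
      exact this i' a ξ (e.2 a x1)
    · obtain ⟨i', e⟩ := (σ (m + J)).2.2.2 i
      have := s2 i' a ξ (e.2 a x1) m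
      rwa [← cell_anc m ((σ (m + J)).1.N - m), Nat.add_sub_cancel' e0, show cell _ ξ = n' from x2,
        e1] at this
  choose z z1 z2 using key
  obtain ⟨x, hx⟩ := B87.cluster z T z1
  refine ⟨φ x, (isClosed_Icc.preimage hφ).mem_of_mapClusterPt hx (Eventually.of_forall z2),
    x, fun j _ => ?_, rfl⟩
  exact (isClosed_le (continuous_apply j) continuous_const).mem_of_mapClusterPt hx
    ((eventually_gt_atTop j).mono fun J e => z1 J j e)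

end Pool.Agent.Lib.S13
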