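import Mathlib
import Pool.Agent.Lib.MP_409048_lc.Defs

set_option autoImplicit false

namespace Pool.Agent.Lib.S13

open Pool.Agent.Lib.MP_409048_lc

/-- Boldface `Σ¹₂` subsets of `ω^ω × ω^ω`: projections of coanalytic sets. -/
def IsSigma12Two (A : Set ((ℕ → ℕ) × (ℕ → ℕ))) : Prop :=
  ∃ P : Set (((ℕ → ℕ) × (ℕ → ℕ)) × (ℕ → ℕ)), MeasureTheory.AnalyticSet Pᶜ ∧ A = Prod.fst '' P

/-- Boldface `Σ¹₃` subsets of Baire space: projections of complements of `Σ¹₂` sets. -/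
def IsSigma13 (A : Set (ℕ → ℕ)) : Prop :=
  ∃ P : Set ((ℕ → ℕ) × (ℕ → ℕ)), IsSigma12Two Pᶜ ∧ A = Prod.fst '' P

/-- The codes of sets of the form `I(E)` with `E` in the class `Γ`. -/
def codesOf (O : ℕ → Set Gauge) (Γ : Set ℝ → Prop) : Set (ℕ → ℕ) :=
  {c | ∃ E : Set ℝ, Γ E ∧ coded O c = posGauges E}

end Pool.Agent.Lib.S13
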