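import Mathlib
import Pool.Agent.Lib.MP_409048_lc.Member
import Pool.Agent.Lib.S13.Defs
import Pool.Agent.Lib.S13.Fr

set_option autoImplicit false

namespace Pool.Agent.Lib.S13

open Set Filter Topology MeasureTheory Pool.Agent.Lib.MP_409048_lc

section
variable {X Y : Type} [TopologicalSpace X] [TopologicalSpace Y]

lemma an_inter [T2Space X] {s t : Set X} (hs : AnalyticSet s) (ht : AnalyticSet t) :
    AnalyticSet (s ∩ t) := by
  rw [inter_eq_iInter]
  exact AnalyticSet.iInter fun b => by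
    cases b
    exacts [ht, hs]

lemma an_union {s t : Set X} (hs : AnalyticSet s) (ht : AnalyticSet t) : AnalyticSet (s ∪ t) := by
  rw [union_eq_iUnion]
  exact AnalyticSet.iUnion fun b => by
    cases b
    exacts [ht, hs]

lemma an_ex {p : X → Y → Prop} (h : AnalyticSet {q : X × Y | p q.1 q.2}) :
    AnalyticSet {x | ∃ y, p x y} := by
  convert h.image_of_continuous continuous_fst
  ext x
  simp

/-- Sets of the form: for all reals, an analytic condition holds. -/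
def P2 (S : Set X) : Prop :=
  ∃ R : Set (X × (ℕ → ℕ)), AnalyticSet R ∧ S = {x | ∀ q, (x, q) ∈ R}

variable [PolishSpace X] [PolishSpace Y]

lemma P2.an {S : Set X} (h : AnalyticSet S) : P2 S :=
  ⟨Prod.fst ⁻¹' S, h.preimage continuous_fst, by ext x; simp⟩

lemma P2.co {S : Set X} (h : AnalyticSet Sᶜ) : P2 S := by
  rw [AnalyticSet] at h
  rcases h with h | ⟨φ, h1, h2⟩
  · rw [compl_empty_iff.mp h]
    exact P2.an isClosed_univ.analyticSet
  · borelize (X × (ℕ → ℕ))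
    refine ⟨{q | φ q.2 = q.1}ᶜ, (isClosed_eq (by fun_prop)
      continuous_fst).measurableSet.compl.analyticSet, ?_⟩
    rw [← compl_compl S, ← h2]
    ext x
    simp

lemma P2.inter {S T : Set X} (h : P2 S) (h' : P2 T) : P2 (S ∩ T) := by
  obtain ⟨R, r, rfl⟩ := h
  obtain ⟨R', r', rfl⟩ := h'
  exact ⟨R ∩ R', an_inter r r', by ext x; simp [forall_and]⟩

lemma P2.pre {S : Set Y} (h : P2 S) {f : X → Y} (hf : Continuous f) : P2 (f ⁻¹' S) := by
  obtain ⟨R, r, rfl⟩ := h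
  exact ⟨(fun q => (f q.1, q.2)) ⁻¹' R, r.preimage (by fun_prop), rfl⟩

lemma P2.all [Nonempty Y] {p : X → Y → Prop} (h : P2 {q : X × Y | p q.1 q.2}) :
    P2 {x | ∀ y, p x y} := by
  obtain ⟨R, r, e⟩ := h
  obtain ⟨π, p1, p2⟩ := PolishSpace.exists_nat_nat_continuous_surjective (Y × (ℕ → ℕ))
  refine ⟨(fun q => ((q.1, (π q.2).1), (π q.2).2)) ⁻¹' R, r.preimage (by fun_prop), ?_⟩
  ext x
  refine ⟨fun h q => (Set.ext_iff.mp e (x, _)).mp (h _) _, fun h y => ?_⟩
  refine (Set.ext_iff.mp e (x, y)).mpr fun q => ?_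
  obtain ⟨z, hz⟩ := p2 (y, q)
  have := h z
  simp only [mem_preimage, hz] at this
  exact this

lemma P2.s13 [Nonempty X] {p : (ℕ → ℕ) → X → Prop} (h : P2 {q : (ℕ → ℕ) × X | p q.1 q.2}) :
    IsSigma13 {c | ∃ x, p c x} := by
  obtain ⟨π, p1, p2⟩ := PolishSpace.exists_nat_nat_continuous_surjective X
  obtain ⟨R, r, e⟩ := h.pre (f := fun q : (ℕ → ℕ) × (ℕ → ℕ) => (q.1, π q.2)) (by fun_prop)
  refine ⟨_, ⟨Rᶜ, by rwa [compl_compl], ?_⟩, (?_ : _ = Prod.fst '' {x | ∀ q, (x, q) ∈ R})⟩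
  · ext x
    simp
  · rw [← e]
    ext c
    simp only [mem_ofPred_eq, mem_image, mem_preimage, Prod.exists, exists_and_right,
      exists_eq_right]
    exact p2.exists

theorem an_pos {ψ : Y → Gauge} (hψ : Continuous ψ) {U : Set (X × ℝ)} (hU : AnalyticSet U) :
    AnalyticSet {q : X × Y | 0 < haus (ψ q.2) {x | (q.1, x) ∈ U}} := by
  classical
  rw [AnalyticSet] at hU
  rcases hU with rfl | ⟨Φ, hΦ, rfl⟩
  · simpa [haus] using analyticSet_empty
  set τ : (ℕ → ℕ) → ℤ → ℕ → ℕ → Prop := fun e a m n => e (Encodable.encode (a, m, n)) = 1 with hτ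
  have key : ∀ p f, 0 < haus f {x | (p, x) ∈ range Φ} ↔ ∃ z : (ℕ → ℕ) × (ℕ → ℕ),
      (∃ a, Pos (τ z.1 a) (gs f)) ∧ ∀ u : ℤ × ℕ × ℕ, ¬ τ z.1 u.1 u.2.1 u.2.2 ∨
        ∃ w, w ≤ z.2 ∧ (Φ w).1 = p ∧ (Φ w).2 ∈ dy u.1 u.2.1 u.2.2 := by
    intro p f
    constructor
    · intro h
      obtain ⟨χ, -, c1, c2⟩ := PiNat.exists_retraction_of_isClosed (E := fun _ => ℕ)
        (s := {w | (Φ w).1 = p}) (isClosed_eq (by fun_prop) continuous_const) (by
          obtain ⟨x, w, hw⟩ := nonempty_of_measure_ne_zero h.ne'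
          exact ⟨w, congrArg Prod.fst hw⟩)
      obtain ⟨L, l1, l2⟩ := frost (φ := fun w => (Φ (χ w)).2) (by fun_prop) f
        (h.trans_le (haus_mono f (by
          rintro x ⟨w, hw⟩
          obtain ⟨w, rfl⟩ := c1.ge (show (Φ w).1 = p from congrArg Prod.fst hw)
          exact ⟨w, congrArg Prod.snd hw⟩)))
      choose b hb using fun i => (l1.image ((continuous_apply i).comp c2)).bddAbove
      obtain ⟨a, ha⟩ := (haus_pos_iff f (l1.image (by fun_prop)).isClosed).mp l2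
      set C := (fun w => (Φ (χ w)).2) '' L
      obtain ⟨t, e⟩ : ∃ t, ∀ a, τ t a = tr C a :=
        ⟨fun k => if ∃ x : ℤ × ℕ × ℕ, Encodable.encode x = k ∧ tr C x.1 x.2.1 x.2.2 then 1 else 0,
          fun a => by
            funext m n
            simp [hτ]⟩
      refine ⟨(t, b), ⟨a, by rwa [e]⟩, fun u => ?_⟩
      rw [e]
      refine or_iff_not_imp_left.mpr fun c => ?_
      obtain ⟨_, c3, w, c4, rfl⟩ := not_not.mp c
      exact ⟨χ w, fun i => hb i ⟨w, c4, rfl⟩, c1.le (mem_range_self w), c3⟩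
    · rintro ⟨z, ⟨a, ν, h1, h2, h3, h4⟩, h⟩
      have k : IsCompact ((fun w => (Φ w).2) '' (Icc 0 z.2 ∩ {w | (Φ w).1 = p})) :=
        (isCompact_Icc.inter_right (isClosed_eq (by fun_prop) continuous_const)).image (by fun_prop)
      refine (haus_pos_of_flow k.isClosed f a h1 h2 h3 fun m n _ hp => ?_).trans_le
        (haus_mono f ?_)
      · obtain ⟨w, w1, w2, w3⟩ := (h (a, m, n)).resolve_left (not_not.mpr (h4 m n hp))
        exact ⟨_, w3, w, ⟨⟨zero_le, w1⟩, w2⟩, rfl⟩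
      · rintro _ ⟨w, hw, rfl⟩
        exact ⟨w, Prod.ext hw.2 rfl⟩
  simp only [key]
  borelize X Y
  refine an_ex (an_inter (MeasurableSet.analyticSet ?_) ?_)
  · change MeasurableSet {q : (X × Y) × (ℕ → ℕ) × (ℕ → ℕ) | ∃ a, Pos (τ q.2.1 a) (gs (ψ q.1.2))}
    simp only [Set.ofPred_exists, pos_iff_cap (gs_nonneg _)]
    exact MeasurableSet.iUnion fun a => measurableSet_lt measurable_const
      (Measurable.iInf fun d => measurable_cN (fun m n => measurableSet_eq_fun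
        ((measurable_pi_apply _).comp (measurable_fst.comp measurable_snd)) measurable_const)
        (fun m => ((continuous_gs m).comp hψ).measurable.comp
          (measurable_snd.comp measurable_fst)) d 0 0)
  · change AnalyticSet {q : (X × Y) × (ℕ → ℕ) × (ℕ → ℕ) | ∀ u : ℤ × ℕ × ℕ,
      ¬ τ q.2.1 u.1 u.2.1 u.2.2 ∨
        ∃ w, w ≤ q.2.2 ∧ (Φ w).1 = q.1.1 ∧ (Φ w).2 ∈ dy u.1 u.2.1 u.2.2}
    rw [Set.ofPred_forall]
    have : TopologicalSpace.IsCompletelyMetrizableSpace ((X × Y) × (ℕ → ℕ) × (ℕ → ℕ)) :=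
      inferInstance
    have : SecondCountableTopology ((X × Y) × (ℕ → ℕ) × (ℕ → ℕ)) := inferInstance
    refine AnalyticSet.iInter fun u => an_union (MeasurableSet.analyticSet (MeasurableSet.compl
      (measurableSet_eq_fun ((measurable_pi_apply _).comp (measurable_fst.comp measurable_snd))
        measurable_const))) (an_ex (IsClosed.analyticSet ?_))
    simp only [Set.ofPred_and]
    refine IsClosed.inter (isClosed_le ?_ ?_) (IsClosed.inter (isClosed_eq ?_ ?_)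
      (isClosed_Icc.preimage (f := fun q : ((X × Y) × (ℕ → ℕ) × (ℕ → ℕ)) × (ℕ → ℕ) => (Φ q.2).2)
        ?_)) <;> fun_prop

theorem member_of [Nonempty X] {O : ℕ → Set Gauge}
    (hO : TopologicalSpace.IsTopologicalBasis (range O)) {Γ : Set ℝ → Prop} {U : Set (X × ℝ)}
    (hU : AnalyticSet U) {D : Set X} (hD : P2 D)
    (h : ∀ E, Γ E ↔ ∃ p ∈ D, E = {x | (p, x) ∈ U}) : IsSigma13 (codesOf O Γ) := by
  obtain ⟨β, i1, i2, ψ, h1, h2⟩ := exists_polish_param
  have : Nonempty β := (exists_gs_lt one_pos).elim fun f _ => (h2 f).nonempty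
  borelize X β
  have m1 : MeasurableSet {q : ((ℕ → ℕ) × X) × β | ψ q.2 ∈ coded O q.1.1} := by
    simp only [coded, Set.mem_iUnion, Set.mem_compl_iff, Set.ofPred_exists, not_exists,
      Set.ofPred_forall]
    refine MeasurableSet.iUnion fun n => MeasurableSet.iInter fun j => MeasurableSet.compl ?_
    have : {q : ((ℕ → ℕ) × X) × β | ψ q.2 ∈ O (q.1.1 (Nat.pair n j))} =
        ⋃ i, {q | q.1.1 (Nat.pair n j) = i} ∩ {q | ψ q.2 ∈ O i} := by
      ext q; simp
    change MeasurableSet {q : ((ℕ → ℕ) × X) × β | ψ q.2 ∈ O (q.1.1 (Nat.pair n j))}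
    rw [this]
    exact MeasurableSet.iUnion fun i => (measurableSet_eq_fun
      ((measurable_pi_apply _).comp (measurable_fst.comp measurable_fst)) measurable_const).inter
      (measurable_snd ((hO.isOpen ⟨i, rfl⟩).preimage h1).measurableSet)
  have m2 : AnalyticSet {q : ((ℕ → ℕ) × X) × β | 0 < haus (ψ q.2) {x | (q.1.2, x) ∈ U}} :=
    (an_pos h1 hU).preimage (f := fun q : ((ℕ → ℕ) × X) × β => (q.1.2, q.2)) (by fun_prop)
  have m3 : P2 {q : ((ℕ → ℕ) × X) × β |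
      ψ q.2 ∈ coded O q.1.1 ↔ 0 < haus (ψ q.2) {x | (q.1.2, x) ∈ U}} := by
    convert (P2.an (an_union m1.compl.analyticSet m2)).inter
      (P2.co (S := (_ ∩ _)ᶜ) (by rw [compl_compl]; exact an_inter m1.compl.analyticSet m2))
    ext q
    simp only [mem_ofPred_eq, mem_inter_iff, mem_union, mem_compl_iff]
    tauto
  convert P2.s13 (p := fun c p => p ∈ D ∧
      ∀ b, ψ b ∈ coded O c ↔ 0 < haus (ψ b) {x | (p, x) ∈ U})
    ((hD.pre continuous_snd).inter (P2.all m3))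
  ext c
  constructor
  · rintro ⟨E, e1, e2⟩
    obtain ⟨p, p1, rfl⟩ := (h E).mp e1
    exact ⟨p, p1, fun b => by rw [e2]; rfl⟩
  · rintro ⟨p, p1, p2⟩
    refine ⟨_, (h _).mpr ⟨p, p1, rfl⟩, Set.ext fun f => ?_⟩
    obtain ⟨b, rfl⟩ := h2 f
    exact p2 b

lemma exists_univ_closed (X : Type) [TopologicalSpace X] [SecondCountableTopology X] :
    ∃ C : Set ((ℕ → ℕ) × X), IsClosed C ∧ ∀ D, IsClosed D → ∃ p, D = {z | (p, z) ∈ C} := by
  classical
  obtain ⟨B, hB⟩ := ((TopologicalSpace.countable_countableBasis X).insert ∅).exists_eq_range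
    (insert_nonempty _ _)
  have h := (TopologicalSpace.isBasis_countableBasis X).insert_empty
  rw [hB] at h
  refine ⟨⋂ i, ({q | q.1 i = 0} ∪ {q | q.2 ∈ (B i)ᶜ}), isClosed_iInter fun i =>
    (isClosed_eq (by fun_prop) continuous_const).union
      ((h.isOpen ⟨i, rfl⟩).isClosed_compl.preimage continuous_snd), fun D hD =>
    ⟨fun i => if B i ⊆ Dᶜ then 1 else 0, Set.ext fun z => ?_⟩⟩
  simp only [mem_ofPred_eq, mem_iInter, mem_union]
  refine ⟨fun e i => ?_, fun e => by_contra fun c => ?_⟩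
  · split_ifs with c
    exacts [Or.inr fun c' => c c' e, Or.inl rfl]
  · obtain ⟨_, ⟨i, rfl⟩, c1, c2⟩ := h.exists_subset_of_mem_open c hD.isOpen_compl
    have := e i
    rw [if_pos c2] at this
    exact this.elim one_ne_zero fun c3 => c3 c1

end

lemma exists_univ_an : ∃ U : Set ((ℕ → ℕ) × ℝ), AnalyticSet U ∧
    ∀ E, AnalyticSet E ↔ ∃ p, E = {x | (p, x) ∈ U} := by
  obtain ⟨C, c1, c2⟩ := exists_univ_closed (ℝ × (ℕ → ℕ))
  have h : AnalyticSet {q : (ℕ → ℕ) × ℝ | ∃ w, (q.1, q.2, w) ∈ C} :=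
    an_ex (c1.preimage (f := fun q : ((ℕ → ℕ) × ℝ) × (ℕ → ℕ) => (q.1.1, q.1.2, q.2))
      (by fun_prop)).analyticSet
  refine ⟨_, h, fun E => ⟨fun e => ?_, ?_⟩⟩
  · rw [AnalyticSet] at e
    rcases e with rfl | ⟨φ, e, rfl⟩
    · obtain ⟨p, hp⟩ := c2 ∅ isClosed_empty
      exact ⟨p, Set.ext fun x => ⟨False.elim, fun ⟨w, hw⟩ => (Set.ext_iff.mp hp (x, w)).mpr hw⟩⟩
    · obtain ⟨p, hp⟩ := c2 {z | φ z.2 = z.1} (isClosed_eq (by fun_prop) continuous_fst)
      exact ⟨p, Set.ext fun x => exists_congr fun w => Set.ext_iff.mp hp (x, w)⟩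
  · rintro ⟨p, rfl⟩
    exact h.preimage (f := fun x : ℝ => (p, x)) (by fun_prop)

variable {O : ℕ → Set Gauge} (hO : TopologicalSpace.IsTopologicalBasis (range O))
include hO

theorem member_an : IsSigma13 (codesOf O AnalyticSet) := by
  obtain ⟨U, u1, u2⟩ := exists_univ_an
  exact member_of hO u1 (P2.an isClosed_univ.analyticSet) fun E => by simpa using u2 E

theorem member_borel : IsSigma13 (codesOf O MeasurableSet) := by
  obtain ⟨U, u1, u2⟩ := exists_univ_an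
  have a1 := u1.preimage (f := fun q : ((ℕ → ℕ) × (ℕ → ℕ)) × ℝ => (q.1.1, q.2)) (by fun_prop)
  have a2 := u1.preimage (f := fun q : ((ℕ → ℕ) × (ℕ → ℕ)) × ℝ => (q.1.2, q.2)) (by fun_prop)
  refine member_of hO a1 (D := {p | ∀ x, (p.2, x) ∈ U ↔ (p.1, x) ∉ U}) (P2.all ?_) fun E =>
    ⟨fun e => ?_, ?_⟩
  · convert (P2.an (an_union a1 a2)).inter
      (P2.co (S := (_ ∩ _)ᶜ) (by rw [compl_compl]; exact an_inter a1 a2))
    ext q
    simp only [mem_ofPred_eq, mem_inter_iff, mem_union, mem_compl_iff, mem_preimage]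
    tauto
  · obtain ⟨p', hp'⟩ := (u2 _).mp e.compl.analyticSet
    obtain ⟨p, rfl⟩ := (u2 _).mp e.analyticSet
    exact ⟨(p, p'), fun x => (Set.ext_iff.mp hp' x).symm, rfl⟩
  · rintro ⟨p, hp, rfl⟩
    exact ((u2 _).mpr ⟨p.1, rfl⟩).measurableSet_of_compl
      ((u2 _).mpr ⟨p.2, Set.ext fun x => (hp x).symm⟩)

theorem member_gd : IsSigma13 (codesOf O IsGδ) := by
  obtain ⟨C, c1, c2⟩ := exists_univ_closed ℝ
  refine member_of hO (X := ℕ → ℕ → ℕ) (U := ⋂ n, ((fun q => (q.1 n, q.2)) ⁻¹' C)ᶜ)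
    (MeasurableSet.iInter fun n => (c1.preimage (by fun_prop)).measurableSet.compl).analyticSet
    (P2.an isClosed_univ.analyticSet) fun E => ⟨fun e => ?_, ?_⟩
  · obtain ⟨u, u1, rfl⟩ := e.eq_iInter_nat
    choose p hp using fun n => c2 _ (u1 n).isClosed_compl
    refine ⟨p, trivial, Set.ext fun x => ?_⟩
    simp only [mem_iInter, mem_ofPred_eq, mem_compl_iff, mem_preimage]
    exact forall_congr' fun n => iff_not_comm.mp (Set.ext_iff.mp (hp n) x).symm
  · rintro ⟨p, -, rfl⟩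
    simp only [mem_iInter, Set.ofPred_forall]
    exact IsGδ.iInter_of_isOpen fun n =>
      (c1.preimage (f := fun x : ℝ => (p n, x)) (by fun_prop)).isOpen_compl

end Pool.Agent.Lib.S13
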