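import Mathlib
import Pool.Agent.Lib.S13.At

set_option autoImplicit false

namespace Pool.Agent.Lib.S13

open Finset Filter MeasureTheory Topology Pool.Agent.Lib.MP_409048_lc

variable {c : Cx} {N : ℕ} {d : Node} {T : (ℕ → ℕ) → Br → Set (List Bool)}

lemma pf_succ (y : ℕ → Bool) (k : ℕ) : pf y (k + 1) = pf y k ++ [y k] := by
  simp [pf, List.range_succ]

lemma real_pos_union (μ : Measure Br) [IsFiniteMeasure μ] {A B C : Set Br} (h : A ⊆ B ∪ C)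
    (hp : 0 < μ.real A) : 0 < μ.real B ∨ 0 < μ.real C := by
  by_contra hc
  push Not at hc
  linarith [(measureReal_mono (μ := μ) h).trans (measureReal_union_le B C), hc.1, hc.2]

lemma Ok.branch (h : Ok c N d) (h1 : ∀ a ξ s s', s' <+: s → s ∈ T a ξ → s' ∈ T a ξ)
    (h2 : ∀ a ξ, ∀ s ∈ T a ξ, ∀ s' ∈ T a ξ, s <+: s' ∨ s' <+: s) :
    ∃ Y : Fin (2 ^ N) → ℕ → Bool, ∀ k, ∃ d' : Node, Ok c N d' ∧ d'.Le d ∧ d'.ω = d.ω ∧
      ∀ a, ∀ ξ ∈ d'.Ξ a, ∀ s ∈ T a ξ, s.length = k → ∃ n, s = pf (Y n) k := by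
  set C : (ℕ → ℕ) → List Bool → Set Br := fun a s =>
    {ξ | ∀ s' ∈ T a ξ, s'.length = s.length → s' = s} with hC
  set Big : ℕ → (Fin (2 ^ N) → ℕ → Bool) → Prop := fun k y => ¬ c.I.sm {a | a ∈ d.X ∧
    ∀ n : Fin (2 ^ N), 0 < (c.μ a).real (d.Ξ a ∩ cs N n) →
      0 < (c.μ a).real (d.Ξ a ∩ C a (pf (y n) k) ∩ cs N n)} with hB
  have step : ∀ k y, ∃ β : Fin (2 ^ N) → Bool, Big k y →
      Big (k + 1) fun n => Function.update (y n) k (β n) := by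
    intro k y
    by_cases hb : Big k y
    · obtain ⟨β, hβ⟩ := Idl.pig (C := Fin (2 ^ N) → Bool) hb (p := fun a β =>
        ∀ n : Fin (2 ^ N), 0 < (c.μ a).real (d.Ξ a ∩ cs N n) →
          0 < (c.μ a).real (d.Ξ a ∩ C a (pf (y n) k ++ [β n]) ∩ cs N n)) (by
        intro a ha
        have : ∀ n : Fin (2 ^ N), ∃ β, 0 < (c.μ a).real (d.Ξ a ∩ cs N n) →
            0 < (c.μ a).real (d.Ξ a ∩ C a (pf (y n) k ++ [β]) ∩ cs N n) := by
          intro n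
          by_cases e : 0 < (c.μ a).real (d.Ξ a ∩ cs N n)
          · refine (real_pos_union (c.μ a) (B := d.Ξ a ∩ C a (pf (y n) k ++ [false]) ∩ cs N n)
              (C := d.Ξ a ∩ C a (pf (y n) k ++ [true]) ∩ cs N n) (fun ξ hξ => ?_)
              (ha.2 n e)).elim (fun f => ⟨_, fun _ => f⟩) fun f => ⟨_, fun _ => f⟩
            have key : ∃ β, ξ ∈ C a (pf (y n) k ++ [β]) := by
              by_cases f : ∃ s' ∈ T a ξ, s'.length = k + 1
              · obtain ⟨s', f1, f2⟩ := f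
                obtain ⟨u, β, rfl⟩ := (List.eq_nil_or_concat' s').resolve_left
                  fun e => by simp [e] at f2
                have f3 : u = pf (y n) k := hξ.1.2 u (h1 a ξ _ u (List.prefix_append _ _) f1)
                  (by simpa using f2)
                refine ⟨β, fun s'' f4 f5 => ?_⟩
                rw [← f3] at f5 ⊢
                exact (h2 a ξ _ f4 _ f1).elim (fun e => e.eq_of_length f5)
                  fun e => (e.eq_of_length f5.symm).symm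
              · exact ⟨false, fun s' f1 f2 => absurd ⟨s', f1, by simpa using f2⟩ f⟩
            obtain ⟨_ | _, key⟩ := key
            exacts [Or.inl ⟨⟨hξ.1.1, key⟩, hξ.2⟩, Or.inr ⟨⟨hξ.1.1, key⟩, hξ.2⟩]
          · exact ⟨false, fun f => absurd f e⟩
        choose β hβ using this
        exact ⟨β, hβ⟩)
      refine ⟨β, fun _ e => hβ (c.I.mono e fun a ha => ⟨ha.1.1, fun n => ?_⟩)⟩
      beta_reduce
      rw [pf_succ, Function.update_self, pf_congr (y' := y n)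
        fun i hi => Function.update_of_ne hi.ne _ _]
      exact ha.2 n
    · exact ⟨fun _ => false, fun e => absurd e hb⟩
  choose F hF using step
  obtain ⟨y, y1⟩ : ∃ y : ℕ → Fin (2 ^ N) → ℕ → Bool,
      ∀ k, y (k + 1) = fun n => Function.update (y k n) k (F k (y k) n) :=
    ⟨fun k => Nat.rec (fun _ _ => false) (fun k x n => Function.update (x n) k (F k x n)) k,
      fun _ => rfl⟩
  have i1 : ∀ k, Big k (y k) := by
    intro k
    induction k with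
    | zero =>
      refine fun e => h.nn (c.I.mono e fun a ha => ⟨ha, fun n hn => hn.trans_le
        (measureReal_mono fun ξ hξ => ⟨⟨hξ.1, fun s' _ f => ?_⟩, hξ.2⟩)⟩)
      simpa [pf] using f
    | succ k ih => rw [y1]; exact hF _ _ ih
  have i2 : ∀ n i k, i < k → y k n i = y (i + 1) n i := by
    intro n i k hk
    induction k, hk using Nat.le_induction with
    | base => rfl
    | succ k hk ih => rw [y1]; exact (Function.update_of_ne (by omega) _ _).trans ih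
  refine ⟨fun n i => y (i + 1) n i, fun k => ?_⟩
  obtain ⟨d', e1, e2, e3, -, e4⟩ := h.shrink (fun a ha => ha.1) (i1 k)
    (fun a => ⋃ n, C a (pf (y k n) k)) fun a ha n hn => by
      have e : n < 2 ^ N := by
        by_contra e
        simp [cs_eq_empty (not_lt.mp e)] at hn
      exact (ha.2 ⟨n, e⟩ hn).trans_le (measureReal_mono (Set.inter_subset_inter_left _
        (Set.inter_subset_inter_right _ (Set.subset_iUnion (fun n => C a (pf (y k n) k)) _))))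
  refine ⟨d', e1, e2, e3, fun a ξ hξ s f1 f2 => ?_⟩
  obtain ⟨n, hn⟩ := Set.mem_iUnion.mp (e4 a hξ)
  exact ⟨n, (hn s f1 (by simpa using f2)).trans (pf_congr fun i hi => i2 n i k hi)⟩

lemma Ok.avoid (h : Ok c N d) (h1 : ∀ a ξ s s', s' <+: s → s ∈ T a ξ → s' ∈ T a ξ)
    (h3 : ∀ y, c.I.sm {a | a ∈ d.X ∧ 0 < (c.μ a).real (d.Ξ a ∩ {ξ | ∀ k, pf y k ∈ T a ξ})})
    {J : Type} [Finite J] (Y : J → ℕ → Bool) :
    ∃ k0, ∃ d' : Node, Ok c N d' ∧ d'.Le d ∧ d'.ω = d.ω ∧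
      ∀ a, ∀ ξ ∈ d'.Ξ a, ∀ j k, k0 ≤ k → pf (Y j) k ∉ T a ξ := by
  refine h.cover Set.sdiff_subset (Idl.diff h.nn (c.I.un fun j => h3 (Y j)))
    (fun k0 a => {ξ | ∀ j k, k0 ≤ k → pf (Y j) k ∉ T a ξ})
    (fun k k' e a ξ hξ j k'' e' => hξ j k'' (e.trans e')) fun a ha => ?_
  refine measure_mono_null (t := ⋃ j, d.Ξ a ∩ {ξ | ∀ k, pf (Y j) k ∈ T a ξ}) (fun ξ hξ => ?_)
    (measure_iUnion_null fun j => (measureReal_eq_zero_iff (measure_ne_top _ _)).mp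
      (le_antisymm (not_lt.mp fun e => ha.2 (Set.mem_iUnion.mpr ⟨j, ha.1, e⟩)) measureReal_nonneg))
  by_contra hc
  simp only [Set.mem_iUnion, not_exists, Set.mem_inter_iff, Set.mem_ofPred_eq, not_and,
    not_forall] at hc
  choose k hk using fun j => hc j hξ.1
  have := Fintype.ofFinite J
  exact hξ.2 (Set.mem_iUnion.mpr ⟨∑ j, k j, fun j k' e f => hk j (h1 a ξ _ _ (pf_prefix _
    ((single_le_sum (f := k) (fun _ _ => Nat.zero_le _) (mem_univ j)).trans e)) f)⟩)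

/-- Nodes on the two sides of a split get separated types. -/
theorem separate (σ : St c) (h1 : ∀ a ξ s s', s' <+: s → s ∈ T a ξ → s' ∈ T a ξ)
    (h2 : ∀ a ξ, ∀ s ∈ T a ξ, ∀ s' ∈ T a ξ, s <+: s' ∨ s' <+: s)
    (h3 : ∀ (σ' : St c), σ'.Le σ → ∀ i y, c.I.sm {a | a ∈ (σ'.nd i).X ∧
      0 < (c.μ a).real ((σ'.nd i).Ξ a ∩ {ξ | ∀ k, pf y k ∈ T a ξ})})
    {p q : (ℕ → ℕ) → Prop} (hpq : ∀ a, p a → ¬ q a) :
    ∃ σ' : St c, σ'.Le σ ∧ ∃ k, ∀ s : List Bool, s.length = k →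
      (∀ i, (∀ a ∈ (σ'.nd i).X, ¬ p a) ∨ ∀ a ∈ (σ'.nd i).X, ∀ ξ ∈ (σ'.nd i).Ξ a, s ∉ T a ξ) ∨
      (∀ i, (∀ a ∈ (σ'.nd i).X, ¬ q a) ∨ ∀ a ∈ (σ'.nd i).X, ∀ ξ ∈ (σ'.nd i).Ξ a, s ∉ T a ξ) := by
  obtain ⟨σ1, l1, hc⟩ := σ.exists_const p
  choose Y hY using fun i => (σ1.ok i).branch h1 h2
  choose k0 hk using fun i => (σ1.ok i).avoid h1 (h3 σ1 l1 i)
    fun j : σ1.ι × Fin (2 ^ σ1.N) => Y j.1 j.2
  obtain ⟨σ2, l2, e⟩ := σ1.exists_sub (p := fun i d' =>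
    ((∀ a ∈ d'.X, ¬ q a) ∧ ∀ a, ∀ ξ ∈ d'.Ξ a, ∀ i' n, pf (Y i' n) (∑ i, k0 i) ∉ T a ξ) ∨
    ((∀ a ∈ d'.X, ¬ p a) ∧ ∀ a, ∀ ξ ∈ d'.Ξ a, ∀ s ∈ T a ξ, s.length = ∑ i, k0 i →
      ∃ n, s = pf (Y i n) (∑ i, k0 i))) fun i => by
    by_cases e : ∃ a ∈ (σ1.nd i).X, p a
    · obtain ⟨a0, e1, e2⟩ := e
      obtain ⟨d', f1, f2, f3, f4⟩ := hk i
      exact ⟨d', f1, f2, f3, Or.inl ⟨fun a ha => hpq a (hc i a0 e1 a (f2.1 ha) ▸ e2),
        fun a ξ hξ i' n => f4 a ξ hξ (i', n) _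
          (single_le_sum (f := k0) (fun _ _ => Nat.zero_le _) (mem_univ i))⟩⟩
    · obtain ⟨d', f1, f2, f3, f4⟩ := hY i (∑ i, k0 i)
      exact ⟨d', f1, f2, f3, Or.inr ⟨fun a ha f => e ⟨a, f2.1 ha, f⟩, f4⟩⟩
  refine ⟨σ2, l2.trans l1, ∑ i, k0 i, fun s hs => ?_⟩
  by_cases f : ∃ i n, s = pf (Y i n) (∑ i, k0 i)
  · obtain ⟨i0, n, rfl⟩ := f
    refine Or.inl fun i' => ?_
    obtain ⟨i, -, e | e⟩ := e i'
    exacts [Or.inr fun a _ ξ hξ => e.2 a ξ hξ i0 n, Or.inl e.1]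
  · refine Or.inr fun i' => ?_
    obtain ⟨i, -, e | e⟩ := e i'
    exacts [Or.inl e.1, Or.inr fun a _ ξ hξ t => f ⟨i, e.2 a ξ hξ s t hs⟩]

lemma exists_all {α : Type} {U : Set α} (hU : U.Finite) (σ : St c) {p : α → St c → Prop}
    (hp : ∀ u σ' σ'', σ''.Le σ' → p u σ' → p u σ'')
    (h : ∀ u ∈ U, ∀ σ' : St c, σ'.Le σ → ∃ σ'' : St c, σ''.Le σ' ∧ p u σ'') :
    ∃ σ' : St c, σ'.Le σ ∧ ∀ u ∈ U, p u σ' := by
  induction U, hU using Set.Finite.induction_on with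
  | empty => exact ⟨σ, St.Le.refl _, fun _ e => e.elim⟩
  | insert _ _ ih =>
    obtain ⟨σ1, l1, e1⟩ := ih fun u hu => h u (Or.inr hu)
    obtain ⟨σ2, l2, e2⟩ := h _ (Or.inl rfl) σ1 l1
    refine ⟨σ2, l2.trans l1, ?_⟩
    rintro u (rfl | hu)
    exacts [e2, hp u _ _ l2 (e1 u hu)]

end Pool.Agent.Lib.S13
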