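import Mathlib
import Pool.Agent.Lib.MP_409048_lc.Negative
import Pool.Agent.Lib.S13.Sp

set_option autoImplicit false

namespace Pool.Agent.Lib.S13

open Finset Filter MeasureTheory Topology Pool.Agent.Lib.MP_409048_lc

/-- The chain of global types. -/
def TG (R : Set Fam) (l : ℕ) : Set (List Bool) :=
  {s | Pr (2 * l) s ⊆ R ∧ R ⊆ Ge (2 * l + 1) ∪ Cp (2 * l) s}

/-- The chain of local types. -/
def TL (R : Set Fam) (l : ℕ) : Set (List Bool) :=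
  {s | Pr (2 * l + 1) s ⊆ R ∧ ∀ e ∈ R, e.1 = 2 * l + 1 → e ∈ Cp (2 * l + 1) s}

lemma TG_pre {R : Set Fam} {l : ℕ} {s s' : List Bool} (h : s' <+: s) (h' : s ∈ TG R l) :
    s' ∈ TG R l :=
  ⟨fun _ e => h'.1 ⟨e.1, e.2.trans h⟩, fun _ e => (h'.2 e).imp_right fun e => ⟨e.1,
    e.2.elim (fun e => List.prefix_or_prefix_of_prefix e h) fun e => Or.inr (h.trans e)⟩⟩

lemma TG_cmp {R : Set Fam} {l : ℕ} {s s' : List Bool} (h : s ∈ TG R l) (h' : s' ∈ TG R l) :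
    s <+: s' ∨ s' <+: s :=
  (h'.2 (h.1 (show (2 * l, s) ∈ Pr (2 * l) s from ⟨rfl, List.prefix_refl _⟩))).elim
    (fun e => absurd (show 2 * l + 1 ≤ 2 * l from e) (by omega)) fun e => e.2

lemma TG_lvl {R : Set Fam} {l l' : ℕ} {s s' : List Bool} (h : s ∈ TG R l) (h' : s' ∈ TG R l') :
    l' ≤ l :=
  (h'.2 (h.1 (show (2 * l, s) ∈ Pr (2 * l) s from ⟨rfl, List.prefix_refl _⟩))).elim
    (fun e => by have : 2 * l' + 1 ≤ 2 * l := e; omega)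
    fun e => by have : 2 * l = 2 * l' := e.1; omega

variable {c : Cx}

/-- One of the two threads has a low test with small mass. -/
def Gl (σ : St c) (G : GD) (ε : ℝ) (y : ℕ → Bool) : Prop :=
  ∀ a1 ∈ Tags, ∀ a2 ∈ Tags, Sat G.w1 a1 → Sat G.w2 a2 → ∃ Ω k, (G.A1 y ⊆ Ω ∧ G.A2 y ⊆ Ω ∧
    ((G.E1 y ⊆ Ω ∧ lo (G.A1 y) (tst k) a1) ∨ (G.E2 y ⊆ Ω ∧ lo (G.A2 y) (tst k) a2))) ∧
    σ.Sm k (ε * 2⁻¹ ^ (BB k + cc G.l Ω (stg k)))

lemma Gl.of_le {σ σ' : St c} {G : GD} {ε : ℝ} {y : ℕ → Bool} (l : σ'.Le σ) (h : Gl σ G ε y) :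
    Gl σ' G ε y := fun a1 e1 a2 e2 e3 e4 =>
  (h a1 e1 a2 e2 e3 e4).imp fun _ e => e.imp fun _ e => ⟨e.1, e.2.of_le l⟩

lemma sub_om {D Ω : Set Fam} (h : D ⊆ Ω) (w1 w2 : Wd) :
    Cc D ∪ dm w1 ⊆ Cc Ω ∪ dm w1 ∪ dm w2 ∧ Cc D ∪ dm w2 ⊆ Cc Ω ∪ dm w1 ∪ dm w2 ∧
      Cc D ∪ ∅ ⊆ Cc Ω ∪ dm w1 ∪ dm w2 :=
  ⟨fun _ e => Or.inl (e.imp_left fun e => Cc_mono h e),
    fun _ e => e.imp_left fun e => Or.inl (Cc_mono h e),
    fun _ e => Or.inl (Or.inl (Cc_mono h (e.resolve_right id)))⟩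

lemma Ge_sub (l : ℕ) : Ge (2 * l + 2) ⊆ Ge (2 * l + 1) :=
  fun e (h : 2 * l + 2 ≤ e.1) => show 2 * l + 1 ≤ e.1 by omega

section
variable {V : Fam → Ultrafilter ℕ}
  (hV : ∀ e, (V e : Filter ℕ) ≤ atTop ∧ ∀ᶠ τ in V e, τ % 2 = 0 ∧ fm (τ / 2) = e)
  {P : (ℕ → ℕ) → Ds → Fam → Set Br}
  (hP : ∀ a δ e, Tendsto (fun τ => (c.μ a).real (P a δ e ∩ Lt c a (kk (TA δ) τ a))) (V e)
    (𝓝 0) ∧ ∀ Ξ, Tendsto (fun τ => (c.μ a).real (Ξ ∩ Lt c a (kk (TA δ) τ a))) (V e)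
    (𝓝 0) → (c.μ a).real (Ξ \ P a δ e) = 0)
include hV hP

theorem round_glob (σ : St c) {G : GD} (hG : G.Valid) (s : List Bool)
    (h : (∀ i, (∀ a ∈ (σ.nd i).X, ¬ Sat G.w1 a) ∨
        ∀ a ∈ (σ.nd i).X, ∀ ξ ∈ (σ.nd i).Ξ a, s ∉ TG (Rev P a ξ) G.l) ∨
      ∀ i, (∀ a ∈ (σ.nd i).X, ¬ Sat G.w2 a) ∨
        ∀ a ∈ (σ.nd i).X, ∀ ξ ∈ (σ.nd i).Ξ a, s ∉ TG (Rev P a ξ) G.l) {ε : ℝ} (hε : 0 < ε) :
    ∃ σ' : St c, σ'.Le σ ∧ ∀ y, pf y s.length = s → Gl σ' G ε y := by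
  have key : ∀ w, (∀ i, (∀ a ∈ (σ.nd i).X, ¬ Sat w a) ∨
      ∀ a ∈ (σ.nd i).X, ∀ ξ ∈ (σ.nd i).Ξ a, s ∉ TG (Rev P a ξ) G.l) → ∃ σ' : St c, σ'.Le σ ∧
      σ'.Met (TA (G.l, s, none, w))
        (cc G.l (Cc (Ge (2 * G.l + 1) ∪ Cp (2 * G.l) s) ∪ dm G.w1 ∪ dm G.w2)) w ε :=
    fun w h => round hV hP σ (G.l, s, none, w) _ hG.1 hG.2.1 Set.subset_union_right G.l
      (fun i => (h i).imp_right fun e a ha ξ hξ f =>
        e a ha ξ hξ ⟨Set.subset_union_right.trans f.1, f.2⟩) hε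
  have om : ∀ y, pf y s.length = s →
      G.A1 y ⊆ Cc (Ge (2 * G.l + 1) ∪ Cp (2 * G.l) s) ∪ dm G.w1 ∪ dm G.w2 ∧
      G.A2 y ⊆ Cc (Ge (2 * G.l + 1) ∪ Cp (2 * G.l) s) ∪ dm G.w1 ∪ dm G.w2 ∧
      G.E2 y ⊆ Cc (Ge (2 * G.l + 1) ∪ Cp (2 * G.l) s) ∪ dm G.w1 ∪ dm G.w2 ∧
      DF (G.l, s, none, ∅) ⊆ Ge (2 * G.l + 2) ∪ Al (2 * G.l) y := by
    intro y hy
    have e1 : Al (2 * G.l) y ⊆ Cp (2 * G.l) s := hy ▸ Al_sub_Cp
    have e2 : Pr (2 * G.l) s ⊆ Al (2 * G.l) y := hy ▸ Pr_sub_Al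
    exact ⟨(sub_om (Set.union_subset_union (Set.union_subset (Ge_sub _) fun e f => f.1.ge) e1)
      _ _).1, (sub_om (Set.union_subset_union (Ge_sub _) e1) _ _).2.1,
      (sub_om (Set.union_subset_union_right _ e1) _ _).2.2,
      Set.union_subset_union (Set.union_subset le_rfl fun e f => by simp at f) e2⟩
  rcases h with h | h
  · obtain ⟨σ', l, e⟩ := key _ h
    refine ⟨σ', l, fun y hy a1 e1 a2 _ e3 _ => ?_⟩
    obtain ⟨k, k1, k2⟩ := e a1 e1 e3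
    obtain ⟨o1, o2, o3, o4⟩ := om y hy
    exact ⟨_, k, ⟨o1, o2, Or.inl ⟨(G.E1_sub y).trans o3, k1 ▸ lo_own
      (Set.union_subset_union_left _ (Cc_mono (o4.trans
        (Set.union_subset_union_left _ Set.subset_union_left)))) _ _⟩⟩, k2⟩
  · obtain ⟨σ', l, e⟩ := key _ h
    refine ⟨σ', l, fun y hy a1 _ a2 e2 _ e4 => ?_⟩
    obtain ⟨k, k1, k2⟩ := e a2 e2 e4
    obtain ⟨o1, o2, o3, o4⟩ := om y hy
    exact ⟨_, k, ⟨o1, o2, Or.inr ⟨o3, k1 ▸ lo_own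
      (Set.union_subset_union_left _ (Cc_mono o4)) _ _⟩⟩, k2⟩

theorem round_loc (σ : St c) {G : GD} (hG : G.Valid)
    (h : ∀ i, ∀ a ∈ (σ.nd i).X, ∀ ξ ∈ (σ.nd i).Ξ a,
      ¬ (G.s0 ∈ TG (Rev P a ξ) G.l ∧ G.s1 ∈ TL (Rev P a ξ) G.l)) {ε : ℝ} (hε : 0 < ε) :
    ∃ σ' : St c, σ'.Le σ ∧ ∀ y, pf y G.s0.length = G.s0 → Gl σ' G ε y := by
  obtain ⟨σ', l, e⟩ := round hV hP σ (G.l, G.s0, some G.s1, G.w1)
    (Ge (2 * G.l + 2) ∪ Cp (2 * G.l + 1) G.s1 ∪ Cp (2 * G.l) G.s0) hG.1 hG.2.1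
    Set.subset_union_right G.l (fun i => Or.inr fun a ha ξ hξ f => h i a ha ξ hξ
      ⟨⟨Set.subset_union_right.trans f.1, f.2.trans (Set.union_subset_union_left _
        (Set.union_subset (Ge_sub _) fun e f => f.1.ge))⟩,
        fun e t => f.1 (Or.inl (Or.inr ⟨_, rfl, t⟩)), fun e t1 t2 => by
          rcases f.2 t1 with (t | t) | t
          · exact absurd (show 2 * G.l + 2 ≤ e.1 from t) (by omega)
          · exact t
          · exact absurd t.1 (by omega)⟩) hε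
  refine ⟨σ', l, fun y hy a1 e1 a2 _ e3 _ => ?_⟩
  obtain ⟨k, k1, k2⟩ := e a1 e1 e3
  have e1 : Al (2 * G.l) y ⊆ Cp (2 * G.l) G.s0 := hy ▸ Al_sub_Cp
  have e2 : Pr (2 * G.l) G.s0 ⊆ Al (2 * G.l) y := hy ▸ Pr_sub_Al
  have e4 : Pr (2 * G.l + 1) G.s1 ⊆ Cp (2 * G.l + 1) G.s1 := fun e f => ⟨f.1, Or.inl f.2⟩
  have e5 : {e | ∃ s ∈ some G.s1, e ∈ Pr (2 * G.l + 1) s} ⊆ Pr (2 * G.l + 1) G.s1 :=
    fun e ⟨_, f1, f2⟩ => (Option.some.inj f1) ▸ f2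
  exact ⟨_, k, ⟨(sub_om (Set.union_subset_union (Set.union_subset_union_right _ e4) e1) _ _).1,
    (sub_om (Set.union_subset_union Set.subset_union_left e1) _ _).2.1,
    Or.inl ⟨(sub_om (Set.union_subset_union_right _ e1) _ _).2.2, k1 ▸ lo_own
      (Set.union_subset_union_left _ (Cc_mono (Set.union_subset_union
        (Set.union_subset_union_right _ e5) e2))) _ _⟩⟩, k2⟩

end

theorem finish {F : ℕ → List Bool → List Bool → List Bool → Prop} {φ : (ℕ → ℕ) → ℝ}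
    (hφ : Continuous φ) {s : ℝ} {Z : Br → ℕ → ℕ}
    (σ0 : St c) (s0 : σ0.N = 0) (s1 : ∀ n, σ0.Ω n = if n = 0 then 1 else 0)
    (s2 : ∀ i a, ∀ ξ ∈ (σ0.nd i).Ξ a, ∀ m, φ (Z ξ) ∈ dy s m (cell m ξ))
    (h : ∀ f : Gauge, 0 < haus f (Set.range φ) → BY F (gs f))
    (hG : ∀ G : GD, G.Valid → F G.t G.s0 G.sb G.s1 → ∀ σ : St c, σ.Le σ0 → ∀ ε : ℝ, 0 < ε →
      ∃ σ' : St c, σ'.Le σ ∧ ∀ y, pf y G.s0.length = G.s0 → Gl σ' G ε y) : False := by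
  let gd : ℕ ⊕ {G : GD // G.Valid ∧ F G.t G.s0 G.sb G.s1} →
      (ℕ → Bool) × (ℕ → ℕ) × (ℕ → ℕ) → Prop := Sum.elim (fun _ θ => θ.2.1 ∈ Tags)
    fun G θ => θ.2.1 ∈ Tags ∧ θ.2.2 ∈ Tags ∧ Sat G.1.w1 θ.2.1 ∧ Sat G.1.w2 θ.2.2 ∧
      pf θ.1 G.1.s0.length = G.1.s0
  let R : ℕ ⊕ {G : GD // G.Valid ∧ F G.t G.s0 G.sb G.s1} →
      (ℕ → Bool) × (ℕ → ℕ) × (ℕ → ℕ) → ℕ → ℕ → Prop :=
    Sum.elim (fun l θ k e => lo (Cc (Ge (2 * l))) (tst k) θ.2.1 ∧ e = et l (stg k))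
    fun G θ k e => ∃ Ω, (G.1.A1 θ.1 ⊆ Ω ∧ G.1.A2 θ.1 ⊆ Ω ∧
      ((G.1.E1 θ.1 ⊆ Ω ∧ lo (G.1.A1 θ.1) (tst k) θ.2.1) ∨
        (G.1.E2 θ.1 ⊆ Ω ∧ lo (G.1.A2 θ.1) (tst k) θ.2.2))) ∧ e = cc G.1.l Ω (stg k)
  obtain ⟨f, f1, f2⟩ := attack hφ σ0 s0 s1 s2 (Θ := fun i => {θ // gd i θ})
    (fun i θ => R i θ.1) (Sum.inl 0) ⟨(fun _ => false, fun _ => 0, fun _ => 0),
      fun κ => by positivity⟩ (by
      rintro (l | G) σ l0 ε hε
      · have hb : ∀ j, et l j + j ≤ bet j := fun j => by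
          have := et_le_Gam l j
          unfold bet hh; omega
        obtain ⟨σ', l1, e⟩ := σ.exists_met (A := Cc ∅) (cc := et l) (w := ∅)
          (fun κ e => Or.inl e) hb
          (fun i => kill_triv (σ.ok i) (fun κ e => Or.inl e) hb (et_triv l)) hε
        refine ⟨σ', l1, fun θ => ?_⟩
        obtain ⟨k, k1, k2⟩ := e θ.1.2.1 θ.2 fun p hp => absurd hp (notMem_empty _)
        exact ⟨k, _, ⟨k1 ▸ lo_own (Cc_mono (Set.empty_subset _)) _ _, rfl⟩, k2⟩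
      · obtain ⟨σ', l1, e⟩ := hG G.1 G.2.1 G.2.2 σ l0 ε hε
        refine ⟨σ', l1, fun θ => ?_⟩
        obtain ⟨Ω, k, k1, k2⟩ := e θ.1.1 θ.2.2.2.2.2 _ θ.2.1 _ θ.2.2.1 θ.2.2.2.1 θ.2.2.2.2.1
        exact ⟨k, _, ⟨Ω, k1, rfl⟩, k2⟩)
  rcases h f f1 with ⟨l, M, a, ha, hd⟩ | ⟨G, e1, e2, e3⟩
  · obtain ⟨k, _, ⟨k1, rfl⟩, k2⟩ := f2 (Sum.inl l) (1 / (M + 2)) (by positivity)
      ⟨(fun _ => false, a, a), ha⟩
    have := hd (2 * k + 1) (md k)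
    rw [pq_odd k1, md, Nat.sub_self, XX_empty, add_zero, add_zero] at this
    have e4 := this.trans (mul_le_mul_of_nonneg_left k2 (by positivity))
    rw [← mul_assoc, le_mul_iff_one_le_left (hp_pos _), mul_one_div,
      one_le_div (by positivity)] at e4
    linarith
  · obtain ⟨d, d0, y, a1, a2, t1, t2, t3, t4, t5, hd⟩ := AS_thread e3
    obtain ⟨k, _, ⟨Ω, k1, rfl⟩, k2⟩ := f2 (Sum.inr ⟨G, e1, e2⟩) (d / 2) (by positivity)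
      ⟨(y, a1, a2), t1, t2, t3, t4, t5⟩
    have := le_of_mul_le_mul_right ((hd Ω k k1.1 k1.2.1 k1.2.2).trans k2) (hp_pos _)
    linarith

lemma exists_meas {φ : (ℕ → ℕ) → ℝ} (hφ : Continuous φ) {L : Set (ℕ → ℕ)} (hL : IsCompact L)
    {s : ℝ} {g : ℕ → ℝ} (h : Pos (tr (φ '' L) s) g) : ∃ μ : Measure Br, IsFiniteMeasure μ ∧
      0 < μ.real {ξ | ∃ z, ∀ m, φ z ∈ dy s m (cell m ξ)} ∧ ∀ m n, μ.real (cs m n) ≤ g m := by
  obtain ⟨ν, n1, n2, n3, n4⟩ := h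
  obtain ⟨μ, m1, m2, m3⟩ := realize n1 n2
  refine ⟨μ, m1, (real_pos_union μ (C := ⋃ p : {p : ℕ × ℕ // ν p.1 p.2 ≤ 0}, cs p.1.1 p.1.2)
    (fun ξ _ => ?_) m2).resolve_right ?_, fun m n => (m3 m n).trans (n3 m n)⟩
  · by_cases e : ∃ m, ν m (cell m ξ) ≤ 0
    · exact Or.inr (e.elim fun m e => Set.mem_iUnion.mpr ⟨⟨(m, cell m ξ), e⟩, rfl⟩)
    push Not at e
    obtain ⟨z, hz⟩ := IsCompact.nonempty_iInter_of_sequence_nonempty_isCompact_isClosed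
      (fun m => L ∩ φ ⁻¹' dy s m (cell m ξ)) (fun m z hz => ⟨hz.1, by
        have := dy_subset_anc s m 1 _ hz.2
        rwa [cell_anc] at this⟩) (fun m => by
        obtain ⟨_, e1, z, e2, rfl⟩ := n4 m _ (e m)
        exact ⟨z, e2, e1⟩) (hL.inter_right (isClosed_Icc.preimage hφ))
      fun m => hL.isClosed.inter (isClosed_Icc.preimage hφ)
    exact Or.inl ⟨z, fun m => (Set.mem_iInter.mp hz m).2⟩
  · rw [Measure.real, measure_iUnion_null fun p => (measureReal_eq_zero_iff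
      (measure_ne_top _ _)).mp (le_antisymm ((m3 _ _).trans p.2) measureReal_nonneg)]
    simp

theorem negative {F : ℕ → List Bool → List Bool → List Bool → Prop}
    (hm : ∀ n n' s0 sb s1, n ≤ n' → F n' s0 sb s1 → F n s0 sb s1)
    (hF : ∀ y0, ∃ β, ∀ b, (∃ l, col b l = β) → ∀ y, ∃ n, ∀ k, ¬ F n (pf y0 k) (pf b k) (pf y k))
    {E : Set ℝ} (hE : AnalyticSet E) (h : ∀ f : Gauge, 0 < haus f E ↔ BY F (gs f)) : False := by
  choose fa hf1 hf2 using exists_gauge_pq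
  have hB : ∀ a ∈ Tags, 0 < haus (fa a) E := fun a ha => (h _).mpr (Or.inl ⟨0, 0, a, ha, by
    simpa using (hf1 a).mono fun b => pq_le (x := 0) (Set.subset_univ _) le_rfl⟩)
  rw [AnalyticSet] at hE
  rcases hE with rfl | ⟨φ, hφ, rfl⟩
  · simpa [haus] using hB (fun _ => 0) fun κ => by positivity
  obtain ⟨s, hs⟩ := Idl.pig (I := prodI) (C := ℤ) not_ps_Tags
    (p := fun a s => ∃ L, IsCompact L ∧ Pos (tr (φ '' L) s) (gs (fa a))) fun a ha => by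
      obtain ⟨L, l1, l2⟩ := frost hφ _ (hB a ha)
      exact ((haus_pos_iff _ (l1.image hφ).isClosed).mp l2).imp fun s e => ⟨L, l1, e⟩
  set Gd : Set Br := {ξ | ∃ z, ∀ m, φ z ∈ dy s m (cell m ξ)} with hGd
  have hZ : ∀ ξ, ∃ z, ξ ∈ Gd → ∀ m, φ z ∈ dy s m (cell m ξ) := fun ξ => by
    by_cases e : ξ ∈ Gd
    exacts [e.imp fun _ e _ => e, ⟨fun _ => 0, fun e' => absurd e' e⟩]
  choose Z hZ using hZ
  have hμ : ∀ a, ∃ μ : Measure Br, IsFiniteMeasure μ ∧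
      ((∃ L, IsCompact L ∧ Pos (tr (φ '' L) s) (gs (fa a))) → 0 < μ.real Gd) ∧
      ∀ m n, μ.real (cs m n) ≤ gs (fa a) m := by
    intro a
    by_cases e : ∃ L, IsCompact L ∧ Pos (tr (φ '' L) s) (gs (fa a))
    · obtain ⟨L, l1, l2⟩ := e
      exact (exists_meas hφ l1 l2).imp fun μ e => ⟨e.1, fun _ => e.2.1, e.2.2⟩
    · exact ⟨0, inferInstance, fun e' => absurd e' e, fun m n => by simpa using gs_nonneg _ _⟩
  choose μ m1 m2 m3 using hμ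
  let mk : Idl → Cx := fun I =>
    { I := I
      μ := μ
      fin := m1
      tot := fun a => by
        have := (m3 a 0 0).trans (hf2 a 0)
        rwa [show pq Set.univ ∅ 0 a 0 = 0 by simp [pq, BB], pow_zero, show cs 0 0 = Set.univ from
          Set.eq_univ_of_forall fun _ => rfl] at this
      lo := fun a k n => (m3 a _ n).trans ((hf2 a _).trans (hp_anti (by
        unfold pq
        rw [show (2 * k + 1) / 2 = k by omega]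
        omega)))
      hi := fun a k n e => (m3 a _ n).trans ((hf2 a _).trans (hp_anti (by
        unfold pq
        rw [show (2 * k + 1) / 2 = k by omega, if_pos ⟨by omega, fun e' => e e'.2⟩]
        omega))) }
  choose V hV using exists_uf
  choose P hP using fun a δ e => exhaust ((mk nullI).μ a)
    (fun τ => measurableSet_Lt (mk nullI) a (kk (TA δ) τ a)) (V e)
  by_cases hc : ∃ l y, ¬ PS {a | a ∈ Tags ∧
      0 < (μ a).real (Gd ∩ {ξ | ∀ k, pf y k ∈ TG (Rev P a ξ) l})}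
  · obtain ⟨l, y0, hc⟩ := hc
    obtain ⟨β, hβ⟩ := hF y0
    obtain ⟨b, b1, b2⟩ := fib_of_not_ps hc β
    choose y hy using fun a ξ => exists_branch (TL (Rev P a ξ) l) fun u e u' e' =>
      (e'.2 _ (e.1 (show (2 * l + 1, u) ∈ Pr (2 * l + 1) u from ⟨rfl, List.prefix_refl _⟩)) rfl).2
    obtain ⟨n0, b3⟩ := pigeon (C := ℕ) b2 (p := fun a n => 0 < (μ a).real
        (Gd ∩ {ξ | ∀ k, pf y0 k ∈ TG (Rev P a ξ) l} ∩
          {ξ | ∀ k, ¬ F n (pf y0 k) (pf b k) (pf (y a ξ) k)})) (by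
      intro a ha
      by_contra f
      push Not at f
      have := m1 a
      have e : μ a (Gd ∩ {ξ | ∀ k, pf y0 k ∈ TG (Rev P a ξ) l}) = 0 :=
        measure_mono_null (fun ξ hξ => Set.mem_iUnion.mpr ((hβ b b1 (y a ξ)).imp fun n e =>
          show ξ ∈ Gd ∩ {ξ | ∀ k, pf y0 k ∈ TG (Rev P a ξ) l} ∩
            {ξ | ∀ k, ¬ F n (pf y0 k) (pf b k) (pf (y a ξ) k)} from ⟨hξ, e⟩))
          (measure_iUnion_null fun n => (measureReal_eq_zero_iff (measure_ne_top _ _)).mp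
            (le_antisymm (f n) measureReal_nonneg))
      have := ha.1.2
      simp [Measure.real, e] at this)
    obtain ⟨π, b4⟩ := pigeon (C := Fin n0 → ℕ) b3 (p := fun a π => ∀ κ, a κ.1 = π κ)
      fun a _ => ⟨fun κ => a κ.1, fun _ => rfl⟩
    obtain ⟨σ0, s0, s1, s2⟩ := exists_init (c := mk nullI) b4 (fun a ha => ha.1.1.1.1) _
      fun a ha => ha.1.2
    refine finish hφ σ0 s0 s1 (fun i a ξ hξ => hZ ξ (by rw [(s2 i).2] at hξ; exact hξ.1.1))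
      (fun f e => (h f).mp e) fun G g1 g2 σ l0 ε hε => ?_
    by_cases u1 : ∀ i, ∀ a ∈ (σ.nd i).X, ¬ Sat G.w1 a
    · exact round_glob hV hP σ g1 _ (Or.inl fun i => Or.inl (u1 i)) hε
    by_cases u2 : ∀ i, ∀ a ∈ (σ.nd i).X, ¬ Sat G.w2 a
    · exact round_glob hV hP σ g1 _ (Or.inr fun i => Or.inl (u2 i)) hε
    push Not at u1 u2
    obtain ⟨i1, a1, u1, u3⟩ := u1
    obtain ⟨i2, a2, u2, u4⟩ := u2
    obtain ⟨j1, v1⟩ := l0.2.2 i1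
    obtain ⟨j2, v2⟩ := l0.2.2 i2
    have v1 := (s2 j1).1 (v1.1 u1)
    have v2 := (s2 j2).1 (v2.1 u2)
    refine round_loc hV hP σ g1 (fun i a _ ξ hξ e => ?_) hε
    obtain ⟨j, v⟩ := l0.2.2 i
    have v := v.2 a hξ
    rw [(s2 j).2] at v
    obtain rfl : l = G.l := le_antisymm (TG_lvl e.1 (v.1.2 0)) (TG_lvl (v.1.2 0) e.1)
    obtain ⟨-, -, ⟨p, p1, p', p2, p3, p4, p5⟩, g3, g4⟩ := g1
    refine v.2 G.s0.length (hm _ G.t _ _ _ (le_trans (not_lt.mp fun f => p5 ?_) p4) ?_)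
    · rw [← u3 p p1, ← u4 p' p2, ← p3]
      exact (v1.2 ⟨p.1, f⟩).trans (v2.2 ⟨p.1, f⟩).symm
    · have f1 : pf y0 G.s0.length = G.s0 := (TG_cmp (v.1.2 _) e.1).elim
        (fun e => e.eq_of_length (by simp)) fun e => (e.eq_of_length (by simp)).symm
      rwa [f1, ← v1.1.1.2, g4 a1 u3, ← g3, ← hy a ξ _ e.2]
  · push Not at hc
    obtain ⟨σ0, s0, s1, s2⟩ := exists_init (c := mk prodI) hs (fun a ha => ha.1) (fun _ => Gd)
      fun a ha => m2 a ha.2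
    refine finish hφ σ0 s0 s1 (fun i a ξ hξ => hZ ξ (by rwa [(s2 i).2] at hξ))
      (fun f e => (h f).mp e) fun G g1 _ σ l0 ε hε => ?_
    obtain ⟨σ1, l1, k, hk⟩ := separate (T := fun a ξ => TG (Rev P a ξ) G.l) σ
      (fun a ξ s s' => TG_pre) (fun a ξ s e s' e' => TG_cmp e e') (fun σ' l' i y => by
        obtain ⟨j, v⟩ := (l'.trans l0).2.2 i
        refine (hc G.l y).mono fun a ha => ⟨(σ'.ok i).sub ha.1, ha.2.trans_le
          (measureReal_mono (Set.inter_subset_inter_left _ ?_))⟩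
        have := v.2 a
        rwa [(s2 j).2] at this) (p := Sat G.w1) (q := Sat G.w2) (by
        obtain ⟨-, -, ⟨p, p1, p', p2, p3, -, p5⟩, -⟩ := g1
        exact fun a e1 e2 => p5 (by rw [← e1 p p1, ← e2 p' p2, p3]))
    obtain ⟨σ2, l2, e⟩ := exists_all (List.finite_length_eq Bool k) σ1
      (p := fun s σ' => ∀ y, pf y s.length = s → Gl σ' G ε y)
      (fun s σ' σ'' l e y hy => (e y hy).of_le l) fun s hs σ' l' => by
        refine round_glob (c := mk prodI) hV hP σ' g1 s ((hk s hs).imp (fun e i => ?_) fun e i => ?_) hε <;>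
        · obtain ⟨j, v⟩ := l'.2.2 i
          exact (e j).imp (fun e a ha => e a (v.1 ha)) fun e a ha ξ hξ => e a (v.1 ha) ξ (v.2 a hξ)
    exact ⟨σ2, l2.trans l1, fun y _ => e (pf y k) (length_pf y k) y (by rw [length_pf])⟩

end Pool.Agent.Lib.S13
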