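import Mathlib
import Pool.Agent.Lib.S13.Tr
import Pool.Agent.Lib.S13.Fr

set_option autoImplicit false

namespace Pool.Agent.Lib.S13

open Finset Filter Topology MeasureTheory Pool.Agent.Lib.MP_409048_lc

lemma haus_add (f : Gauge) (X : Set ℝ) (a : ℝ) : haus f ((fun x => x + a) ⁻¹' X) = haus f X := by
  have := OuterMeasure.isometryEquiv_map_mkMetric
    (fun d : ENNReal => (f.1 d.toNNReal : ENNReal)) (IsometryEquiv.addRight a)
  have e := congrArg (fun μ : OuterMeasure ℝ => μ X) this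
  simp only [OuterMeasure.map_apply, OuterMeasure.coe_mkMetric] at e
  exact e

theorem exists_gdelta {ι : Type} [Countable ι] (X : ι → Set ℝ) (h1 : ∀ i, IsGδ (X i))
    (h2 : ∀ i, X i ⊆ Set.Icc 0 1) :
    ∃ E, IsGδ E ∧ ∀ f, 0 < haus f E ↔ ∃ i, 0 < haus f (X i) := by
  obtain ⟨e, he⟩ := exists_surjective_nat (Option ι)
  set Y : ℤ → Set ℝ := fun n => (fun x => x + -(n : ℝ)) ⁻¹' (e n.toNat).elim ∅ X with hY
  refine ⟨⋂ n : ℤ, (Y n ∪ (Set.Iio (n : ℝ) ∪ Set.Ici ((n : ℝ) + 1))), IsGδ.iInter fun n =>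
    IsGδ.union (IsGδ.preimage (by fun_prop) ?_) (isOpen_Iio.isGδ.union isClosed_Ici.isGδ),
    fun f => ⟨fun h => ?_, fun ⟨i, h⟩ => ?_⟩⟩
  · rcases e n.toNat with _ | i
    exacts [IsGδ.empty, h1 i]
  · obtain ⟨n, hn⟩ := (haus_iUnion_pos f Y).mp (h.trans_le (haus_mono f fun x hx =>
      Set.mem_iUnion.mpr ⟨⌊x⌋, (Set.mem_iInter.mp hx ⌊x⌋).resolve_right fun c => c.elim
        (fun c => (Int.floor_le x).not_gt c) fun c => (Int.lt_floor_add_one x).not_ge c⟩))
    rw [hY, haus_add] at hn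
    rcases h : e n.toNat with _ | i
    · simp [h, haus] at hn
    · exact ⟨i, by rwa [h] at hn⟩
  · obtain ⟨n, hn⟩ := he (some i)
    have e1 : Y n = (fun x => x + -(n : ℝ)) ⁻¹' X i := by simp [hY, hn]
    rw [← haus_add f _ (-(n : ℝ)), ← e1] at h
    refine ((haus_union_pos_iff f _ {(n : ℝ) + 1}).mp (h.trans_le (haus_mono f fun x hx =>
      ?_))).resolve_right (by rw [haus_countable f (Set.countable_singleton _)]; exact lt_irrefl _)
    have e2 := h2 i (e1 ▸ hx : x ∈ (fun x => x + -(n : ℝ)) ⁻¹' X i)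
    by_cases e3 : x = n + 1
    · exact Or.inr e3
    refine Or.inl (Set.mem_iInter.mpr fun m => ?_)
    have e4 : (n : ℝ) ≤ x := by linarith [e2.1]
    have e5 : x < n + 1 := lt_of_le_of_ne (by linarith [e2.2]) e3
    rcases lt_trichotomy m n with c | c | c
    · have : (m : ℝ) + 1 ≤ n := by exact_mod_cast c
      exact Or.inr (Or.inr (this.trans e4))
    · exact Or.inl (c ▸ hx)
    · have : (n : ℝ) + 1 ≤ m := by exact_mod_cast c
      exact Or.inr (Or.inl (e5.trans_le this))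

lemma mem_Cl {τ : ℕ → ℕ → Prop} {x : ℝ} :
    x ∈ Cl τ ↔ ∀ N, ∃ n < 2 ^ N, chain τ N n ∧ x ∈ dy 0 N n := by
  simp only [Cl, Set.mem_iInter, Set.mem_iUnion, Set.mem_ofPred_eq, exists_prop, and_assoc]

lemma Cl_mono {τ τ' : ℕ → ℕ → Prop} (h : ∀ m n, τ m n → τ' m n) : Cl τ ⊆ Cl τ' := fun _ hx =>
  mem_Cl.mpr fun N => (mem_Cl.mp hx N).imp fun _ e => ⟨e.1, fun m r c => h _ _ (e.2.1 m r c), e.2.2⟩

/-- A compact set which meets cells of the tree of all depths meets the closed set. -/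
lemma meets_Cl {τ : ℕ → ℕ → Prop} {K : Set ℝ} (hK : IsCompact K)
    (h : ∀ N, ∃ N', N ≤ N' ∧ ∃ n < 2 ^ N', chain τ N' n ∧ (dy 0 N' n ∩ K).Nonempty) :
    (K ∩ Cl τ).Nonempty := by
  choose N' h1 n h2 h3 x h4 h5 using h
  obtain ⟨z, z1, φ, z2, z3⟩ := hK.tendsto_subseq h5
  refine ⟨z, z1, Set.mem_iInter.mpr fun N => (isClosed_lev τ N).mem_of_tendsto z3 ?_⟩
  filter_upwards [eventually_ge_atTop N] with i hi
  obtain ⟨r, hr⟩ := Nat.exists_eq_add_of_le (hi.trans ((z2.id_le i).trans (h1 _)))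
  have a := h2 (φ i)
  have b := h3 (φ i)
  have c := h4 (φ i)
  rw [hr] at a b c
  simp only [Set.mem_iUnion]
  refine ⟨n (φ i) / 2 ^ r, ⟨?_, fun m s e => ?_⟩, dy_subset_anc 0 N r _ c⟩
  · rwa [Nat.div_lt_iff_lt_mul (by positivity), ← pow_add]
  · rw [Nat.div_div_eq_div_mul, ← pow_add]
    exact b m (r + s) (by omega)

lemma dy_rat {N n n' : ℕ} {x : ℝ} (h : x ∈ dy 0 N n) (h' : x ∈ dy 0 N n') (e : n < n') :
    x ∈ Set.range ((↑) : ℚ → ℝ) := by
  have e1 : ((n : ℝ) + 1) / 2 ^ N ≤ n' / 2 ^ N := by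
    gcongr
    exact_mod_cast e
  refine ⟨n' / 2 ^ N, le_antisymm ?_ ?_⟩ <;> push_cast <;> linarith [h.2, h'.1]

namespace Sys

variable {V : Type} {S : Sys V}

lemma st_anc {b b' n : ℕ} (hb : b' ≤ b) {q : ℕ → V} (h : S.sch.st b n = some q) :
    ∃ q', S.sch.st b' (n / 2 ^ (Lv ln b - Lv ln b')) = some q' ∧
      cut S.v0 (stg (b' / 2)) q' = cut S.v0 (stg (b' / 2)) q := by
  classical
  induction b, hb using Nat.le_induction generalizing n q with
  | base => exact ⟨q, by simpa using h, rfl⟩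
  | succ b hb ih =>
    obtain ⟨q1, e1, e2, -⟩ := Scheme.st_succ h
    obtain ⟨q', e3, e4⟩ := ih e1
    have e5 := (Lv_strictMono ln_pos).monotone hb
    refine ⟨q', ?_, e4.trans ?_⟩
    · rw [← e3, Nat.div_div_eq_div_mul, ← pow_add, Lv_succ]
      congr 3
      omega
    · simp only [sch] at e2
      split_ifs at e2 with h1 h2
      · obtain ⟨v, -, rfl⟩ := mem_image.mp e2
        rw [cut_update (stg_mono (by omega))]
      · simp at e2
      · rw [mem_singleton.mp e2]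

variable (S) in
/-- The cells whose state has a property. -/
def btree (p : ℕ → (ℕ → V) → Prop) (m n : ℕ) : Prop :=
  ∀ b, Lv ln b = m → ∃ q, S.sch.st b n = some q ∧ p (stg (b / 2)) (cut S.v0 (stg (b / 2)) q)

end Sys

lemma bb_congr {a a' : ℕ → ℕ} {i : ℕ} (h : a (4 * i + 1) = a' (4 * i + 1)) : bb a i = bb a' i := by
  unfold bb; rw [h]

section
variable (F : ℕ → List Bool → List Bool → List Bool → Prop) (y0 : ℕ → Bool)

/-- The relation at the thread `θ`. -/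
def FT (n k : ℕ) (θ : ℕ → Bool × ℕ) : Prop :=
  F n (pf y0 k) (pf (bb fun i => (θ i).2) k) (pf (fun i => (θ i).1) k)

/-- The `G_δ` set of level `l`. -/
def EE (l : ℕ) : Set ℝ := Cl (ES l y0).sch.tree \
  ⋃ n, Cl ((ES l y0).btree fun j q => ∀ k, 4 * k ≤ j → ¬ FT F y0 n k q)

variable {F y0}

lemma FT_cut {n k j : ℕ} (h : 4 * k ≤ j) (θ : ℕ → Bool × ℕ) :
    FT F y0 n k (cut (false, 0) j θ) ↔ FT F y0 n k θ := by
  unfold FT
  rw [pf_congr (y := bb _) (y' := bb fun i => (θ i).2) fun i hi =>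
    bb_congr (by rw [cut_lt (by omega)]),
    pf_congr (y := fun i => (cut (false, 0) j θ i).1) (y' := fun i => (θ i).1) fun i hi => by
      rw [cut_lt (by omega)]]

lemma isGδ_EE (l : ℕ) : IsGδ (EE F y0 l) := by
  rw [EE, Set.sdiff_eq, Set.compl_iUnion]
  exact (isClosed_Cl _).isGδ.inter (IsGδ.iInter_of_isOpen fun n => (isClosed_Cl _).isOpen_compl)

theorem EE_sup (hP : ∀ b, ∃ y, ∀ n, ∃ k, F n (pf y0 k) (pf b k) (pf y k)) {l : ℕ} {f : Gauge}
    (h : Sg l (gs f)) : 0 < haus f (EE F y0 l) := by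
  classical
  obtain ⟨M, a, ha, h⟩ := h
  obtain ⟨y, hy⟩ := hP (bb a)
  set θ : ℕ → Bool × ℕ := fun j => (y j, if j ∈ AE l y0 y then a j else 0) with hθ
  have h1 : Pos ((ES l y0).ptree θ) (gs f) := by
    refine Sys.pos_of_dom (fun j => mem_ES.mpr ⟨fun e => ?_, fun e => ?_⟩) (by positivity)
      (h.mono fun b => ?_)
    · simp only [hθ] at e ⊢
      rw [if_pos e]; exact ha j
    · simp only [hθ] at e ⊢
      rw [if_neg e]
    · have : lo (AE l y0 y) (tst (b / 2)) (fun j => if j ∈ AE l y0 y then a j else 0) ↔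
          lo (AE l y0 y) (tst (b / 2)) a :=
        and_congr_right fun e => forall₂_congr fun p hp => by simp only [if_pos (e p hp)]
      rw [ES_ps]
      refine (pq_le (x := 0) (A' := AE l y0 y) (E' := ∅) (l' := l) ?_ le_rfl).trans (le_of_eq ?_)
      · refine Set.union_subset (Cc_mono ?_) (Set.empty_subset _)
        rintro u ((c | c) | c)
        exacts [le_trans (by omega) (show 2 * l + 2 ≤ u.1 from c), c.1.ge,
          le_trans (by omega) c.1.ge]
      · simp only [hθ, pq, this]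
  refine ((haus_union_pos_iff f _ (Set.range ((↑) : ℚ → ℝ))).mp (((haus_Cl_pos_iff f _).mpr
    h1).trans_le (haus_mono f fun x hx => ?_))).resolve_right
    (by rw [haus_countable f (Set.countable_range _)]; exact lt_irrefl _)
  by_contra hc
  rw [Set.mem_union, not_or] at hc
  refine hc.1 ⟨Cl_mono (fun _ _ => Sys.ptree_le) hx, fun c => ?_⟩
  obtain ⟨n0, c⟩ := Set.mem_iUnion.mp c
  obtain ⟨k, hk⟩ := hy n0
  obtain ⟨b, -, hb⟩ := exists_lst (4 * k)
  obtain ⟨n, -, n1, n2⟩ := mem_Cl.mp hx (Lv ln b)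
  obtain ⟨n', -, n3, n4⟩ := mem_Cl.mp c (Lv ln b)
  obtain rfl : n = n' := by
    rcases lt_trichotomy n n' with e | e | e
    exacts [absurd (dy_rat n2 n4 e) hc.2, e, absurd (dy_rat n4 n2 e) hc.2]
  obtain ⟨q, q1, q2⟩ := n3 _ 0 rfl b rfl
  rw [n1 _ 0 rfl b rfl] at q1
  obtain rfl := Option.some.inj q1
  refine q2 k hb.ge ?_
  rw [cut_cut le_rfl]
  refine (FT_cut hb.ge θ).mpr ?_
  have : (bb fun i => (θ i).2) = bb a := funext fun i => bb_congr
    (if_pos (show 4 * i + 1 ∈ AE l y0 y from Or.inl (Or.inl (by omega))))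
  unfold FT
  rwa [this]

theorem EE_sub {l : ℕ} {f : Gauge} (h : 0 < haus f (EE F y0 l)) : BY F (gs f) := by
  classical
  have an := (isGδ_EE (F := F) (y0 := y0) l).measurableSet.analyticSet
  rw [AnalyticSet] at an
  rcases an with e | ⟨φ, hφ, e⟩
  · simp [e, haus] at h
  obtain ⟨L, l1, l2⟩ := frost hφ f (e ▸ h)
  have k1 := l1.image hφ
  have k2 : φ '' L ⊆ EE F y0 l := e ▸ Set.image_subset_range _ _
  generalize φ '' L = K at l2 k1 k2
  obtain ⟨ν, h1, h2, h3, h4⟩ :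
      Pos (fun m n => (ES l y0).sch.tree m n ∧ (dy 0 m n ∩ K).Nonempty) (gs f) := by
    by_contra hc
    refine l2.ne' (haus_eq_zero f 0 _ (fun x hx N => ?_) hc)
    obtain ⟨n, n1, n2, n3⟩ := mem_Cl.mp (k2 hx).1 N
    exact ⟨n, n1, fun m r c => ⟨n2 m r c, x, dy_subset_anc 0 m r n (c ▸ n3), hx⟩, n3⟩
  obtain ⟨W, hW⟩ := Sys.exists_wt h1 h2 h3 fun m n e => (h4 m n e).1
  have good : ∀ θ, (∀ j, 0 < W j θ) → ∀ n0, ∃ k, FT F y0 n0 k θ := by
    intro θ hθ n0
    by_contra hc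
    push Not at hc
    obtain ⟨x, x1, x2⟩ := meets_Cl (τ := (ES l y0).btree fun j q => ∀ k, 4 * k ≤ j →
        ¬ FT F y0 n0 k q) k1 fun b => by
      obtain ⟨n, n1, n2, n3⟩ := hW.supp θ b (hθ _)
      refine ⟨_, (Lv_strictMono ln_pos).id_le b, n, n1, fun m r c b' c' => ?_, (h4 _ _ n2).2⟩
      have e1 : b' ≤ b := (Lv_strictMono ln_pos).le_iff_le.mp (by omega)
      obtain ⟨q, q1, q2⟩ := Sys.st_anc e1 n3
      refine ⟨q, by rwa [show r = Lv ln b - Lv ln b' by omega], fun k hk => ?_⟩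
      rw [q2, cut_cut (stg_mono (by omega))]
      exact fun c => hc k ((FT_cut hk θ).mp c)
    exact (k2 x1).2 (Set.mem_iUnion.mpr ⟨n0, x2⟩)
  have tag : ∀ θ, (ES l y0).Legal θ → (fun i => (θ i).2) ∈ Tags := by
    intro θ hθ j
    have := mem_ES.mp (hθ j)
    by_cases e : j ∈ AE l y0 fun i => (θ i).1
    · exact this.1 e
    · beta_reduce; rw [this.2 e]; positivity
  have dom : ∀ θ (d M : ℝ) (A E : Set ℕ), 0 < d → (d * 2⁻¹ ^ (2 * l + 1))⁻¹ ≤ M →
      A ⊆ AE l y0 (fun i => (θ i).1) → (∀ j, d * 2⁻¹ ^ (j + XX E j) ≤ W j θ) →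
      Dom ln (pq A E (l + 1) fun i => (θ i).2) (gs f) M := by
    intro θ d M A E e1 e2 e3 e4 b m
    refine le_of_weight (by positivity) e2 (hp_pos _).le ?_ (hW.le θ b m)
    refine le_trans ?_ (mul_le_mul_of_nonneg_right (e4 _) (hp_pos _).le)
    rw [mul_assoc, mul_assoc, ← pow_add, ← pow_add, ES_ps]
    refine mul_le_mul_of_nonneg_left (hp_anti ?_) e1.le
    have a1 := et_add l (stg (b / 2))
    have a2 := pq_le (A := AE l y0 fun i => (θ i).1) (E := ∅) (l := l) (E' := ∅) (l' := l) (x := 0)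
      (a := fun i => (θ i).2) (b := b) e3 le_rfl
    simp only [pq, XX_empty] at a2 ⊢
    omega
  by_cases hs : ∃ j θ v v', v.2 ≠ v'.2 ∧ 0 < W (j + 1) (Function.update θ j v) ∧
      0 < W (j + 1) (Function.update θ j v')
  · right
    obtain ⟨j, θ, v, v', s1, s2, s3⟩ := hs
    have gr : ∀ θ0, 0 < W (j + 1) θ0 → ∃ θ, (ES l y0).Legal θ ∧
        cut (false, 0) (j + 1) θ = cut (false, 0) (j + 1) θ0 ∧
        ∀ i, W (j + 1) θ0 * 2⁻¹ ^ (i + XX (AE l y0 fun i => (θ i).1) i) ≤ W i θ := by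
      intro θ0 h0
      obtain ⟨θ, t1, t2, t3⟩ := hW.greedy
        (fun j q => 1 + if j ∈ AE l y0 (fun i => (q i).1) then gam j else 0)
        (fun j θ _ => ⟨_, by
          simp only [ES, card_product, card_univ, Fintype.card_bool]
          split_ifs <;> simp [pow_add], fun v hv _ => hv⟩) h0
      refine ⟨θ, t1, t2, fun i => le_trans (le_of_eq ?_) (t3 i)⟩
      rw [sum_add_distrib, sum_const, card_range, smul_eq_mul, mul_one]
      congr 3
      exact sum_congr rfl fun κ _ => if_congr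
        ((loc_AE l y0).iff le_rfl fun i hi => by rw [cut_lt hi]) rfl rfl
    obtain ⟨θ1, a1, a2, a3⟩ := gr _ s2
    obtain ⟨θ2, b1, b2, b3⟩ := gr _ s3
    have c1 : θ1 j = v := by rw [eq_of_cut (Nat.lt_succ_self j) a2, Function.update_self]
    have c2 : θ2 j = v' := by rw [eq_of_cut (Nat.lt_succ_self j) b2, Function.update_self]
    have c3 : j ∈ AE l y0 (fun i => (θ1 i).1) ↔ j ∈ AE l y0 fun i => (θ2 i).1 :=
      (loc_AE l y0).iff le_rfl fun i hi => by
        rw [eq_of_cut (show i < j + 1 by omega) a2, eq_of_cut (show i < j + 1 by omega) b2,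
          Function.update_of_ne hi.ne, Function.update_of_ne hi.ne]
    have c4 : j ∈ AE l y0 (fun i => (θ1 i).1) := by
      by_contra hc
      exact s1 (by rw [← c1, ← c2, (mem_ES.mp (a1 j)).2 hc, (mem_ES.mp (b1 j)).2 (c3.not.mp hc)])
    obtain ⟨k, hk⟩ := good θ1 (fun i => lt_of_lt_of_le (by positivity) (a3 i)) j
    have u : ∀ y J a, dm (own (AE l y0 y) J a) ⊆ AE l y0 y := by
      rintro y J a _ ⟨p, hp, rfl⟩
      exact (mem_own.mp hp).2.1
    have u' : ∀ y, AE l y0 y ⊆ Cc Set.univ := fun y =>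
      Set.union_subset (Cc_mono (Set.subset_univ _)) (Set.empty_subset _)
    refine ⟨⟨l, j, pf y0 k, pf (bb fun i => (θ1 i).2) k, pf (fun i => (θ1 i).1) k,
      own (AE l y0 fun i => (θ1 i).1) (j + 4 * k + 1) fun i => (θ1 i).2,
      own (AE l y0 fun i => (θ2 i).1) (j + 4 * k + 1) fun i => (θ2 i).2⟩,
      ⟨(u _ _ _).trans (u' _), (u _ _ _).trans (u' _), ⟨(j, v.2), mem_own.mpr ⟨by omega, c4,
        by rw [c1]⟩, (j, v'.2), mem_own.mpr ⟨by omega, c3.mp c4, by rw [c2]⟩, rfl, le_rfl, s1⟩,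
        by simp, fun a ha => ?_⟩, hk,
      AS_pos (M := (W (j + 1) (Function.update θ j v) * 2⁻¹ ^ (2 * l + 1))⁻¹ +
        (W (j + 1) (Function.update θ j v') * 2⁻¹ ^ (2 * l + 1))⁻¹) (y := y0) (by positivity)
        (tag _ a1) (tag _ b1) (sat_own.mpr fun _ _ _ => rfl) (sat_own.mpr fun _ _ _ => rfl)
        (by simp) (dom θ1 _ _ _ _ s2 (le_add_of_nonneg_right (by positivity))
          (Set.union_subset ?_ (u _ _ _)) fun i => le_trans ?_ (a3 i))
        (dom θ2 _ _ _ _ s3 (le_add_of_nonneg_left (by positivity))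
          (Set.union_subset ?_ (u _ _ _)) fun i => le_trans ?_ (b3 i))⟩
    · simp only [length_pf]
      exact pf_congr fun i hi =>
        bb_congr (sat_own.mp ha _ (by omega) (Or.inl (Or.inl (by omega))))
    · refine (Cc_mono ?_).trans Set.subset_union_left
      rintro u ((c | c) | c)
      exacts [Or.inl (Or.inl c), Or.inr (Pr_sub_Al c), Or.inl (Or.inr c)]
    · refine mul_le_mul_of_nonneg_left (hp_anti (Nat.add_le_add_left (XX_mono
        (Set.union_subset_union_left _ (Cc_mono ?_)) i) i)) s2.le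
      rintro u ((c | c) | c)
      exacts [Or.inl (Or.inl c), Or.inr c, Or.inl (Or.inr (Al_sub_Cp c))]
    · exact (Cc_mono Set.subset_union_left).trans Set.subset_union_left
    · refine mul_le_mul_of_nonneg_left (hp_anti (Nat.add_le_add_left (XX_mono
        (Set.union_subset_union_left _ (Cc_mono ?_)) i) i)) s3.le
      rintro u ((c | c) | c)
      exacts [Or.inl (Nat.le_of_succ_le c), Or.inr c, Or.inl c.1.ge]
  · left
    push Not at hs
    obtain ⟨θ, t1, -, t2⟩ := hW.greedy (fun _ _ => 1) (fun j θ _ => by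
      by_cases e : ∃ v, 0 < W (j + 1) (Function.update θ j v)
      · obtain ⟨v, hv⟩ := e
        refine ⟨univ ×ˢ {v.2}, by simp, fun v' _ hv' => ?_⟩
        by_contra hc
        exact (hs j θ v v' (fun e => hc (mem_product.mpr ⟨mem_univ _, mem_singleton.mpr e.symm⟩)) hv).not_gt hv'
      · exact ⟨∅, by simp, fun v _ hv => absurd ⟨v, hv⟩ e⟩) (hW.root fun _ => (false, 0))
    obtain ⟨M, hM⟩ := exists_nat_ge (W 0 (fun _ => (false, 0)) * 2⁻¹ ^ (2 * l + 1))⁻¹
    refine ⟨l + 1, M, _, tag θ t1, dom θ _ _ _ _ (hW.root fun _ => (false, 0)) (by linarith)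
      ((Cc_mono fun u c => Or.inl (Or.inl c)).trans Set.subset_union_left) fun j => ?_⟩
    simpa using t2 j

theorem positive (hP : ∀ b, ∃ y, ∀ n, ∃ k, F n (pf y0 k) (pf b k) (pf y k)) :
    ∃ E, IsGδ E ∧ ∀ f, 0 < haus f E ↔ BY F (gs f) := by
  obtain ⟨E, e1, e2⟩ := exists_gdelta (ι := ℕ ⊕ {G : GD // G.Valid ∧ F G.t G.s0 G.sb G.s1})
    (Sum.elim (EE F y0) fun G => Cl (AS G.1).sch.tree)
    (fun i => by
      rcases i with i | G
      exacts [isGδ_EE i, (isClosed_Cl _).isGδ])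
    (fun i => by
      rcases i with i | G
      exacts [Set.sdiff_subset.trans (Cl_subset _), Cl_subset _])
  refine ⟨E, e1, fun f => (e2 f).trans ⟨?_, ?_⟩⟩
  · rintro ⟨i | G, h⟩
    · exact EE_sub h
    · exact Or.inr ⟨G.1, G.2.1, G.2.2, (haus_Cl_pos_iff f _).mp h⟩
  · rintro (⟨l, h⟩ | ⟨G, h1, h2, h3⟩)
    · exact ⟨Sum.inl l, EE_sup hP h⟩
    · exact ⟨Sum.inr ⟨G, h1, h2⟩, (haus_Cl_pos_iff f _).mpr h3⟩

end

end Pool.Agent.Lib.S13
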