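import Mathlib
import Pool.Agent.Lib.MP_409048_lc.NF
import Pool.Agent.Lib.S13.Mb
import Pool.Agent.Lib.S13.Ps
import Pool.Agent.Lib.S13.Ng

set_option autoImplicit false

namespace Pool.Agent.Lib.S13

open Set Filter Topology MeasureTheory Pool.Agent.Lib.MP_409048_lc

lemma ev_eq (x : ℕ → ℕ) (n : ℕ) : ∀ᶠ x' in 𝓝 x, ∀ m < n, x' m = x m := by
  have : ∀ᶠ x' in 𝓝 x, ∀ m ∈ Finset.range n, x' m = x m :=
    (eventually_all_finset _).mpr fun κ _ =>
      (continuous_apply κ).continuousAt.eventually ((isOpen_discrete {x κ}).mem_nhds rfl)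
  simpa using this

lemma continuous_pq (A E : Set ℕ) (l b : ℕ) : Continuous fun a => pq A E l a b := by
  refine IsLocallyConstant.continuous ((IsLocallyConstant.iff_eventually_eq _).mpr fun a => ?_)
  filter_upwards [ev_eq a (stg (b / 2))] with a' h
  have : lo A (tst (b / 2)) a' ↔ lo A (tst (b / 2)) a :=
    and_congr_right fun _ => forall₂_congr fun p hp => by rw [h _ (tst_lt hp)]
  unfold pq
  rw [this]

theorem sg_fsigma (i : ℕ) : ∃ G : ℕ → Set Gauge, (∀ n, IsClosed (G n)) ∧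
    {f | Sg i (gs f)} = ⋃ n, G n := by
  refine ⟨fun M => {f | ∃ a ∈ Tags, Dom ln (pq (Cc (Ge (2 * i))) ∅ i a) (gs f) (M + 1)},
    fun M => ?_, by ext f; simp [Sg]⟩
  have hT : IsCompact Tags := by
    have : Tags = Set.pi Set.univ fun κ => Set.Iio (2 ^ gam κ) := by ext a; simp [Tags]
    rw [this]
    exact isCompact_univ_pi fun κ => (Set.finite_Iio _).isCompact
  have : CompactSpace Tags := isCompact_iff_compactSpace.mp hT
  have h1 : IsClosed
      {p : Gauge × Tags | Dom ln (pq (Cc (Ge (2 * i))) ∅ i p.2) (gs p.1) (M + 1)} := by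
    simp only [Dom, Set.ofPred_forall]
    refine isClosed_iInter fun b => isClosed_iInter fun m => isClosed_le ?_
      (continuous_const.mul ((continuous_gs m).comp continuous_fst))
    exact (continuous_of_discreteTopology (f := fun n => (2⁻¹ : ℝ) ^ (n + (m - Lv ln b)))).comp
      ((continuous_pq _ _ _ b).comp (continuous_subtype_val.comp continuous_snd))
  convert isClosedMap_fst_of_compactSpace _ h1
  ext f
  exact ⟨fun ⟨a, e1, e2⟩ => ⟨(f, ⟨a, e1⟩), e2, rfl⟩, fun ⟨p, e1, e2⟩ => e2 ▸ ⟨p.2.1, p.2.2, e1⟩⟩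

lemma pf_get {y : ℕ → Bool} {k m : ℕ} {c : Bool} : (pf y k)[m]? = some c ↔ m < k ∧ y m = c := by
  simp [pf, List.getElem?_eq_some_iff]

theorem exists_rel {Φ : Set ((ℕ → ℕ) × (ℕ → Bool) × (ℕ → Bool))} (h : AnalyticSet Φ) :
    ∃ F : (ℕ → ℕ) → ℕ → List Bool → List Bool → List Bool → Prop,
      (∀ n s0 sb s1, IsClopen {x | F x n s0 sb s1}) ∧
      (∀ x n n' s0 sb s1, n ≤ n' → F x n' s0 sb s1 → F x n s0 sb s1) ∧
      ∀ x y0 b, (x, y0, b) ∈ Φ ↔ ∃ y, ∀ n, ∃ k, F x n (pf y0 k) (pf b k) (pf y k) := by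
  rw [AnalyticSet] at h
  rcases h with rfl | ⟨ψ, hψ, rfl⟩
  · exact ⟨fun _ _ _ _ _ => False, fun _ _ _ _ => by simpa using isClopen_empty,
      fun _ _ _ _ _ _ _ => id, by simp⟩
  refine ⟨fun x n s0 sb s1 => ∃ w, ∀ m < n, (ψ w).1 m = x m ∧ s0[m]? = some ((ψ w).2.1 m) ∧
    sb[m]? = some ((ψ w).2.2 m) ∧ ∀ j ≤ w m, s1[Nat.pair m j]? = some (decide (w m = j)),
    fun n s0 sb s1 => ?_, fun x n n' s0 sb s1 e => Exists.imp fun w c m hm => c m (by omega),
    fun x y0 b => ⟨?_, ?_⟩⟩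
  · refine (IsLocallyConstant.iff_eventually_eq (fun x : ℕ → ℕ => ∃ w, ∀ m < n,
      (ψ w).1 m = x m ∧ s0[m]? = some ((ψ w).2.1 m) ∧ sb[m]? = some ((ψ w).2.2 m) ∧
        ∀ j ≤ w m, s1[Nat.pair m j]? = some (decide (w m = j)))).mpr
      (fun x => ?_) |>.isClopen_fiber True |>.imp (by simp) (by simp)
    filter_upwards [ev_eq x n] with x' h
    exact propext (exists_congr fun w => forall₂_congr fun m hm => by rw [h m hm])
  · rintro ⟨w, hw⟩
    refine ⟨fun p => decide (w (Nat.unpair p).1 = (Nat.unpair p).2), fun n =>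
      ⟨n + ∑ m ∈ Finset.range n, Nat.pair m (w m + 1), w, fun m hm => ?_⟩⟩
    simp only [pf_get, hw, Nat.unpair_pair, and_true, true_and]
    refine ⟨by omega, by omega, fun j hj => ?_⟩
    have := Finset.single_le_sum (f := fun m => Nat.pair m (w m + 1)) (fun _ _ => Nat.zero_le _)
      (Finset.mem_range.mpr hm)
    have := Nat.pair_lt_pair_right m (show j < w m + 1 by omega)
    omega
  · rintro ⟨y, hy⟩
    choose k w hw using hy
    simp only [pf_get] at hw
    have e1 : ∀ m n n', m < n → m < n' → w n m ≤ w n' m := by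
      intro m n n' c c'
      by_contra c2
      have a := ((hw n m c).2.2.2 (w n' m) (by omega)).2
      rw [((hw n' m c').2.2.2 _ le_rfl).2] at a
      simp only [decide_true, true_eq_decide_iff] at a
      omega
    have e2 : Tendsto w atTop (𝓝 fun m => w (m + 1) m) :=
      tendsto_pi_nhds.mpr fun m => tendsto_const_nhds.congr' ((eventually_gt_atTop m).mono
        fun n c => le_antisymm (e1 m _ _ (by omega) c) (e1 m _ _ c (by omega)))
    have e3 : Tendsto (fun n => ψ (w n)) atTop (𝓝 (x, y0, b)) := by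
      refine Tendsto.prodMk_nhds (tendsto_pi_nhds.mpr fun m => ?_) (Tendsto.prodMk_nhds
        (tendsto_pi_nhds.mpr fun m => ?_) (tendsto_pi_nhds.mpr fun m => ?_)) <;>
        refine tendsto_const_nhds.congr' ((eventually_gt_atTop m).mono fun n c => ?_)
      exacts [(hw n m c).1.symm, (hw n m c).2.1.2, (hw n m c).2.2.1.2]
    exact ⟨_, tendsto_nhds_unique ((hψ.tendsto _).comp e2) e3⟩

lemma an_pre {X Y : Type} [TopologicalSpace X] [PolishSpace X] [MeasurableSpace X] [BorelSpace X]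
    [TopologicalSpace Y] [PolishSpace Y] [MeasurableSpace Y] [BorelSpace Y] {f : X → Y}
    (hf : Measurable f) {s : Set Y} (hs : AnalyticSet s) : AnalyticSet (f ⁻¹' s) := by
  convert an_ex (p := fun x y => y = f x ∧ y ∈ s) (an_inter (measurableSet_eq_fun measurable_snd
    (hf.comp measurable_fst)).analyticSet (hs.preimage continuous_snd))
  ext x
  simp

theorem hard {O : ℕ → Set Gauge} (hO : TopologicalSpace.IsTopologicalBasis (range O))
    {Γ : Set ℝ → Prop} (h1 : ∀ E, IsGδ E → Γ E) (h2 : ∀ E, Γ E → AnalyticSet E)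
    {A : Set (ℕ → ℕ)} (hA : IsSigma13 A) : ∃ r, Continuous r ∧ A = r ⁻¹' codesOf O Γ := by
  obtain ⟨P, ⟨Q, hQ, hP⟩, rfl⟩ := hA
  obtain ⟨d, d1, d2⟩ := exists_decoder
  have : TopologicalSpace.IsCompletelyMetrizableSpace (ℕ → Bool) := inferInstance
  have : TopologicalSpace.IsCompletelyMetrizableSpace ((ℕ → ℕ) × (ℕ → ℕ)) := inferInstance
  have mP : ∀ z, z ∈ P ↔ ∀ w, (z, w) ∉ Q := fun z => by
    rw [← not_iff_not, ← mem_compl_iff, hP]
    simp
  obtain ⟨F, f1, f2, f3⟩ := exists_rel (Φ := ⋂ l, (fun q => ((q.1, d q.2.1), d (col q.2.2 l))) ⁻¹' Qᶜ)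
    (AnalyticSet.iInter fun l => an_pre ((measurable_fst.prodMk
      (d1.comp (measurable_fst.comp measurable_snd))).prodMk (d1.comp (measurable_pi_lambda _
        fun m => (measurable_pi_apply _).comp (measurable_snd.comp measurable_snd)))) hQ)
  simp only [mem_iInter, mem_preimage, mem_compl_iff] at f3
  obtain ⟨r, hr, hc⟩ := exists_code' O hO (ι := ℕ ⊕ GD)
    (Sum.elim (fun i => {f | Sg i (gs f)}) fun G => {f | Pos (AS G).sch.tree (gs f)})
    (fun i => by
      rcases i with i | G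
      exacts [sg_fsigma i, pos_fsigma' _])
    (Sum.elim (fun _ => univ) fun G => {x | G.Valid ∧ F x G.t G.s0 G.sb G.s1})
    (fun i => by
      rcases i with i | G
      · exact isClopen_univ
      · by_cases h : G.Valid
        · simp only [Sum.elim_inr, h, true_and]
          exact f1 _ _ _ _
        · simpa [h] using isClopen_empty)
  have e : ∀ x, coded O (r x) = {f | BY (F x) (gs f)} := by
    intro x
    rw [hc]
    ext f
    simp only [mem_ofPred_eq, Sum.exists, Sum.elim_inl, Sum.elim_inr, mem_univ, true_and,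
      BY, and_assoc]
  refine ⟨r, hr, Set.ext fun x => ⟨?_, fun hx => ?_⟩⟩
  · rintro ⟨⟨x, z⟩, hx, rfl⟩
    obtain ⟨y0, rfl⟩ := d2 z
    obtain ⟨E, e1, e2⟩ := positive (F := F x) (y0 := y0) fun b =>
      (f3 x y0 b).mp fun l => (mP _).mp hx _
    exact ⟨E, h1 E e1, by rw [e]; exact Set.ext fun f => (e2 f).symm⟩
  · by_contra hn
    obtain ⟨E, e1, e2⟩ := hx
    rw [e] at e2
    refine S13.negative (f2 x) (fun y0 => ?_) (h2 E e1) fun f => (Set.ext_iff.mp e2 f).symm
    obtain ⟨w, hw⟩ := not_forall.mp ((mP (x, d y0)).not.mp fun c => hn ⟨_, c, rfl⟩)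
    obtain ⟨β, rfl⟩ := d2 w
    refine ⟨β, fun b ⟨l, hl⟩ y => ?_⟩
    by_contra c
    push Not at c
    exact hw (hl ▸ (f3 x y0 b).mpr ⟨y, c⟩ l)

end Pool.Agent.Lib.S13
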